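import Mathlib

set_option autoImplicit false
universe u v w

namespace Pool.Agent.Helper173

open Filter Topology

/-- the circle group -/
abbrev Circ := AddCircle (1 : ℝ)

theorem circ_baer : Module.Baer ℤ Circ := Module.Baer.of_divisible _

theorem circ_extend {A : Type u} {B : Type v} [AddCommGroup A] [AddCommGroup B] (f : A →+ B)
    (χ : A →+ Circ) (h : ∀ a, f a = 0 → χ a = 0) : ∃ χ' : B →+ Circ, ∀ a, χ' (f a) = χ a := by
  have hk : f.ker ≤ χ.ker := fun a ha => h a ha
  obtain ⟨χ', hχ'⟩ := circ_baer.extension_property_addMonoidHom (QuotientAddGroup.kerLift f)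
    (QuotientAddGroup.kerLift_injective f) (QuotientAddGroup.lift f.ker χ hk)
  refine ⟨χ', fun a => ?_⟩
  have := DFunLike.congr_fun hχ' (QuotientAddGroup.mk a)
  simpa using this

/-- the inclusion of `ℚ/ℤ` in the circle -/
noncomputable def qToCirc : AddCircle (1 : ℚ) →+ Circ :=
  QuotientAddGroup.map (AddSubgroup.zmultiples (1 : ℚ)) (AddSubgroup.zmultiples (1 : ℝ))
    (Rat.castHom ℝ).toAddMonoidHom (by
      intro x hx
      obtain ⟨n, rfl⟩ := AddSubgroup.mem_zmultiples_iff.1 hx
      exact AddSubgroup.mem_zmultiples_iff.2 ⟨n, by simp⟩)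

theorem qToCirc_inj : Function.Injective qToCirc := by
  rw [injective_iff_map_eq_zero]
  intro x
  induction x using QuotientAddGroup.induction_on with
  | H q =>
    intro h
    have h' : ((q : ℝ) : Circ) = 0 := h
    rw [AddCircle.coe_eq_zero_iff] at h'
    obtain ⟨n, hn⟩ := h'
    have : (n : ℚ) = q := by
      have h2 : ((n : ℚ) : ℝ) = (q : ℝ) := by simpa using hn
      exact_mod_cast h2
    change ((q : ℚ) : AddCircle (1 : ℚ)) = 0
    rw [AddCircle.coe_eq_zero_iff]
    exact ⟨n, by simpa using this⟩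

theorem circ_sep {A : Type u} [AddCommGroup A] (S : AddSubgroup A) (a : A) (ha : a ∉ S) :
    ∃ χ : A →+ Circ, (∀ s ∈ S, χ s = 0) ∧ χ a ≠ 0 := by
  have h0 : (QuotientAddGroup.mk a : A ⧸ S) ≠ 0 := by
    intro h
    exact ha ((QuotientAddGroup.eq_zero_iff a).1 h)
  obtain ⟨c, hc⟩ := CharacterModule.exists_character_apply_ne_zero_of_ne_zero h0
  refine ⟨qToCirc.comp (AddMonoidHom.comp c (QuotientAddGroup.mk' S)), ?_, ?_⟩
  · intro s hs
    have : (QuotientAddGroup.mk' S) s = 0 := (QuotientAddGroup.eq_zero_iff s).2 hs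
    have h3 : c ((QuotientAddGroup.mk' S) s) = 0 := by rw [this]; exact map_zero c
    change qToCirc (c ((QuotientAddGroup.mk' S) s)) = 0
    rw [h3, map_zero]
  · intro h
    apply hc
    apply qToCirc_inj
    rw [map_zero]
    exact h

/-- double character module -/
def DD (M : Type u) [AddCommGroup M] : Type u := (M →+ Circ) →+ Circ

namespace DD
variable {R : Type v} [Ring R] {M : Type u} [AddCommGroup M] [Module R M]

instance : AddCommGroup (DD M) := inferInstanceAs (AddCommGroup ((M →+ Circ) →+ Circ))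

instance : FunLike (DD M) (M →+ Circ) Circ := inferInstanceAs (FunLike ((M →+ Circ) →+ Circ) _ _)
instance : AddMonoidHomClass (DD M) (M →+ Circ) Circ :=
  inferInstanceAs (AddMonoidHomClass ((M →+ Circ) →+ Circ) _ _)

@[ext] theorem ext' {ξ η : DD M} (h : ∀ χ, ξ χ = η χ) : ξ = η := DFunLike.ext _ _ h

@[simp] theorem add_apply' (ξ η : DD M) (χ : M →+ Circ) : (ξ + η) χ = ξ χ + η χ := rfl
@[simp] theorem zero_apply' (χ : M →+ Circ) : (0 : DD M) χ = 0 := rfl

/-- precomposition with scalar multiplication -/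
def pre (r : R) : (M →+ Circ) →+ (M →+ Circ) where
  toFun χ := χ.comp (DistribSMul.toAddMonoidHom M r)
  map_zero' := by ext; simp
  map_add' χ χ' := by ext; simp

@[simp] theorem pre_apply (r : R) (χ : M →+ Circ) (m : M) : pre r χ m = χ (r • m) := rfl

instance : SMul R (DD M) := ⟨fun r ξ => AddMonoidHom.comp (M := M →+ Circ) ξ (pre r)⟩

theorem smul_apply' (r : R) (ξ : DD M) (χ : M →+ Circ) : (r • ξ) χ = ξ (pre r χ) := rfl

instance : Module R (DD M) where
  one_smul ξ := by
    ext χ; rw [smul_apply']; congr 1; ext m; simp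
  mul_smul r s ξ := by
    ext χ; rw [smul_apply', smul_apply', smul_apply']; congr 1; ext m; simp [mul_smul]
  smul_zero r := by ext χ; rfl
  smul_add r ξ η := by ext χ; rfl
  add_smul r s ξ := by
    ext χ; rw [smul_apply', add_apply', smul_apply', smul_apply', ← map_add]; congr 1; ext m
    simp [add_smul]
  zero_smul ξ := by
    ext χ; rw [smul_apply', zero_apply']
    have : (pre (0 : R) χ : M →+ Circ) = 0 := by ext m; simp
    rw [this, map_zero]

variable (R M) in
/-- the evaluation map -/
def ι : M →ₗ[R] DD M where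
  toFun m := (AddMonoidHom.eval m : (M →+ Circ) →+ Circ)
  map_add' m n := by ext χ; exact map_add χ m n
  map_smul' r m := by ext χ; rfl

@[simp] theorem ι_apply (m : M) (χ : M →+ Circ) : ι R M m χ = χ m := rfl

instance : TopologicalSpace (DD M) :=
  TopologicalSpace.induced (fun (ξ : DD M) (χ : M →+ Circ) => ξ χ) inferInstance

theorem isEmbedding : Topology.IsEmbedding (fun (ξ : DD M) (χ : M →+ Circ) => ξ χ) :=
  ⟨⟨rfl⟩, fun _ _ h => DD.ext' fun χ => congrFun h χ⟩

theorem range_coe : Set.range (fun (ξ : DD M) (χ : M →+ Circ) => ξ χ) =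
    {f | ∀ χ χ' : M →+ Circ, f (χ + χ') = f χ + f χ'} := by
  ext f
  constructor
  · rintro ⟨ξ, rfl⟩ χ χ'
    exact map_add ξ χ χ'
  · intro h
    exact ⟨(AddMonoidHom.mk' f h : (M →+ Circ) →+ Circ), rfl⟩

theorem isClosedEmbedding :
    Topology.IsClosedEmbedding (fun (ξ : DD M) (χ : M →+ Circ) => ξ χ) := by
  refine ⟨isEmbedding, ?_⟩
  rw [range_coe]
  simp only [Set.ofPred_forall]
  refine isClosed_iInter fun χ => isClosed_iInter fun χ' => ?_
  exact isClosed_eq (by fun_prop) (by fun_prop)

instance : T2Space (DD M) := isEmbedding.t2Space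
instance : CompactSpace (DD M) := isClosedEmbedding.compactSpace

theorem continuous_eval (χ : M →+ Circ) : Continuous fun ξ : DD M => ξ χ :=
  (continuous_apply χ).comp isEmbedding.continuous

instance : ContinuousAdd (DD M) := ⟨by
  rw [isEmbedding.continuous_iff]
  refine continuous_pi fun χ => ?_
  exact ((continuous_eval χ).comp continuous_fst).add ((continuous_eval χ).comp continuous_snd)⟩

instance : ContinuousConstSMul R (DD M) := ⟨fun r => by
  rw [isEmbedding.continuous_iff]
  refine continuous_pi fun χ => ?_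
  exact continuous_eval (pre r χ)⟩

end DD

end Pool.Agent.Helper173
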