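import Mathlib
import Pool.Agent.Helper173.Dual

set_option autoImplicit false
universe u v w

namespace Pool.Agent.Helper173

open Filter Topology

variable {R : Type u} [Ring R]

/-- coded pp formula in `b` free variables: it asserts of `x` that `x ∘ P` factors through `Q` -/
structure PPF (R : Type u) [Ring R] (b : ℕ) : Type u where
  m : ℕ
  k : ℕ
  P : (Fin m → R) →ₗ[R] (Fin b → R)
  Q : (Fin m → R) →ₗ[R] (Fin k → R)

/-- satisfaction -/
def Sat {b : ℕ} (φ : PPF R b) {M : Type u} [AddCommGroup M] [Module R M]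
    (x : (Fin b → R) →ₗ[R] M) : Prop :=
  ∃ y : (Fin φ.k → R) →ₗ[R] M, x ∘ₗ φ.P = y ∘ₗ φ.Q

section basic
variable {b : ℕ} {M N : Type u} [AddCommGroup M] [Module R M] [AddCommGroup N] [Module R N]

theorem Sat.comp {φ : PPF R b} {x : (Fin b → R) →ₗ[R] M} (h : Sat φ x) (f : M →ₗ[R] N) :
    Sat φ (f ∘ₗ x) := by
  obtain ⟨y, hy⟩ := h
  exact ⟨f ∘ₗ y, by rw [LinearMap.comp_assoc, hy, LinearMap.comp_assoc]⟩

theorem Sat.add {φ : PPF R b} {x x' : (Fin b → R) →ₗ[R] M} (h : Sat φ x) (h' : Sat φ x') :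
    Sat φ (x + x') := by
  obtain ⟨y, hy⟩ := h
  obtain ⟨y', hy'⟩ := h'
  exact ⟨y + y', by rw [LinearMap.add_comp, hy, hy', LinearMap.add_comp]⟩

theorem Sat.zero (φ : PPF R b) : Sat φ (0 : (Fin b → R) →ₗ[R] M) :=
  ⟨0, by simp⟩

end basic

/-! ### pairing with characters -/

section pairing

variable {M : Type u} [AddCommGroup M] [Module R M]

/-- the map `u ↦ u j • m` -/
def unitMap {n : ℕ} (j : Fin n) (m : M) : (Fin n → R) →ₗ[R] M :=
  (LinearMap.toSpanSingleton R M m) ∘ₗ (LinearMap.proj j)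

@[simp] theorem unitMap_apply {n : ℕ} (j : Fin n) (m : M) (u : Fin n → R) :
    unitMap (R := R) j m u = u j • m := rfl

/-- component characters -/
def comp' {n : ℕ} (X : ((Fin n → R) →ₗ[R] M) →+ Circ) (j : Fin n) : M →+ Circ where
  toFun m := X (unitMap j m)
  map_zero' := by
    have : unitMap (R := R) j (0 : M) = 0 := by ext; simp
    rw [this, map_zero]
  map_add' m m' := by
    have : unitMap (R := R) j (m + m') = unitMap j m + unitMap j m' := by
      apply LinearMap.ext; intro x; simp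
    rw [this, map_add]

@[simp] theorem comp'_apply {n : ℕ} (X : ((Fin n → R) →ₗ[R] M) →+ Circ) (j : Fin n) (m : M) :
    comp' X j m = X (unitMap j m) := rfl

/-- the pairing -/
noncomputable def pair {n : ℕ} (ζ : (Fin n → R) →ₗ[R] DD M) (X : ((Fin n → R) →ₗ[R] M) →+ Circ) :
    Circ := ∑ j, ζ (Pi.single j 1) (comp' X j)

theorem sum_unitMap {n : ℕ} (x : (Fin n → R) →ₗ[R] M) :
    ∑ j, unitMap j (x (Pi.single j 1)) = x := by
  apply LinearMap.ext
  intro u
  simp only [LinearMap.sum_apply, unitMap_apply]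
  conv_rhs => rw [pi_eq_sum_univ' u]
  rw [map_sum]
  refine Finset.sum_congr rfl fun j _ => ?_
  rw [map_smul]

theorem pair_ι {n : ℕ} (x : (Fin n → R) →ₗ[R] M) (X : ((Fin n → R) →ₗ[R] M) →+ Circ) :
    pair ((DD.ι R M) ∘ₗ x) X = X x := by
  unfold pair
  conv_rhs => rw [← sum_unitMap x]
  rw [map_sum]
  rfl

theorem pair_comp {n m : ℕ} (ζ : (Fin n → R) →ₗ[R] DD M) (P : (Fin m → R) →ₗ[R] (Fin n → R))
    (X : ((Fin m → R) →ₗ[R] M) →+ Circ) (X' : ((Fin n → R) →ₗ[R] M) →+ Circ)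
    (h : ∀ x, X' x = X (x ∘ₗ P)) :
    pair (ζ ∘ₗ P) X = pair ζ X' := by
  unfold pair
  have h1 : ∀ j : Fin m, (ζ ∘ₗ P) (Pi.single j 1) =
      ∑ i, (P (Pi.single j 1) i) • ζ (Pi.single i 1) := by
    intro j
    rw [LinearMap.comp_apply]
    conv_lhs => rw [pi_eq_sum_univ' (P (Pi.single j 1))]
    rw [map_sum]
    refine Finset.sum_congr rfl fun i _ => ?_
    rw [map_smul]
  have h2 : ∀ i : Fin n, comp' X' i = ∑ j, DD.pre (P (Pi.single j 1) i) (comp' X j) := by
    intro i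
    ext m
    rw [comp'_apply, h, AddMonoidHom.finsetSum_apply]
    simp only [DD.pre_apply, comp'_apply]
    rw [← map_sum]
    congr 1
    rw [← sum_unitMap (unitMap i m ∘ₗ P)]
    refine Finset.sum_congr rfl fun j _ => ?_
    simp
  have h3 : ∀ (s : Finset (Fin n)) (f : Fin n → DD M) (χ : M →+ Circ),
      (∑ i ∈ s, f i) χ = ∑ i ∈ s, (f i) χ := by
    intro s f χ
    induction s using Finset.cons_induction with
    | empty => simp
    | cons a s ha ih => rw [Finset.sum_cons, Finset.sum_cons, DD.add_apply', ih]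
  calc ∑ j, (ζ ∘ₗ P) (Pi.single j 1) (comp' X j)
      = ∑ j, ∑ i, (P (Pi.single j 1) i • ζ (Pi.single i 1)) (comp' X j) := by
        refine Finset.sum_congr rfl fun j _ => ?_
        rw [h1 j, h3]
    _ = ∑ i, ∑ j, (P (Pi.single j 1) i • ζ (Pi.single i 1)) (comp' X j) := Finset.sum_comm
    _ = ∑ i, ζ (Pi.single i 1) (comp' X' i) := by
        refine Finset.sum_congr rfl fun i _ => ?_
        rw [h2 i, map_sum]
        rfl

/-- precomposition as additive map on hom groups -/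
def preC {n m : ℕ} (P : (Fin m → R) →ₗ[R] (Fin n → R)) :
    ((Fin n → R) →ₗ[R] M) →+ ((Fin m → R) →ₗ[R] M) where
  toFun x := x ∘ₗ P
  map_zero' := by simp
  map_add' x y := LinearMap.add_comp _ _ _

@[simp] theorem preC_apply {n m : ℕ} (P : (Fin m → R) →ₗ[R] (Fin n → R))
    (x : (Fin n → R) →ₗ[R] M) : preC P x = x ∘ₗ P := rfl

theorem pair_preC {n m : ℕ} (ζ : (Fin n → R) →ₗ[R] DD M) (P : (Fin m → R) →ₗ[R] (Fin n → R))
    (X : ((Fin m → R) →ₗ[R] M) →+ Circ) : pair (ζ ∘ₗ P) X = pair ζ (X.comp (preC P)) :=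
  pair_comp ζ P X _ fun _ => rfl

theorem pair_zero_right {n : ℕ} (ζ : (Fin n → R) →ₗ[R] DD M) : pair ζ 0 = 0 := by
  unfold pair
  refine Finset.sum_eq_zero fun j _ => ?_
  have : comp' (0 : ((Fin n → R) →ₗ[R] M) →+ Circ) j = 0 := by ext; simp
  rw [this, map_zero]

theorem pair_add_right {n : ℕ} (ζ : (Fin n → R) →ₗ[R] DD M)
    (X Y : ((Fin n → R) →ₗ[R] M) →+ Circ) : pair ζ (X + Y) = pair ζ X + pair ζ Y := by
  unfold pair
  rw [← Finset.sum_add_distrib]
  refine Finset.sum_congr rfl fun j _ => ?_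
  have : comp' (X + Y) j = comp' X j + comp' Y j := by ext; simp
  rw [this, map_add]

/-- evaluation character on a hom group -/
def evC {n : ℕ} (u : Fin n → R) (χ : M →+ Circ) : ((Fin n → R) →ₗ[R] M) →+ Circ where
  toFun x := χ (x u)
  map_zero' := by simp
  map_add' x y := by simp

@[simp] theorem evC_apply {n : ℕ} (u : Fin n → R) (χ : M →+ Circ) (x : (Fin n → R) →ₗ[R] M) :
    evC u χ x = χ (x u) := rfl

theorem pair_evC {n : ℕ} (ζ : (Fin n → R) →ₗ[R] DD M) (j : Fin n) (χ : M →+ Circ) :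
    pair ζ (evC (Pi.single j 1) χ) = ζ (Pi.single j 1) χ := by
  unfold pair
  rw [Finset.sum_eq_single j]
  · congr 1
    ext m
    simp
  · intro i _ hi
    have : comp' (evC (M := M) (Pi.single j (1 : R)) χ) i = 0 := by
      ext m
      simp [hi]
    rw [this, map_zero]
  · intro h; exact absurd (Finset.mem_univ j) h

/-- Key duality statement for double duals. -/
theorem sat_dd_iff {b : ℕ} (φ : PPF R b) (ζ : (Fin b → R) →ₗ[R] DD M) :
    Sat φ ζ ↔ ∀ X : ((Fin φ.m → R) →ₗ[R] M) →+ Circ, X.comp (preC φ.Q) = 0 →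
      pair ζ (X.comp (preC φ.P)) = 0 := by
  constructor
  · rintro ⟨η, hη⟩ X hX
    rw [← pair_preC, hη, pair_preC, hX, pair_zero_right]
  · intro h
    -- the adjoint of precomposition with Q
    let q : (((Fin φ.m → R) →ₗ[R] M) →+ Circ) →+ (((Fin φ.k → R) →ₗ[R] M) →+ Circ) :=
      { toFun := fun X => X.comp (preC φ.Q)
        map_zero' := by ext; simp
        map_add' := fun X Y => by ext; simp }
    let τ : (((Fin φ.m → R) →ₗ[R] M) →+ Circ) →+ Circ :=
      { toFun := fun X => pair (ζ ∘ₗ φ.P) X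
        map_zero' := pair_zero_right _
        map_add' := pair_add_right _ }
    obtain ⟨τ', hτ'⟩ := circ_extend q τ (fun X hX => by
      change pair (ζ ∘ₗ φ.P) X = 0
      rw [pair_preC]
      exact h X hX)
    let e : (Fin φ.k → R) → (M →+ Circ) →+ (((Fin φ.k → R) →ₗ[R] M) →+ Circ) := fun u =>
      { toFun := fun χ => evC u χ
        map_zero' := by ext; simp
        map_add' := fun χ χ' => by ext; simp }
    let η : (Fin φ.k → R) →ₗ[R] DD M :=
      { toFun := fun u => (τ'.comp (e u) : (M →+ Circ) →+ Circ)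
        map_add' := fun u v => by
          apply DD.ext'
          intro χ
          change τ' (evC (u + v) χ) = τ' (evC u χ) + τ' (evC v χ)
          rw [← map_add]
          congr 1
          ext x
          simp
        map_smul' := fun r u => by
          apply DD.ext'
          intro χ
          change τ' (evC (r • u) χ) = τ' (evC u (DD.pre r χ))
          congr 1
          ext x
          simp }
    refine ⟨η, ?_⟩
    apply LinearMap.pi_ext'
    intro j
    apply LinearMap.ext_ring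
    apply DD.ext'
    intro χ
    change (ζ ∘ₗ φ.P) (Pi.single j 1) χ = τ' (evC (φ.Q (Pi.single j 1)) χ)
    rw [← pair_evC]
    have h1 : q (evC (Pi.single j 1) χ) = evC (φ.Q (Pi.single j 1)) χ := by
      ext x
      rfl
    rw [← h1, hτ']
    rfl

theorem sat_of_sat_ι {b : ℕ} (φ : PPF R b) (x : (Fin b → R) →ₗ[R] M)
    (h : Sat φ ((DD.ι R M) ∘ₗ x)) : Sat φ x := by
  rw [sat_dd_iff] at h
  by_contra hx
  have hx' : preC φ.P x ∉ (preC (M := M) φ.Q).range := by
    rintro ⟨y, hy⟩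
    exact hx ⟨y, hy.symm⟩
  obtain ⟨X, hX, hX'⟩ := circ_sep _ _ hx'
  apply hX'
  have := h X (by ext y; exact hX _ ⟨y, rfl⟩)
  rw [pair_ι] at this
  exact this

theorem sat_ι_iff {b : ℕ} (φ : PPF R b) (x : (Fin b → R) →ₗ[R] M) :
    Sat φ ((DD.ι R M) ∘ₗ x) ↔ Sat φ x :=
  ⟨sat_of_sat_ι φ x, fun h => h.comp _⟩

end pairing

/-- a pp pair -/
structure PPPair (R : Type u) [Ring R] : Type u where
  b : ℕ
  φ : PPF R b
  ψ : PPF R b

/-- the pair is closed on `M` -/
def PPPair.Holds (p : PPPair R) (M : Type u) [AddCommGroup M] [Module R M] : Prop :=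
  ∀ x : (Fin p.b → R) →ₗ[R] M, Sat p.φ x → Sat p.ψ x

theorem PPPair.Holds.retract {p : PPPair R} {M N : Type u} [AddCommGroup M] [Module R M]
    [AddCommGroup N] [Module R N] (h : p.Holds M) (i : N →ₗ[R] M) (r : M →ₗ[R] N)
    (hir : r ∘ₗ i = LinearMap.id) : p.Holds N := by
  intro x hx
  have := (h (i ∘ₗ x) (hx.comp i)).comp r
  rwa [← LinearMap.comp_assoc, hir, LinearMap.id_comp] at this

theorem PPPair.Holds.dd {p : PPPair R} {M : Type u} [AddCommGroup M] [Module R M]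
    (h : p.Holds M) : p.Holds (DD M) := by
  intro ζ hζ
  rw [sat_dd_iff] at hζ ⊢
  intro X' hX'
  -- the character `X' ∘ P'^*` vanishes on `φ(M)`
  let V : AddSubgroup ((Fin p.φ.m → R) →ₗ[R] M) := (preC (M := M) p.φ.Q).range
  let f : ((Fin p.b → R) →ₗ[R] M) →+ (((Fin p.φ.m → R) →ₗ[R] M) ⧸ V) :=
    (QuotientAddGroup.mk' V).comp (preC p.φ.P)
  obtain ⟨χ, hχ⟩ := circ_extend f (X'.comp (preC p.ψ.P)) (fun x hx => by
    have hx' : preC p.φ.P x ∈ V := (QuotientAddGroup.eq_zero_iff _).1 hx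
    obtain ⟨y, hy⟩ := hx'
    obtain ⟨y', hy'⟩ := h x ⟨y, hy.symm⟩
    change X' (x ∘ₗ p.ψ.P) = 0
    rw [hy']
    exact DFunLike.congr_fun hX' y')
  have h1 : X'.comp (preC p.ψ.P) = (χ.comp (QuotientAddGroup.mk' V)).comp (preC p.φ.P) := by
    ext x
    exact (hχ x).symm
  rw [h1]
  apply hζ
  ext y
  change χ (QuotientAddGroup.mk' V (preC p.φ.Q y)) = 0
  have : QuotientAddGroup.mk' V (preC p.φ.Q y) = 0 := (QuotientAddGroup.eq_zero_iff _).2 ⟨y, rfl⟩
  rw [this, map_zero]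

end Pool.Agent.Helper173
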