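import Mathlib
import Pool.Agent.Helper173.Formula

set_option autoImplicit false
universe u v w

namespace Pool.Agent.Helper173

open Filter Topology

variable {R : Type u} [Ring R]

section rp
variable {ι : Type u} (l : Filter ι) (M : ι → Type u) [∀ i, AddCommGroup (M i)]
  [∀ i, Module R (M i)]

variable (R) in
/-- eventually zero families -/
def rpSub : Submodule R (Π i, M i) where
  carrier := {x | ∀ᶠ i in l, x i = 0}
  zero_mem' := by simp
  add_mem' := by
    intro x y hx hy
    filter_upwards [hx, hy] with i h1 h2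
    simp [h1, h2]
  smul_mem' := by
    intro r x hx
    filter_upwards [hx] with i h1
    simp [h1]

theorem mem_rpSub (x : Π i, M i) : x ∈ rpSub R l M ↔ ∀ᶠ i in l, x i = 0 := Iff.rfl

variable (R) in
/-- reduced product -/
abbrev RP : Type u := (Π i, M i) ⧸ rpSub R l M

variable {l M}

theorem exists_lift {X Y : Type u} [AddCommGroup X] [Module R X] [AddCommGroup Y] [Module R Y]
    {n : ℕ} (f : X →ₗ[R] Y) (hf : Function.Surjective f) (x : (Fin n → R) →ₗ[R] Y) :
    ∃ x' : (Fin n → R) →ₗ[R] X, f ∘ₗ x' = x :=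
  Module.projective_lifting_property f x hf

theorem sat_rp_iff {b : ℕ} (φ : PPF R b) (x : (Fin b → R) →ₗ[R] (Π i, M i)) :
    Sat φ ((rpSub R l M).mkQ ∘ₗ x) ↔ ∀ᶠ i in l, Sat φ ((LinearMap.proj i) ∘ₗ x) := by
  constructor
  · rintro ⟨y, hy⟩
    obtain ⟨y', rfl⟩ := exists_lift (rpSub R l M).mkQ (Submodule.mkQ_surjective _) y
    have h1 : ∀ j : Fin φ.m, ∀ᶠ i in l,
        (x (φ.P (Pi.single j 1)) - y' (φ.Q (Pi.single j 1))) i = 0 := by
      intro j
      have h2 := LinearMap.congr_fun hy (Pi.single j 1)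
      simp only [LinearMap.comp_apply] at h2
      rw [Submodule.mkQ_apply, Submodule.mkQ_apply, Submodule.Quotient.eq] at h2
      exact h2
    filter_upwards [eventually_all.2 h1] with i hi
    refine ⟨(LinearMap.proj i) ∘ₗ y', ?_⟩
    apply LinearMap.pi_ext'
    intro j
    apply LinearMap.ext_ring
    have := hi j
    simp only [LinearMap.comp_apply, LinearMap.proj_apply, LinearMap.single_apply]
    rw [Pi.sub_apply, sub_eq_zero] at this
    exact this
  · intro h
    classical
    let y' : (Fin φ.k → R) →ₗ[R] (Π i, M i) :=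
      LinearMap.pi fun i => if hi : Sat φ ((LinearMap.proj i) ∘ₗ x) then hi.choose else 0
    refine ⟨(rpSub R l M).mkQ ∘ₗ y', ?_⟩
    apply LinearMap.ext
    intro u
    simp only [LinearMap.comp_apply]
    rw [Submodule.mkQ_apply, Submodule.mkQ_apply, Submodule.Quotient.eq]
    change ∀ᶠ i in l, (x (φ.P u) - y' (φ.Q u)) i = 0
    filter_upwards [h] with i hi
    have h3 := LinearMap.congr_fun hi.choose_spec u
    simp only [LinearMap.comp_apply, LinearMap.proj_apply] at h3
    rw [Pi.sub_apply, h3, sub_eq_zero]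
    simp [y', hi]

theorem PPPair.Holds.rp {p : PPPair R} (h : ∀ i, p.Holds (M i)) : p.Holds (RP R l M) := by
  intro x hx
  obtain ⟨x', rfl⟩ := exists_lift (rpSub R l M).mkQ (Submodule.mkQ_surjective _) x
  rw [sat_rp_iff] at hx ⊢
  filter_upwards [hx] with i hi
  exact h i _ hi

end rp

end Pool.Agent.Helper173
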