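import Mathlib
import Pool.Agent.Helper173.RedProd

set_option autoImplicit false
universe u v w

namespace Pool.Agent.Helper173

open Filter Topology

variable {R : Type u} [Ring R]

/-- finitely generated free, in coordinates -/
class FF (R : Type u) [Ring R] (U : Type u) [AddCommGroup U] [Module R U] : Prop where
  ex : ∃ n : ℕ, Nonempty (U ≃ₗ[R] (Fin n → R))

instance ffFun {A : Type u} [Finite A] : FF R (A → R) := by
  obtain ⟨n, ⟨e⟩⟩ := Finite.exists_equiv_fin A
  exact ⟨n, ⟨LinearEquiv.funCongrLeft R R e.symm⟩⟩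

instance ffFun0 {A : Type} [Finite A] : FF R (A → R) := by
  obtain ⟨n, ⟨e⟩⟩ := Finite.exists_equiv_fin A
  exact ⟨n, ⟨LinearEquiv.funCongrLeft R R e.symm⟩⟩

theorem code_formula {b : ℕ} {U V : Type u} [AddCommGroup U] [Module R U] [AddCommGroup V]
    [Module R V] [hU : FF R U] [hV : FF R V] (P : U →ₗ[R] (Fin b → R)) (Q : U →ₗ[R] V) :
    ∃ φ : PPF R b, ∀ (M : Type u) [AddCommGroup M] [Module R M] (x : (Fin b → R) →ₗ[R] M),
      Sat φ x ↔ ∃ y : V →ₗ[R] M, x ∘ₗ P = y ∘ₗ Q := by
  obtain ⟨m, ⟨e⟩⟩ := hU.ex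
  obtain ⟨k, ⟨f⟩⟩ := hV.ex
  refine ⟨⟨m, k, P ∘ₗ e.symm.toLinearMap, f.toLinearMap ∘ₗ Q ∘ₗ e.symm.toLinearMap⟩, ?_⟩
  intro M _ _ x
  constructor
  · rintro ⟨y, hy⟩
    refine ⟨y ∘ₗ f.toLinearMap, ?_⟩
    apply LinearMap.ext
    intro u
    have := LinearMap.congr_fun hy (e u)
    simpa using this
  · rintro ⟨y, hy⟩
    refine ⟨y ∘ₗ f.symm.toLinearMap, ?_⟩
    apply LinearMap.ext
    intro u
    have := LinearMap.congr_fun hy (e.symm u)
    simpa using this

section compact

variable {H : Type u} [AddCommGroup H] [Module R H] [TopologicalSpace H] [T2Space H]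
  [CompactSpace H] [ContinuousAdd H] [ContinuousConstSMul R H]

/-- in a compact module, pp-types can be mapped -/
theorem exists_hom_of_type {b : ℕ} {M : Type u} [AddCommGroup M] [Module R M]
    (x₁ : (Fin b → R) →ₗ[R] M) (x : (Fin b → R) →ₗ[R] H)
    (h : ∀ φ : PPF R b, Sat φ x₁ → Sat φ x) : ∃ θ : M →ₗ[R] H, θ ∘ₗ x₁ = x := by
  classical
  let J := {e : M →₀ R // Finsupp.linearCombination R (id : M → M) e = 0} ⊕ (Fin b → R)
  let C : J → Set (M → H) := fun j => Sum.elim
    (fun e => {θ : M → H | ∑ m ∈ e.1.support, e.1 m • θ m = 0})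
    (fun w => {θ : M → H | θ (x₁ w) = x w}) j
  have hC : ∀ j, IsClosed (C j) := by
    rintro (e | w)
    · refine isClosed_eq ?_ continuous_const
      refine continuous_finsetSum _ fun m _ => ?_
      exact (continuous_apply m).const_smul _
    · exact isClosed_eq (continuous_apply _) continuous_const
  have key : ((Set.univ : Set (M → H)) ∩ ⋂ j, C j).Nonempty := by
    refine isCompact_univ.inter_iInter_nonempty C hC ?_
    intro u
    let sp : J → Finset M := fun j => Sum.elim (fun e => e.1.support) (fun w => {x₁ w}) j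
    let S : Finset M := u.biUnion sp
    have hS1 : ∀ e, (Sum.inl e : J) ∈ u → e.1.support ⊆ S := fun e he =>
      Finset.subset_biUnion_of_mem sp he
    have hS2 : ∀ w, (Sum.inr w : J) ∈ u → x₁ w ∈ S := fun w hw =>
      Finset.subset_biUnion_of_mem sp hw (Finset.mem_singleton_self (x₁ w))
    let p : u → (Fin b → R) := fun j => Sum.elim (fun _ => 0) (fun w => w) j.1
    let q : u → (S → R) := fun j => Sum.elim (fun e s => e.1 s.1)
      (fun w s => if s.1 = x₁ w then 1 else 0) j.1
    let P : (u → R) →ₗ[R] (Fin b → R) := Fintype.linearCombination R p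
    let Q : (u → R) →ₗ[R] (S → R) := Fintype.linearCombination R q
    obtain ⟨φ, hφ⟩ := code_formula P Q
    have h1 : Sat φ x₁ := by
      rw [hφ]
      refine ⟨Fintype.linearCombination R (fun s : S => s.1), ?_⟩
      apply LinearMap.pi_ext'
      intro j
      apply LinearMap.ext_ring
      simp only [LinearMap.comp_apply, LinearMap.single_apply, P, Q,
        Fintype.linearCombination_apply_single, one_smul]
      rcases j with ⟨e | w, hj⟩
      · simp only [p, q, Sum.elim_inl, map_zero]
        rw [Fintype.linearCombination_apply]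
        have h3 := e.2
        rw [Finsupp.linearCombination_apply, Finsupp.sum] at h3
        symm
        rw [Finset.sum_coe_sort S (fun m => e.1 m • m)]
        refine Eq.trans (Finset.sum_subset (hS1 e hj) ?_).symm h3
        intro m _ hm
        rw [Finsupp.notMem_support_iff.1 hm, zero_smul]
      · simp only [p, q, Sum.elim_inr]
        rw [Fintype.linearCombination_apply]
        rw [Finset.sum_coe_sort S (fun m => (if m = x₁ w then (1 : R) else 0) • m)]
        rw [Finset.sum_eq_single (x₁ w)]
        · simp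
        · intro m _ hm; simp [hm]
        · intro hm; exact absurd (hS2 w hj) hm
    obtain ⟨y, hy⟩ := (hφ H x).1 (h φ h1)
    let g : M → H := fun m => if hm : m ∈ S then y (Pi.single ⟨m, hm⟩ 1) else 0
    have hgS : ∀ (m : M) (hm : m ∈ S), g m = y (Pi.single ⟨m, hm⟩ 1) := fun m hm => by
      simp [g, hm]
    refine ⟨g, Set.mem_univ _, ?_⟩
    rw [Set.mem_iInter₂]
    intro j hj
    have hyj := LinearMap.congr_fun hy (Pi.single ⟨j, hj⟩ 1)
    simp only [LinearMap.comp_apply, P, Q,
        Fintype.linearCombination_apply_single, one_smul] at hyj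
    have hq : ∀ f : S → R, y f = ∑ s : S, f s • y (Pi.single s 1) := by
      intro f
      conv_lhs => rw [pi_eq_sum_univ' f]
      rw [map_sum]
      refine Finset.sum_congr rfl fun i _ => ?_
      rw [map_smul]
    rcases j with e | w
    · change ∑ m ∈ e.1.support, e.1 m • g m = 0
      simp only [p, q, Sum.elim_inl, map_zero] at hyj
      rw [hyj, hq]
      have h4 : ∀ s : S, e.1 s.1 • y (Pi.single s 1) = (fun m => e.1 m • g m) s.1 := by
        intro s
        change _ = e.1 s.1 • g s.1
        rw [hgS s.1 s.2]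
      rw [Finset.sum_congr rfl fun s _ => h4 s]
      rw [Finset.sum_coe_sort S (fun m => e.1 m • g m)]
      apply Finset.sum_subset (hS1 e hj)
      intro m _ hm
      rw [Finsupp.notMem_support_iff.1 hm, zero_smul]
    · change g (x₁ w) = x w
      rw [hgS _ (hS2 w hj)]
      simp only [p, q, Sum.elim_inr] at hyj
      rw [hyj]
      congr 1
      ext s
      simp [Pi.single_apply, Subtype.ext_iff]
  obtain ⟨θ, -, hθ⟩ := key
  rw [Set.mem_iInter] at hθ
  have hadd : ∀ m m', θ (m + m') = θ m + θ m' := by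
    intro m m'
    let e : M →₀ R := Finsupp.single (m + m') 1 - Finsupp.single m 1 - Finsupp.single m' 1
    have he : Finsupp.linearCombination R (id : M → M) e = 0 := by
      simp [e]
    have h5 : ∑ a ∈ e.support, e a • θ a = 0 := hθ (Sum.inl ⟨e, he⟩)
    have h6 : Finsupp.linearCombination R θ e = 0 := by
      rw [Finsupp.linearCombination_apply, Finsupp.sum]; exact h5
    simp only [e, map_sub, Finsupp.linearCombination_single, one_smul] at h6
    rw [sub_sub, sub_eq_zero] at h6
    exact h6
  have hsmul : ∀ (r : R) m, θ (r • m) = r • θ m := by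
    intro r m
    let e : M →₀ R := Finsupp.single (r • m) 1 - Finsupp.single m r
    have he : Finsupp.linearCombination R (id : M → M) e = 0 := by
      simp [e]
    have h5 : ∑ a ∈ e.support, e a • θ a = 0 := hθ (Sum.inl ⟨e, he⟩)
    have h6 : Finsupp.linearCombination R θ e = 0 := by
      rw [Finsupp.linearCombination_apply, Finsupp.sum]; exact h5
    simp only [e, map_sub, Finsupp.linearCombination_single, one_smul] at h6
    rw [sub_eq_zero] at h6
    exact h6
  refine ⟨{ toFun := θ, map_add' := hadd, map_smul' := hsmul }, ?_⟩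
  apply LinearMap.ext
  intro w
  exact hθ (Sum.inr w)

/-- the summation map extends in a compact module -/
theorem exists_sum_extension (I : Type u) : ∃ g : (I → H) →ₗ[R] H,
    ∀ x : I →₀ H, g ⇑x = x.sum (fun _ m => m) := by
  classical
  let U : Ultrafilter (Finset I) := Ultrafilter.of atTop
  let g : (I → H) → H := fun x => (U.map fun J => ∑ i ∈ J, x i).lim
  have hg : ∀ x : I → H, Tendsto (fun J : Finset I => ∑ i ∈ J, x i) U (𝓝 (g x)) := by
    intro x
    exact (U.map fun J => ∑ i ∈ J, x i).le_nhds_lim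
  refine ⟨{ toFun := g, map_add' := ?_, map_smul' := ?_ }, ?_⟩
  · intro x y
    refine tendsto_nhds_unique (hg (x + y)) ?_
    have := (hg x).add (hg y)
    refine this.congr fun J => ?_
    rw [← Finset.sum_add_distrib]
    rfl
  · intro r x
    refine tendsto_nhds_unique (hg (r • x)) ?_
    have := (hg x).const_smul r
    refine this.congr fun J => ?_
    rw [Finset.smul_sum]
    rfl
  · intro x
    refine tendsto_nhds_unique (hg x) ?_
    have h1 : ∀ᶠ J : Finset I in (U : Filter (Finset I)), x.support ⊆ J :=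
      (Ultrafilter.of_le atTop) (eventually_ge_atTop x.support)
    refine tendsto_const_nhds.congr' ?_
    filter_upwards [h1] with J hJ
    rw [Finsupp.sum]
    apply Finset.sum_subset hJ
    intro i _ hi
    exact Finsupp.notMem_support_iff.1 hi

variable (H) in
/-- endomorphisms fixing `x`, as functions -/
abbrev EndFix {b : ℕ} (x : (Fin b → R) →ₗ[R] H) : Type u :=
  {s : H → H // (∀ u v, s (u + v) = s u + s v) ∧ (∀ (r : R) u, s (r • u) = r • s u) ∧
    ∀ w, s (x w) = x w}

namespace EndFix
variable {b : ℕ} (x : (Fin b → R) →ₗ[R] H)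

instance : CompactSpace (EndFix H x) := by
  refine isCompact_iff_compactSpace.1 (IsClosed.isCompact ?_)
  refine IsClosed.inter ?_ (IsClosed.inter ?_ ?_)
  · have : {s : H → H | ∀ u v, s (u + v) = s u + s v} =
        ⋂ u, ⋂ v, {s : H → H | s (u + v) = s u + s v} := by
      ext s; simp
    change IsClosed {s : H → H | ∀ u v, s (u + v) = s u + s v}
    rw [this]
    exact isClosed_iInter fun u => isClosed_iInter fun v => isClosed_eq (by fun_prop) (by fun_prop)
  · have : {s : H → H | ∀ (r : R) u, s (r • u) = r • s u} =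
        ⋂ r : R, ⋂ u, {s : H → H | s (r • u) = r • s u} := by
      ext s; simp
    change IsClosed {s : H → H | ∀ (r : R) u, s (r • u) = r • s u}
    rw [this]
    exact isClosed_iInter fun r => isClosed_iInter fun u =>
      isClosed_eq (continuous_apply _) ((continuous_apply _).const_smul _)
  · have : {s : H → H | ∀ w, s (x w) = x w} = ⋂ w, {s : H → H | s (x w) = x w} := by
      ext s; simp
    change IsClosed {s : H → H | ∀ w, s (x w) = x w}
    rw [this]
    exact isClosed_iInter fun w => isClosed_eq (continuous_apply _) continuous_const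

instance : Semigroup (EndFix H x) where
  mul s t := ⟨fun h => s.1 (t.1 h), fun u v => by
      change s.1 (t.1 (u + v)) = s.1 (t.1 u) + s.1 (t.1 v)
      rw [t.2.1, s.2.1],
    fun r u => by
      change s.1 (t.1 (r • u)) = r • s.1 (t.1 u)
      rw [t.2.2.1, s.2.2.1], fun w => by
      change s.1 (t.1 (x w)) = x w
      rw [t.2.2.2, s.2.2.2]⟩
  mul_assoc s t r := rfl

theorem cont (t : EndFix H x) : Continuous (fun s : EndFix H x => s * t) := by
  refine Continuous.subtype_mk ?_ _
  refine continuous_pi fun h => ?_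
  exact (continuous_apply (t.1 h)).comp continuous_subtype_val

instance : Nonempty (EndFix H x) := ⟨⟨id, fun _ _ => rfl, fun _ _ => rfl, fun _ => rfl⟩⟩

/-- view as linear map -/
def toLin (s : EndFix H x) : H →ₗ[R] H where
  toFun := s.1
  map_add' := s.2.1
  map_smul' := s.2.2.1

/-- from linear map -/
def ofLin (f : H →ₗ[R] H) (hf : f ∘ₗ x = x) : EndFix H x :=
  ⟨f, map_add f, map_smul f, fun w => LinearMap.congr_fun hf w⟩

end EndFix

theorem exists_min_idem {b : ℕ} (x : (Fin b → R) →ₗ[R] H) :
    ∃ e : H →ₗ[R] H, e ∘ₗ e = e ∧ e ∘ₗ x = x ∧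
      ∀ ρ : H →ₗ[R] H, ρ ∘ₗ x = x → ρ ∘ₗ e = ρ → ∃ t : H →ₗ[R] H, t ∘ₗ ρ = e := by
  let S : Set (Set (EndFix H x)) :=
    {L | IsClosed L ∧ L.Nonempty ∧ ∀ t, ∀ s ∈ L, t * s ∈ L}
  have hmin : ∃ L', Minimal (· ∈ S) L' := by
    refine zorn_superset _ fun c hcs hc => ?_
    refine ⟨⋂₀ c, ⟨isClosed_sInter fun t ht => (hcs ht).1, ?_, fun t s hs => ?_⟩, fun s hs =>
      Set.sInter_subset_of_mem hs⟩
    · obtain rfl | hcnemp := c.eq_empty_or_nonempty
      · rw [Set.sInter_empty]
        exact Set.univ_nonempty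
      · rw [Set.sInter_eq_iInter]
        haveI := hcnemp.coe_sort
        refine IsCompact.nonempty_iInter_of_directed_nonempty_isCompact_isClosed
          ((↑) : c → Set (EndFix H x)) ?_ ?_ ?_ ?_
        · exact DirectedOn.directed_val (IsChain.directedOn hc.symm)
        · exact fun i => (hcs i.prop).2.1
        · exact fun i => (hcs i.prop).1.isCompact
        · exact fun i => (hcs i.prop).1
    · rw [Set.mem_sInter] at hs ⊢
      exact fun L hL => (hcs hL).2.2 t s (hs L hL)
  obtain ⟨L, hL⟩ := hmin
  obtain ⟨hLc, hLn, hLi⟩ := hL.prop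
  obtain ⟨e, heL, hee⟩ := exists_idempotent_in_compact_subsemigroup (EndFix.cont x) L hLn
    hLc.isCompact (fun s _ t ht => hLi s t ht)
  have hgen : ∀ ρ ∈ L, (fun s : EndFix H x => s * ρ) '' Set.univ = L := by
    intro ρ hρ
    apply hL.eq_of_subset
    · refine ⟨(EndFix.cont x ρ).isClosedMap _ isClosed_univ, Set.univ_nonempty.image _, ?_⟩
      rintro t _ ⟨s, -, rfl⟩
      exact ⟨t * s, Set.mem_univ _, mul_assoc _ _ _⟩
    · rintro _ ⟨s, -, rfl⟩
      exact hLi s ρ hρ
  refine ⟨EndFix.toLin x e, ?_, ?_, ?_⟩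
  · apply LinearMap.ext
    intro h
    exact congrFun (congrArg Subtype.val hee) h
  · apply LinearMap.ext
    intro w
    exact e.2.2.2 w
  · intro ρ hρx hρe
    let ρ' : EndFix H x := EndFix.ofLin x ρ hρx
    have h1 : ρ' * e = ρ' := by
      apply Subtype.ext
      funext h
      exact LinearMap.congr_fun hρe h
    have h2 : ρ' ∈ L := by
      rw [← h1]
      exact hLi _ _ heL
    have h3 : e ∈ (fun s : EndFix H x => s * ρ') '' Set.univ := by
      rw [hgen ρ' h2]; exact heL
    obtain ⟨t, -, ht⟩ := h3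
    refine ⟨EndFix.toLin x t, ?_⟩
    apply LinearMap.ext
    intro h
    exact congrFun (congrArg Subtype.val ht) h

end compact

end Pool.Agent.Helper173
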