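import Mathlib
import Pool.Agent.Helper173.Compact

set_option autoImplicit false
universe u v w

namespace Pool.Agent.Helper173

open Filter Topology

variable {R : Type u} [Ring R]

/-- indecomposable pure-injective -/
def IsZg (R : Type u) [Ring R] (N : Type u) [AddCommGroup N] [Module R N] : Prop :=
  Nontrivial N ∧ (∀ A B : Submodule R N, IsCompl A B → A = ⊥ ∨ B = ⊥) ∧
       ∀ (I : Type u), ∃ g : (I → N) →ₗ[R] N,
         ∀ x : I →₀ N, g ⇑x = x.sum (fun _ m => m)

/-- the definable class given by a set of pp pairs -/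
def InD (Φ : Set (PPPair R)) (M : Type u) [AddCommGroup M] [Module R M] : Prop :=
  ∀ p ∈ Φ, p.Holds M

/-- pp type -/
def tp {b : ℕ} {M : Type u} [AddCommGroup M] [Module R M] (x : (Fin b → R) →ₗ[R] M) :
    Set (PPF R b) := {φ | Sat φ x}

theorem sat_pi_iff {b : ℕ} {ι : Type u} {l : Filter ι} {M : ι → Type u}
    [∀ i, AddCommGroup (M i)] [∀ i, Module R (M i)] (φ : PPF R b)
    (x : ∀ i, (Fin b → R) →ₗ[R] M i) :
    Sat φ ((rpSub R l M).mkQ ∘ₗ LinearMap.pi x) ↔ ∀ᶠ i in l, Sat φ (x i) := by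
  rw [sat_rp_iff]
  rfl

/-- the set of types that are considered -/
def typeSet {b : ℕ} (Φ : Set (PPPair R)) (A B : ℕ → PPF R b) : Set (Set (PPF R b)) :=
  {p | ∃ (M : Type u) (_ : AddCommGroup M) (_ : Module R M), InD Φ M ∧
    ∃ x : (Fin b → R) →ₗ[R] M, tp x = p ∧ ∀ n, A n ∈ p ∧ B n ∉ p}

theorem typeSet_nonempty {b : ℕ} (Φ : Set (PPPair R)) (A B : ℕ → PPF R b)
    (hA : ∀ n (M : Type u) [AddCommGroup M] [Module R M] (x : (Fin b → R) →ₗ[R] M),
      Sat (A (n + 1)) x → Sat (A n) x)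
    (hB : ∀ n (M : Type u) [AddCommGroup M] [Module R M] (x : (Fin b → R) →ₗ[R] M),
      Sat (B n) x → Sat (B (n + 1)) x)
    (hex : ∀ n, ∃ (M : Type u) (_ : AddCommGroup M) (_ : Module R M), InD Φ M ∧
      ∃ x : (Fin b → R) →ₗ[R] M, Sat (A n) x ∧ ¬ Sat (B n) x) :
    (typeSet Φ A B).Nonempty := by
  choose M i1 i2 hM x hx using hex
  have hA' : ∀ n m, n ≤ m → ∀ (M : Type u) [AddCommGroup M] [Module R M]
      (x : (Fin b → R) →ₗ[R] M), Sat (A m) x → Sat (A n) x := by
    intro n m hnm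
    induction hnm with
    | refl => intro M _ _ x h; exact h
    | step _ ih => intro M _ _ x h; exact ih M x (hA _ M x h)
  have hB' : ∀ n m, n ≤ m → ∀ (M : Type u) [AddCommGroup M] [Module R M]
      (x : (Fin b → R) →ₗ[R] M), Sat (B n) x → Sat (B m) x := by
    intro n m hnm
    induction hnm with
    | refl => intro M _ _ x h; exact h
    | step _ ih => intro M _ _ x h; exact hB _ M x (ih M x h)
  let l : Filter (ULift.{u} ℕ) := Filter.map ULift.up atTop
  let M' : ULift.{u} ℕ → Type u := fun n => M n.down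
  let x' : ∀ n : ULift.{u} ℕ, (Fin b → R) →ₗ[R] M' n := fun n => x n.down
  refine ⟨tp ((rpSub R l M').mkQ ∘ₗ LinearMap.pi x'), RP R l M', inferInstance, inferInstance,
    fun p hp => PPPair.Holds.rp fun i => hM i.down p hp, _, rfl, ?_⟩
  intro n
  constructor
  · change Sat _ _
    rw [sat_pi_iff]
    change ∀ᶠ m in atTop, Sat (A n) (x m)
    filter_upwards [eventually_ge_atTop n] with m hm
    exact hA' n m hm _ _ (hx m).1
  · change ¬ Sat _ _
    rw [sat_pi_iff]
    intro h
    have h' : ∀ᶠ m in atTop, Sat (B n) (x m) := h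
    obtain ⟨m, hm1, hm2⟩ := (h'.and (eventually_ge_atTop n)).exists
    exact (hx m).2 (hB' n m hm2 _ _ hm1)

theorem typeSet_chain {b : ℕ} (Φ : Set (PPPair R)) (A B : ℕ → PPF R b)
    (c : Set (Set (PPF R b))) (hc : c ⊆ typeSet Φ A B) (hch : IsChain (· ⊆ ·) c)
    (hne : c.Nonempty) : ∃ ub ∈ typeSet Φ A B, ∀ s ∈ c, s ⊆ ub := by
  have hc' : ∀ p : c, ∃ (M : Type u) (_ : AddCommGroup M) (_ : Module R M), InD Φ M ∧
    ∃ x : (Fin b → R) →ₗ[R] M, tp x = p.1 ∧ ∀ n, A n ∈ p.1 ∧ B n ∉ p.1 := fun p => hc p.2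
  choose M i1 i2 hM x hx1 hx2 using hc'
  have : Nonempty c := hne.coe_sort
  have : IsDirectedOrder c := ⟨fun p q => by
    rcases hch.total p.2 q.2 with h | h
    · exact ⟨q, h, le_rfl⟩
    · exact ⟨p, le_rfl, h⟩⟩
  have htp : tp ((rpSub R atTop M).mkQ ∘ₗ LinearMap.pi x) = ⋃₀ c := by
    ext φ
    change Sat _ _ ↔ _
    rw [sat_pi_iff, eventually_atTop]
    constructor
    · rintro ⟨p, hp⟩
      refine ⟨p.1, p.2, ?_⟩
      rw [← hx1 p]
      exact hp p le_rfl
    · rintro ⟨p, hp, hφ⟩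
      refine ⟨⟨p, hp⟩, fun q hq => ?_⟩
      have : φ ∈ q.1 := hq hφ
      rw [← hx1 q] at this
      exact this
  refine ⟨⋃₀ c, ⟨RP R atTop M, inferInstance, inferInstance,
    fun p hp => PPPair.Holds.rp fun i => hM i p hp, _, htp, fun n => ⟨?_, ?_⟩⟩,
    fun s hs => Set.subset_sUnion_of_mem hs⟩
  · obtain ⟨p, hp⟩ := hne
    exact ⟨p, hp, (hx2 ⟨p, hp⟩ n).1⟩
  · rintro ⟨p, hp, h⟩
    exact (hx2 ⟨p, hp⟩ n).2 h

/-- Existence of an indecomposable pure-injective module in the definable class realising all the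
`A n` and omitting all the `B n`. -/
theorem hull {b : ℕ} (Φ : Set (PPPair R)) (A B : ℕ → PPF R b)
    (hA : ∀ n (M : Type u) [AddCommGroup M] [Module R M] (x : (Fin b → R) →ₗ[R] M),
      Sat (A (n + 1)) x → Sat (A n) x)
    (hB : ∀ n (M : Type u) [AddCommGroup M] [Module R M] (x : (Fin b → R) →ₗ[R] M),
      Sat (B n) x → Sat (B (n + 1)) x)
    (hex : ∀ n, ∃ (M : Type u) (_ : AddCommGroup M) (_ : Module R M), InD Φ M ∧
      ∃ x : (Fin b → R) →ₗ[R] M, Sat (A n) x ∧ ¬ Sat (B n) x) :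
    ∃ (N : Type u) (_ : AddCommGroup N) (_ : Module R N), IsZg R N ∧ InD Φ N ∧
      ∃ x : (Fin b → R) →ₗ[R] N, ∀ n, Sat (A n) x ∧ ¬ Sat (B n) x := by
  have hB' : ∀ n m, n ≤ m → ∀ (M : Type u) [AddCommGroup M] [Module R M]
      (x : (Fin b → R) →ₗ[R] M), Sat (B n) x → Sat (B m) x := by
    intro n m hnm
    induction hnm with
    | refl => intro M _ _ x h; exact h
    | step _ ih => intro M _ _ x h; exact hB _ M x (ih M x h)
  obtain ⟨p₀, hp₀⟩ := typeSet_nonempty Φ A B hA hB hex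
  obtain ⟨p, -, hp⟩ := zorn_subset_nonempty (typeSet Φ A B)
    (fun c hc hch hne => typeSet_chain Φ A B c hc hch hne) p₀ hp₀
  obtain ⟨M, i1, i2, hM, x, hxp, hpAB⟩ := hp.prop
  -- compact module
  let a : (Fin b → R) →ₗ[R] DD M := (DD.ι R M) ∘ₗ x
  have hDD : InD Φ (DD M) := fun q hq => (hM q hq).dd
  have ha : ∀ φ : PPF R b, Sat φ a ↔ φ ∈ p := by
    intro φ
    rw [← hxp]
    exact sat_ι_iff φ x
  obtain ⟨e, hee, hea, hmin⟩ := exists_min_idem (R := R) (H := DD M) a
  let N : Submodule R (DD M) := LinearMap.range e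
  let r : DD M →ₗ[R] N := e.rangeRestrict
  let i : N →ₗ[R] DD M := N.subtype
  have hir : ∀ h, i (r h) = e h := fun h => rfl
  have heN : ∀ y : N, e (i y) = i y := by
    rintro ⟨_, z, rfl⟩
    exact LinearMap.congr_fun hee z
  have hri : r ∘ₗ i = LinearMap.id := by
    apply LinearMap.ext
    intro y
    apply Subtype.ext
    exact heN y
  have hND : InD Φ N := fun q hq => (hDD q hq).retract i r hri
  let aN : (Fin b → R) →ₗ[R] N := r ∘ₗ a
  have hiaN : i ∘ₗ aN = a := by
    apply LinearMap.ext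
    intro w
    exact LinearMap.congr_fun hea w
  have haN : ∀ φ : PPF R b, Sat φ aN ↔ φ ∈ p := by
    intro φ
    rw [← ha φ]
    constructor
    · intro h
      have := h.comp i
      rwa [hiaN] at this
    · intro h
      exact h.comp r
  refine ⟨N, inferInstance, inferInstance, ⟨?_, ?_, ?_⟩, hND, aN, fun n => ?_⟩
  · by_contra hnt
    rw [not_nontrivial_iff_subsingleton] at hnt
    have h0 : aN = 0 := by
      apply LinearMap.ext
      intro w
      exact Subsingleton.elim _ _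
    have : Sat (B 0) aN := by rw [h0]; exact Sat.zero _
    rw [haN] at this
    exact (hpAB 0).2 this
  · -- one of the two components has the same type
    have main : ∀ A' B' : Submodule R N, ∀ (hAB : IsCompl A' B'),
        (∀ n, ¬ Sat (B n) ((A'.subtype ∘ₗ (Submodule.projectionOnto A' B' hAB)) ∘ₗ aN)) →
        B' = ⊥ := by
      intro A' B' hAB hn
      set π : N →ₗ[R] N := A'.subtype ∘ₗ (Submodule.projectionOnto A' B' hAB) with hπ
      have hmem : tp (π ∘ₗ aN) ∈ typeSet Φ A B := by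
        refine ⟨N, inferInstance, inferInstance, hND, π ∘ₗ aN, rfl, fun n => ⟨?_, hn n⟩⟩
        exact Sat.comp ((haN (A n)).2 (hpAB n).1) π
      have hle : p ≤ tp (π ∘ₗ aN) := fun φ hφ => Sat.comp ((haN φ).2 hφ) π
      have hge : tp (π ∘ₗ aN) ≤ p := hp.le_of_ge hmem hle
      obtain ⟨θ, hθ⟩ := exists_hom_of_type (R := R) (H := DD M) (π ∘ₗ aN) a (fun φ hφ => by
        rw [ha]; exact hge hφ)
      obtain ⟨t, ht⟩ := hmin (θ ∘ₗ π ∘ₗ r) (by
        apply LinearMap.ext
        intro w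
        exact LinearMap.congr_fun hθ w) (by
        apply LinearMap.ext
        intro h
        have : r (e h) = r h := by
          apply Subtype.ext
          exact LinearMap.congr_fun hee h
        simp only [LinearMap.comp_apply, this])
      rw [eq_bot_iff]
      intro y hy
      have h1 : π y = 0 := by
        rw [hπ, LinearMap.comp_apply, (Submodule.projectionOnto_apply_eq_zero_iff hAB).2 hy,
          map_zero]
      have h2 : r (i y) = y := LinearMap.congr_fun hri y
      have h3 := LinearMap.congr_fun ht (i y)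
      simp only [LinearMap.comp_apply] at h3
      rw [h2, h1, map_zero, map_zero, heN] at h3
      rw [Submodule.mem_bot]
      apply Subtype.ext
      exact h3.symm
    intro A' B' hAB
    by_cases h1 : ∀ n, ¬ Sat (B n) ((A'.subtype ∘ₗ (Submodule.projectionOnto A' B' hAB)) ∘ₗ aN)
    · exact Or.inr (main A' B' hAB h1)
    by_cases h2 : ∀ n, ¬ Sat (B n)
        ((B'.subtype ∘ₗ (Submodule.projectionOnto B' A' hAB.symm)) ∘ₗ aN)
    · exact Or.inl (main B' A' hAB.symm h2)
    exfalso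
    push Not at h1 h2
    obtain ⟨n, hn⟩ := h1
    obtain ⟨m, hm⟩ := h2
    have h3 := (hB' n (max n m) (le_max_left _ _) _ _ hn).add
      (hB' m (max n m) (le_max_right _ _) _ _ hm)
    have h4 : (A'.subtype ∘ₗ (Submodule.projectionOnto A' B' hAB)) ∘ₗ aN +
        (B'.subtype ∘ₗ (Submodule.projectionOnto B' A' hAB.symm)) ∘ₗ aN = aN := by
      apply LinearMap.ext
      intro w
      simp only [LinearMap.add_apply, LinearMap.comp_apply]
      exact Submodule.projection_add_projection_eq_self hAB (aN w)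
    rw [h4, haN] at h3
    exact (hpAB _).2 h3
  · intro I
    obtain ⟨g, hg⟩ := exists_sum_extension (R := R) (H := DD M) I
    refine ⟨r ∘ₗ g ∘ₗ (i.compLeft I), fun x => ?_⟩
    have h1 : (i.compLeft I) ⇑x = ⇑(x.mapRange i (map_zero i)) := by
      ext j
      rfl
    simp only [LinearMap.comp_apply]
    rw [h1, hg, Finsupp.sum_mapRange_index (by simp)]
    rw [Finsupp.sum, Finsupp.sum, ← map_sum]
    exact LinearMap.congr_fun hri _
  · rw [haN, haN]
    exact hpAB n

end Pool.Agent.Helper173
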