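import Mathlib
import Pool.Agent.Helper173.Hull

set_option autoImplicit false
universe u v w

namespace Pool.Agent.Helper173

variable {R : Type u} [Ring R]

section FF

instance ffSelf : FF R R := ⟨1, ⟨(LinearEquiv.funUnique (Fin 1) R R).symm⟩⟩

instance ffPUnit : FF R PUnit.{u + 1} := ⟨0, ⟨{
  toFun := fun _ => 0
  map_add' := by simp
  map_smul' := by simp
  invFun := fun _ => PUnit.unit
  left_inv := fun _ => rfl
  right_inv := fun _ => Subsingleton.elim _ _ }⟩⟩

instance ffProd {U V : Type u} [AddCommGroup U] [Module R U] [AddCommGroup V] [Module R V]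
    [hU : FF R U] [hV : FF R V] : FF R (U × V) := by
  obtain ⟨m, ⟨e⟩⟩ := hU.ex
  obtain ⟨k, ⟨f⟩⟩ := hV.ex
  obtain ⟨n, ⟨g⟩⟩ := (inferInstance : FF R ((Fin m ⊕ Fin k) → R)).ex
  exact ⟨n, ⟨(e.prodCongr f).trans
    ((LinearEquiv.sumArrowLequivProdArrow (Fin m) (Fin k) R R).symm.trans g)⟩⟩

theorem ffPi {σ : Type u} [Finite σ] (U : σ → Type u) [∀ s, AddCommGroup (U s)]
    [∀ s, Module R (U s)] [hU : ∀ s, FF R (U s)] : FF R (∀ s, U s) := by
  have : ∀ s, ∃ n : ℕ, Nonempty (U s ≃ₗ[R] (Fin n → R)) := fun s => (hU s).ex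
  choose n e using this
  obtain ⟨k, ⟨g⟩⟩ := (inferInstance : FF R ((Σ s, Fin (n s)) → R)).ex
  let f2 : (∀ s, Fin (n s) → R) ≃ₗ[R] ((Σ s, Fin (n s)) → R) := {
    toFun := fun f p => f p.1 p.2
    map_add' := fun _ _ => rfl
    map_smul' := fun _ _ => rfl
    invFun := fun f s i => f ⟨s, i⟩
    left_inv := fun _ => rfl
    right_inv := fun _ => rfl }
  exact ⟨k, ⟨((LinearEquiv.piCongrRight fun s => (e s).some).trans f2).trans g⟩⟩

theorem FF.proj (U : Type u) [AddCommGroup U] [Module R U] [hU : FF R U] :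
    Module.Projective R U := by
  obtain ⟨m, ⟨e⟩⟩ := hU.ex
  exact Module.Projective.of_equiv e.symm

theorem FF.lift {U : Type u} [AddCommGroup U] [Module R U] [hU : FF R U] {X Y : Type u}
    [AddCommGroup X] [Module R X] [AddCommGroup Y] [Module R Y] (f : X →ₗ[R] Y)
    (hf : Function.Surjective f) (x : U →ₗ[R] Y) : ∃ x' : U →ₗ[R] X, f ∘ₗ x' = x := by
  have := FF.proj (R := R) U
  exact Module.projective_lifting_property f x hf

end FF

/-- A cochain complex of finitely generated free left modules starting with `R`, whose dual is a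
free resolution of the cyclic right module `R / I`. -/
structure Cpx (R : Type u) [Ring R] where
  G : ℕ → Type u
  [ag : ∀ n, AddCommGroup (G n)]
  [md : ∀ n, Module R (G n)]
  [ff : ∀ n, FF R (G n)]
  δ : ∀ n, G n →ₗ[R] G (n + 1)
  comp : ∀ n, δ (n + 1) ∘ₗ δ n = 0
  exact : ∀ n (x : G (n + 1) →ₗ[R] R), x ∘ₗ δ n = 0 → ∃ y : G (n + 2) →ₗ[R] R, x = y ∘ₗ δ (n + 1)
  e0 : R ≃ₗ[R] G 0

attribute [instance] Cpx.ag Cpx.md Cpx.ff

namespace Cpx

variable (K : Cpx R)

/-- generator -/
def gen : K.G 1 := K.δ 0 (K.e0 1)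

/-- the right ideal resolved by `K` -/
def I : Submodule Rᵐᵒᵖ R where
  carrier := {r | ∃ u : K.G 1 →ₗ[R] R, u K.gen = r}
  zero_mem' := ⟨0, rfl⟩
  add_mem' := by
    rintro _ _ ⟨u, rfl⟩ ⟨v, rfl⟩
    exact ⟨u + v, rfl⟩
  smul_mem' := by
    rintro c _ ⟨u, rfl⟩
    exact ⟨(LinearMap.toSpanSingleton R R c.unop) ∘ₗ u, rfl⟩

theorem mem_I {r : R} : r ∈ K.I ↔ ∃ u : K.G 1 →ₗ[R] R, u K.gen = r := Iff.rfl

/-- vanishing of the `(n+1)`-st torsion group -/
def Van (n : ℕ) (M : Type u) [AddCommGroup M] [Module R M] : Prop :=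
  ∀ x : K.G (n + 1) →ₗ[R] M, x ∘ₗ K.δ n = 0 → ∃ y : K.G (n + 2) →ₗ[R] M, x = y ∘ₗ K.δ (n + 1)

theorem van_finsupp (n : ℕ) (J : Type u) : K.Van n (J →₀ R) := by
  classical
  intro x hx
  obtain ⟨k, ⟨e⟩⟩ := (K.ff (n + 1)).ex
  -- finite support
  let S : Finset J := Finset.univ.biUnion fun i : Fin k => (x (e.symm (Pi.single i 1))).support
  have hS : ∀ j, j ∉ S → (Finsupp.lapply j : (J →₀ R) →ₗ[R] R) ∘ₗ x = 0 := by
    intro j hj
    have h1 : ((Finsupp.lapply j : (J →₀ R) →ₗ[R] R) ∘ₗ x) ∘ₗ e.symm.toLinearMap = 0 := by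
      apply LinearMap.pi_ext'
      intro i
      apply LinearMap.ext_ring
      by_contra hne
      apply hj
      refine Finset.mem_biUnion.2 ⟨i, Finset.mem_univ _, ?_⟩
      rw [Finsupp.mem_support_iff]
      exact hne
    apply LinearMap.ext
    intro g
    have := LinearMap.congr_fun h1 (e g)
    simpa using this
  have h2 : ∀ j : J, ∃ y : K.G (n + 2) →ₗ[R] R,
      (Finsupp.lapply j : (J →₀ R) →ₗ[R] R) ∘ₗ x = y ∘ₗ K.δ (n + 1) := by
    intro j
    apply K.exact
    rw [LinearMap.comp_assoc, hx, LinearMap.comp_zero]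
  choose y hy using h2
  refine ⟨∑ j ∈ S, (Finsupp.lsingle j : R →ₗ[R] (J →₀ R)) ∘ₗ y j, ?_⟩
  apply LinearMap.ext
  intro g
  ext j
  simp only [LinearMap.comp_apply, LinearMap.sum_apply, Finsupp.coe_finsetSum, Finset.sum_apply]
  have h3 : ∀ j' : J, y j' (K.δ (n + 1) g) = x g j' := fun j' =>
    (LinearMap.congr_fun (hy j') g).symm
  simp only [h3, Finsupp.lsingle_apply, Finsupp.single_apply]
  by_cases hj : j ∈ S
  · rw [Finset.sum_eq_single j]
    · simp
    · intro j' _ hne; simp [hne]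
    · intro h; exact absurd hj h
  · rw [Finset.sum_eq_zero]
    · exact LinearMap.congr_fun (hS j hj) g
    · intro j' hj'
      have : j' ≠ j := fun h => hj (h ▸ hj')
      simp [this]

theorem van_projective (n : ℕ) (P : Type u) [AddCommGroup P] [Module R P]
    [hP : Module.Projective R P] : K.Van n P := by
  obtain ⟨s, hs⟩ := hP.out
  intro x hx
  obtain ⟨y, hy⟩ := K.van_finsupp n P (s ∘ₗ x) (by
    rw [LinearMap.comp_assoc, hx, LinearMap.comp_zero])
  refine ⟨(Finsupp.linearCombination R id) ∘ₗ y, ?_⟩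
  apply LinearMap.ext
  intro g
  have := LinearMap.congr_fun hy g
  simp only [LinearMap.comp_apply] at this ⊢
  rw [← this]
  exact (hs (x g)).symm

/-- dimension shift, first direction -/
theorem van_of_ker (n : ℕ) {P M : Type u} [AddCommGroup P] [Module R P] [AddCommGroup M]
    [Module R M] [Module.Projective R P] (π : P →ₗ[R] M) (hπ : Function.Surjective π)
    (h : K.Van n (LinearMap.ker π)) : K.Van (n + 1) M := by
  intro x hx
  obtain ⟨x', rfl⟩ := FF.lift π hπ x
  -- x' ∘ δ lands in the kernel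
  let v : K.G (n + 1) →ₗ[R] LinearMap.ker π :=
    LinearMap.codRestrict _ (x' ∘ₗ K.δ (n + 1)) (fun g => LinearMap.congr_fun hx g)
  obtain ⟨w, hw⟩ := h v (by
    apply LinearMap.ext
    intro g
    apply Subtype.ext
    change x' (K.δ (n + 1) (K.δ n g)) = 0
    have : K.δ (n + 1) (K.δ n g) = 0 := LinearMap.congr_fun (K.comp n) g
    rw [this, map_zero])
  obtain ⟨y, hy⟩ := K.van_projective (n + 1) P (x' - (LinearMap.ker π).subtype ∘ₗ w) (by
    apply LinearMap.ext
    intro g
    have := congrArg Subtype.val (LinearMap.congr_fun hw g)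
    change x' (K.δ (n + 1) g) = ((w (K.δ (n + 1) g)).1 : P) at this
    simp only [LinearMap.comp_apply, LinearMap.sub_apply, Submodule.subtype_apply,
      LinearMap.zero_apply]
    rw [this, sub_self])
  refine ⟨π ∘ₗ y, ?_⟩
  rw [LinearMap.comp_assoc, ← hy]
  apply LinearMap.ext
  intro g
  simp

/-- dimension shift, second direction -/
theorem ker_van (n : ℕ) {P M : Type u} [AddCommGroup P] [Module R P] [AddCommGroup M]
    [Module R M] [Module.Projective R P] (π : P →ₗ[R] M) (hπ : Function.Surjective π)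
    (h : K.Van (n + 1) M) : K.Van n (LinearMap.ker π) := by
  intro x hx
  obtain ⟨y, hy⟩ := K.van_projective n P ((LinearMap.ker π).subtype ∘ₗ x) (by
    rw [LinearMap.comp_assoc, hx, LinearMap.comp_zero])
  obtain ⟨w, hw⟩ := h (π ∘ₗ y) (by
    rw [LinearMap.comp_assoc, ← hy]
    apply LinearMap.ext
    intro g
    exact (x g).2)
  obtain ⟨w', rfl⟩ := FF.lift π hπ w
  refine ⟨LinearMap.codRestrict _ (y - w' ∘ₗ K.δ (n + 2)) (fun g => ?_), ?_⟩
  · rw [LinearMap.mem_ker]
    have := LinearMap.congr_fun hw g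
    simp only [LinearMap.comp_apply] at this
    simp only [LinearMap.sub_apply, LinearMap.comp_apply, map_sub]
    rw [this, sub_self]
  · apply LinearMap.ext
    intro g
    apply Subtype.ext
    have h1 := LinearMap.congr_fun hy g
    simp only [LinearMap.comp_apply, Submodule.subtype_apply] at h1
    have h2 : K.δ (n + 2) (K.δ (n + 1) g) = 0 := LinearMap.congr_fun (K.comp (n + 1)) g
    simp only [LinearMap.comp_apply, LinearMap.codRestrict_apply, LinearMap.sub_apply]
    rw [h2, map_zero, sub_zero]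
    exact h1

end Cpx

/-- projective dimension at most `n` -/
def pdLE (R : Type u) [Ring R] : ℕ → ∀ (M : Type u) [AddCommGroup M] [Module R M], Prop
  | 0, M, _, _ => Module.Projective R M
  | n + 1, M, _, _ => ∃ (P : Type u) (_ : AddCommGroup P) (_ : Module R P) (π : P →ₗ[R] M),
      Module.Projective R P ∧ Function.Surjective π ∧ pdLE R n (LinearMap.ker π)

theorem van_of_pdLE (K : Cpx R) (n : ℕ) : ∀ (M : Type u) [AddCommGroup M] [Module R M],
    pdLE R n M → ∀ m, n ≤ m → K.Van m M := by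
  induction n with
  | zero =>
    intro M _ _ h m _
    have : Module.Projective R M := h
    exact K.van_projective m M
  | succ n ih =>
    intro M _ _ h m hm
    obtain ⟨P, i1, i2, π, hP, hπ, hk⟩ := h
    obtain ⟨m, rfl⟩ : ∃ m', m = m' + 1 := ⟨m - 1, by omega⟩
    exact K.van_of_ker m π hπ (ih _ hk m (by omega))

end Pool.Agent.Helper173
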