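import Mathlib
import Pool.Agent.Helper173.Cplx

set_option autoImplicit false
universe u v w

namespace Pool.Agent.Helper173

variable {R : Type u} [Ring R]

/-- right ideals -/
abbrev RI (R : Type u) [Ring R] := Submodule Rᵐᵒᵖ R

theorem RI.mul_mem (C : RI R) {a : R} (ha : a ∈ C) (r : R) : a * r ∈ C :=
  C.smul_mem (MulOpposite.op r) ha

theorem right_artinian (h : IsArtinianRing Rᵐᵒᵖ) : IsArtinian Rᵐᵒᵖ R := by
  let e : R ≃ₗ[Rᵐᵒᵖ] Rᵐᵒᵖ := {
    toFun := MulOpposite.op
    map_add' := fun _ _ => rfl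
    map_smul' := fun _ _ => rfl
    invFun := MulOpposite.unop
    left_inv := fun _ => rfl
    right_inv := fun _ => rfl }
  exact isArtinian_of_linearEquiv e.symm

theorem right_noetherian (h : IsArtinianRing Rᵐᵒᵖ) : IsNoetherian Rᵐᵒᵖ R := by
  let e : R ≃ₗ[Rᵐᵒᵖ] Rᵐᵒᵖ := {
    toFun := MulOpposite.op
    map_add' := fun _ _ => rfl
    map_smul' := fun _ _ => rfl
    invFun := MulOpposite.unop
    left_inv := fun _ => rfl
    right_inv := fun _ => rfl }
  have : IsNoetherianRing Rᵐᵒᵖ := inferInstance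
  exact isNoetherian_of_linearEquiv e.symm

/-- colon right ideal -/
def colon (C : RI R) (c : R) : RI R where
  carrier := {r | c * r ∈ C}
  zero_mem' := by simp
  add_mem' := by
    intro a b ha hb
    change c * (a + b) ∈ C
    rw [mul_add]
    exact C.add_mem ha hb
  smul_mem' := by
    intro r a ha
    change c * (a * r.unop) ∈ C
    rw [← mul_assoc]
    exact RI.mul_mem C ha _

theorem mem_colon {C : RI R} {c r : R} : r ∈ colon C c ↔ c * r ∈ C := Iff.rfl

theorem covBy_gen {C C' : RI R} (h : C ⋖ C') {c : R} (hc : c ∈ C') (hc' : c ∉ C) :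
    ∀ y ∈ C', ∃ r, y - c * r ∈ C := by
  have h1 : C ⊔ Submodule.span Rᵐᵒᵖ {c} = C' := by
    rcases h.eq_or_eq (le_sup_left : C ≤ C ⊔ Submodule.span Rᵐᵒᵖ {c})
      (sup_le h.le (by rw [Submodule.span_le]; simpa using hc)) with h2 | h2
    · exfalso
      apply hc'
      rw [← h2]
      exact Submodule.mem_sup_right (Submodule.mem_span_singleton_self c)
    · exact h2
  intro y hy
  rw [← h1, Submodule.mem_sup] at hy
  obtain ⟨a, ha, z, hz, rfl⟩ := hy
  obtain ⟨r, rfl⟩ := Submodule.mem_span_singleton.1 hz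
  refine ⟨r.unop, ?_⟩
  have : r • c = c * r.unop := rfl
  rw [this, add_sub_cancel_right]
  exact ha

theorem colon_max {C C' : RI R} (h : C ⋖ C') {c : R} (hc : c ∈ C') {𝔫 : RI R}
    (hle : colon C c ≤ 𝔫) (h1 : (1 : R) ∉ 𝔫) : 𝔫 = colon C c := by
  refine le_antisymm ?_ hle
  intro x hx
  by_contra hxc
  obtain ⟨r, hr⟩ := covBy_gen h (RI.mul_mem C' hc x) hxc c hc
  have h2 : 1 - x * r ∈ 𝔫 := by
    apply hle
    rw [mem_colon, mul_sub, mul_one, ← mul_assoc]
    exact hr
  apply h1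
  have h3 := 𝔫.add_mem h2 (RI.mul_mem 𝔫 hx r)
  simpa using h3

theorem exists_simple_family (h : IsArtinianRing Rᵐᵒᵖ) :
    ∃ S : Set (RI R), S.Finite ∧ ∀ C C' : RI R, C ⋖ C' → ∃ 𝔪 ∈ S, ∃ c ∈ C',
      (∀ r, c * r ∈ C ↔ r ∈ 𝔪) ∧ (∀ y ∈ C', ∃ r, y - c * r ∈ C) := by
  have hart := right_artinian h
  have hnoe := right_noetherian h
  have key : ∀ D : RI R, ∃ S : Set (RI R), S.Finite ∧ ∀ C C' : RI R, C ⋖ C' → ∀ c₀ ∈ C', c₀ ∉ C →
      ¬ D ≤ colon C c₀ → ∃ c ∈ C', c ∉ C ∧ colon C c ∈ S := by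
    intro D
    induction D using WellFoundedLT.induction with
    | ind D ih =>
      by_cases hD : IsMin D
      · refine ⟨∅, Set.finite_empty, ?_⟩
        intro C C' _ c₀ _ _ hn
        exact absurd (hD.eq_bot ▸ bot_le) hn
      · obtain ⟨D₀, hD₀⟩ := exists_covBy_of_wellFoundedGT hD
        obtain ⟨S, hSf, hS⟩ := ih D₀ hD₀.lt
        obtain ⟨d, hd, hd'⟩ := SetLike.exists_of_lt hD₀.lt
        refine ⟨insert (colon D₀ d) S, hSf.insert _, ?_⟩
        intro C C' hCC c₀ hc₀ hc₀' hn
        by_cases h0 : D₀ ≤ colon C c₀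
        · refine ⟨c₀ * d, RI.mul_mem C' hc₀ d, ?_, ?_⟩
          · intro hmem
            apply hn
            intro y hy
            obtain ⟨r, hr⟩ := covBy_gen hD₀ hd hd' y hy
            have h2 : c₀ * (y - d * r) ∈ C := h0 hr
            have h3 : c₀ * d * r ∈ C := RI.mul_mem C hmem r
            have h4 := C.add_mem h2 h3
            rw [mem_colon]
            convert h4 using 1
            noncomm_ring
          · left
            apply colon_max hD₀ hd
            · intro r hr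
              rw [mem_colon, mul_assoc]
              exact h0 hr
            · intro h1
              rw [mem_colon, mul_one] at h1
              apply hn
              intro y hy
              obtain ⟨r, hr⟩ := covBy_gen hD₀ hd hd' y hy
              have h2 : c₀ * (y - d * r) ∈ C := h0 hr
              have h3 : c₀ * d * r ∈ C := RI.mul_mem C h1 r
              have h4 := C.add_mem h2 h3
              rw [mem_colon]
              convert h4 using 1
              noncomm_ring
        · obtain ⟨c, hc, hc', hcS⟩ := hS C C' hCC c₀ hc₀ hc₀' h0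
          exact ⟨c, hc, hc', Or.inr hcS⟩
  obtain ⟨S, hSf, hS⟩ := key ⊤
  refine ⟨S, hSf, ?_⟩
  intro C C' hCC
  obtain ⟨c₀, hc₀, hc₀'⟩ := SetLike.exists_of_lt hCC.lt
  obtain ⟨c, hc, hc', hcS⟩ := hS C C' hCC c₀ hc₀ hc₀' (by
    intro hle
    apply hc₀'
    have : c₀ * 1 ∈ C := hle (Submodule.mem_top : (1 : R) ∈ ⊤)
    rwa [mul_one] at this)
  exact ⟨colon C c, hcS, c, hc, fun r => Iff.rfl, covBy_gen hCC hc hc'⟩

end Pool.Agent.Helper173
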