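import Mathlib
import Pool.Agent.Helper173.RingTh

set_option autoImplicit false
universe u v w

namespace Pool.Agent.Helper173

variable {R : Type u} [Ring R]

theorem nak_top (J : Ideal R) {n : ℕ} (hn : J ^ n = ⊥) {M : Type u} [AddCommGroup M]
    [Module R M] (N : Submodule R M) (h : N ⊔ J • (⊤ : Submodule R M) = ⊤) : N = ⊤ := by
  have key : ∀ k : ℕ, N ⊔ (J ^ k) • (⊤ : Submodule R M) = ⊤ := by
    intro k
    induction k with
    | zero => rw [J.pow_zero, Ideal.one_eq_top]; simp
    | succ k ih =>
      rw [eq_top_iff]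
      calc (⊤ : Submodule R M) = N ⊔ (J ^ k) • (⊤ : Submodule R M) := ih.symm
        _ = N ⊔ (J ^ k) • (N ⊔ J • (⊤ : Submodule R M)) := by rw [h]
        _ ≤ N ⊔ (J ^ (k + 1)) • (⊤ : Submodule R M) := by
          rw [Submodule.smul_sup]
          refine sup_le le_sup_left (sup_le (Submodule.smul_le_right.trans le_sup_left) ?_)
          rw [← Submodule.mul_smul, ← J.pow_succ]
          exact le_sup_right
  have := key n
  rw [hn] at this
  simpa using this

theorem nak_bot (J : Ideal R) {n : ℕ} (hn : J ^ n = ⊥) {M : Type u} [AddCommGroup M]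
    [Module R M] (N : Submodule R M) (h : N ≤ J • N) : N = ⊥ := by
  have key : ∀ k : ℕ, N ≤ (J ^ k) • N := by
    intro k
    induction k with
    | zero => rw [J.pow_zero, Ideal.one_eq_top]; simp
    | succ k ih =>
      calc N ≤ (J ^ k) • N := ih
        _ ≤ (J ^ k) • (J • N) := Submodule.smul_mono le_rfl h
        _ = (J ^ (k + 1)) • N := by rw [← Submodule.mul_smul, ← J.pow_succ]
  have := key n
  rw [hn] at this
  simpa using this

theorem hstable (J : Ideal R) {X Y : Type u} [AddCommGroup X] [Module R X] [AddCommGroup Y]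
    [Module R Y] (g : X →ₗ[R] Y) :
    (J • (⊤ : Submodule R X)) ≤ (J • (⊤ : Submodule R Y)).comap g := by
  rw [← Submodule.map_le_iff_le_comap, Submodule.map_smul'']
  exact Submodule.smul_mono le_rfl le_top

/-- reduction modulo `J` as a ring hom -/
def redHom (J : Ideal R) (F : Type u) [AddCommGroup F] [Module R F] :
    Module.End R F →+* Module.End R (F ⧸ (J • (⊤ : Submodule R F))) where
  toFun g := Submodule.mapQ _ _ g (hstable J g)
  map_one' := by
    apply LinearMap.ext
    intro x
    obtain ⟨x, rfl⟩ := Submodule.mkQ_surjective _ x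
    rfl
  map_mul' := by
    intro g g'
    apply LinearMap.ext
    intro x
    obtain ⟨x, rfl⟩ := Submodule.mkQ_surjective _ x
    rfl
  map_zero' := by
    apply LinearMap.ext
    intro x
    obtain ⟨x, rfl⟩ := Submodule.mkQ_surjective _ x
    rfl
  map_add' := by
    intro g g'
    apply LinearMap.ext
    intro x
    obtain ⟨x, rfl⟩ := Submodule.mkQ_surjective _ x
    rfl

theorem redHom_apply (J : Ideal R) {F : Type u} [AddCommGroup F] [Module R F]
    (g : Module.End R F) (x : F) :
    redHom J F g (Submodule.mkQ _ x) = Submodule.mkQ _ (g x) := rfl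

theorem redHom_ker (J : Ideal R) {n : ℕ} (hn : J ^ n = ⊥) {F : Type u} [AddCommGroup F]
    [Module R F] : ∀ g ∈ RingHom.ker (redHom J F), IsNilpotent g := by
  intro g hg
  rw [RingHom.mem_ker] at hg
  have hg1 : ∀ x, g x ∈ J • (⊤ : Submodule R F) := by
    intro x
    have h1 : Submodule.mkQ (J • (⊤ : Submodule R F)) (g x) = 0 := by
      rw [← redHom_apply, hg]
      rfl
    rwa [Submodule.mkQ_apply, Submodule.Quotient.mk_eq_zero] at h1
  have hg2 : ∀ k : ℕ, ∀ x, (g ^ k) x ∈ (J ^ k) • (⊤ : Submodule R F) := by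
    intro k
    induction k with
    | zero => intro x; rw [J.pow_zero, Ideal.one_eq_top]; simp
    | succ k ih =>
      intro x
      rw [pow_succ', Module.End.mul_apply]
      have h3 : ((J ^ k) • (⊤ : Submodule R F)).map g ≤ (J ^ (k + 1)) • (⊤ : Submodule R F) := by
        rw [Submodule.map_smul'', J.pow_succ, Submodule.mul_smul]
        refine Submodule.smul_mono le_rfl ?_
        rintro _ ⟨y, -, rfl⟩
        exact hg1 y
      exact h3 ⟨_, ih x, rfl⟩
  refine ⟨n, ?_⟩
  apply LinearMap.ext
  intro x
  have := hg2 n x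
  rw [hn] at this
  simpa using this

theorem lift_idem (J : Ideal R) {n : ℕ} (hn : J ^ n = ⊥) {F : Type u} [AddCommGroup F]
    [Module R F] [Module.Projective R F] (eb : Module.End R (F ⧸ (J • (⊤ : Submodule R F))))
    (heb : ∀ x, eb (eb x) = eb x) :
    ∃ e : Module.End R F, (∀ x, e (e x) = e x) ∧
      ∀ x, Submodule.mkQ _ (e x) = eb (Submodule.mkQ _ x) := by
  obtain ⟨g₀, hg₀⟩ : ∃ g₀ : F →ₗ[R] F, Submodule.mkQ (J • (⊤ : Submodule R F)) ∘ₗ g₀ =
      eb ∘ₗ Submodule.mkQ _ :=
    Module.projective_lifting_property _ _ (Submodule.mkQ_surjective _)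
  have hrange : eb ∈ (redHom J F).range := by
    refine ⟨g₀, ?_⟩
    apply LinearMap.ext
    intro x
    obtain ⟨x, rfl⟩ := Submodule.mkQ_surjective _ x
    exact LinearMap.congr_fun hg₀ x
  have hidem : IsIdempotentElem eb := by
    apply LinearMap.ext
    intro x
    exact heb x
  obtain ⟨e, he, hΦe⟩ := exists_isIdempotentElem_eq_of_ker_isNilpotent (redHom J F)
    (redHom_ker J hn) eb hrange hidem
  refine ⟨e, fun x => LinearMap.congr_fun he x, fun x => ?_⟩
  rw [← hΦe]
  rfl

theorem exists_cover [IsArtinianRing R] (M : Type u) [AddCommGroup M] [Module R M] :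
    ∃ (P : Type u) (_ : AddCommGroup P) (_ : Module R P) (π : P →ₗ[R] M),
      Module.Projective R P ∧ Function.Surjective π ∧
      LinearMap.ker π ≤ Ring.jacobson R • (⊤ : Submodule R P) := by
  set J := Ring.jacobson R with hJ
  obtain ⟨n, hn⟩ : ∃ n, J ^ n = ⊥ := (inferInstance : IsSemiprimaryRing R).isNilpotent
  let f : (M →₀ R) →ₗ[R] M := Finsupp.linearCombination R id
  have hf : Function.Surjective f := by
    intro m
    exact ⟨Finsupp.single m 1, (Finsupp.linearCombination_single R 1 m).trans (one_smul R m)⟩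
  let fb : ((M →₀ R) ⧸ (J • (⊤ : Submodule R (M →₀ R)))) →ₗ[R]
    (M ⧸ (J • (⊤ : Submodule R M))) := Submodule.mapQ _ _ f (hstable J f)
  have hss : IsSemisimpleModule R ((M →₀ R) ⧸ (J • (⊤ : Submodule R (M →₀ R)))) := by
    have htor : Module.IsTorsionBySet R ((M →₀ R) ⧸ (J • (⊤ : Submodule R (M →₀ R)))) J := by
      rw [Module.isTorsionBySet_quotient_iff]
      intro x r hr
      exact Submodule.smul_mem_smul hr trivial
    let _ := htor.module
    exact (htor.semilinearMap.isSemisimpleModule_iff_of_bijective Function.bijective_id).2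
      inferInstance
  obtain ⟨Q, hQ⟩ := exists_isCompl (LinearMap.ker fb)
  let eb : Module.End R ((M →₀ R) ⧸ (J • (⊤ : Submodule R (M →₀ R)))) :=
    Submodule.projection Q (LinearMap.ker fb) hQ.symm
  have heb_mem : ∀ x, eb x ∈ Q := fun x => Submodule.coe_mem _
  have heb_fb : ∀ x, fb (eb x) = fb x := by
    intro x
    have h1 := Submodule.projection_add_projection_eq_self hQ.symm x
    conv_rhs => rw [← h1]
    rw [map_add]
    have h2 : fb ((Submodule.projection (LinearMap.ker fb) Q hQ.symm.symm) x) = 0 :=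
      (Submodule.coe_mem (p := LinearMap.ker fb) _)
    rw [h2, add_zero]
  have heb_idem : ∀ x, eb (eb x) = eb x := by
    intro x
    have h1 : ∀ y ∈ Q, eb y = y := fun y hy => by
      have := Submodule.projectionOnto_apply_left hQ.symm ⟨y, hy⟩
      exact congrArg Subtype.val this
    exact h1 _ (heb_mem x)
  obtain ⟨e, hee, hmk⟩ := lift_idem J hn eb heb_idem
  have hproj : Module.Projective R (LinearMap.range e) := by
    refine Module.Projective.of_split (LinearMap.range e).subtype
      (LinearMap.rangeRestrict e) ?_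
    apply LinearMap.ext
    rintro ⟨_, z, rfl⟩
    apply Subtype.ext
    exact hee z
  refine ⟨LinearMap.range e, inferInstance, inferInstance,
    f ∘ₗ (LinearMap.range e).subtype, hproj, ?_, ?_⟩
  · rw [← LinearMap.range_eq_top]
    apply nak_top J hn
    rw [eq_top_iff]
    intro m _
    obtain ⟨a, rfl⟩ := hf m
    have h1 : fb (Submodule.mkQ _ (e a)) = fb (Submodule.mkQ _ a) := by
      rw [hmk, heb_fb]
    have h2 : Submodule.mkQ (J • (⊤ : Submodule R M)) (f (e a)) = Submodule.mkQ _ (f a) := h1
    rw [Submodule.mkQ_apply, Submodule.mkQ_apply, Submodule.Quotient.eq] at h2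
    have h3 : f a = f (e a) + (-(f (e a) - f a)) := by abel
    rw [h3]
    exact Submodule.add_mem_sup ⟨⟨e a, a, rfl⟩, rfl⟩ (Submodule.neg_mem _ h2)
  · rintro ⟨p, z, rfl⟩ hp
    have hp' : f (e z) = 0 := hp
    have h1 : Submodule.mkQ (J • (⊤ : Submodule R (M →₀ R))) (e z) ∈ Q := by
      rw [hmk]
      exact heb_mem _
    have h2 : Submodule.mkQ (J • (⊤ : Submodule R (M →₀ R))) (e z) ∈ LinearMap.ker fb := by
      rw [LinearMap.mem_ker]
      change Submodule.mkQ (J • (⊤ : Submodule R M)) (f (e z)) = 0
      rw [hp', map_zero]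
    have h3 : Submodule.mkQ (J • (⊤ : Submodule R (M →₀ R))) (e z) = 0 := by
      have := hQ.disjoint.le_bot ⟨h2, h1⟩
      simpa using this
    rw [Submodule.mkQ_apply, Submodule.Quotient.mk_eq_zero] at h3
    let rr : (M →₀ R) →ₗ[R] ↥(LinearMap.range e) := LinearMap.rangeRestrict e
    have h4 : rr (e z) ∈ J • (⊤ : Submodule R (LinearMap.range e)) := by
      have h6 := Submodule.mem_map_of_mem (f := rr) h3
      rw [Submodule.map_smul''] at h6
      exact Submodule.smul_mono le_rfl le_top h6
    have h5 : rr (e z) = ⟨e z, z, rfl⟩ := Subtype.ext (hee z)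
    rwa [h5] at h4

/-- product of a right ideal and a submodule -/
def rs {P : Type u} [AddCommGroup P] [Module R P] (C : RI R) (N : Submodule R P) : AddSubgroup P :=
  AddSubgroup.closure {y | ∃ c ∈ C, ∃ z ∈ N, y = c • z}

theorem rs_mono {P : Type u} [AddCommGroup P] [Module R P] {C C' : RI R} {N N' : Submodule R P}
    (hC : C ≤ C') (hN : N ≤ N') : rs C N ≤ rs C' N' := by
  apply AddSubgroup.closure_mono
  rintro _ ⟨c, hc, z, hz, rfl⟩
  exact ⟨c, hC hc, z, hN hz, rfl⟩

theorem smul_mem_rs {P : Type u} [AddCommGroup P] [Module R P] {C : RI R} {N : Submodule R P}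
    {c : R} (hc : c ∈ C) {z : P} (hz : z ∈ N) : c • z ∈ rs C N :=
  AddSubgroup.subset_closure ⟨c, hc, z, hz, rfl⟩

theorem projective_of_van [IsArtinianRing R] (hop : IsArtinianRing Rᵐᵒᵖ) {σ : Type u}
    (K : σ → Cpx R)
    (hK : ∀ C C' : RI R, C ⋖ C' → ∃ s, ∃ c ∈ C',
      (∀ r, c * r ∈ C ↔ r ∈ (K s).I) ∧ (∀ y ∈ C', ∃ r, y - c * r ∈ C))
    (M : Type u) [AddCommGroup M] [Module R M] (hM : ∀ s, (K s).Van 0 M) :
    Module.Projective R M := by
  obtain ⟨P, i1, i2, π, hP, hπ, hker⟩ := exists_cover (R := R) M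
  set J := Ring.jacobson R with hJ
  obtain ⟨n, hn⟩ : ∃ n, J ^ n = ⊥ := (inferInstance : IsSemiprimaryRing R).isNilpotent
  obtain ⟨sec, hsec⟩ := hP.out
  set N := LinearMap.ker π with hN
  -- (1) coordinates
  have hcoord : ∀ (C : RI R) (w : P), w ∈ rs C (⊤ : Submodule R P) → ∀ i, sec w i ∈ C := by
    intro C w hw i
    induction hw using AddSubgroup.closure_induction with
    | mem x hx =>
      obtain ⟨c, hc, z, -, rfl⟩ := hx
      rw [map_smul, Finsupp.smul_apply, smul_eq_mul]
      exact RI.mul_mem C hc _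
    | zero => simp
    | add x y _ _ hx hy => rw [map_add, Finsupp.add_apply]; exact C.add_mem hx hy
    | neg x _ hx => rw [map_neg, Finsupp.neg_apply]; exact C.neg_mem hx
  have hcolon : ∀ (C 𝔪 : RI R) (c : R), (∀ r, c * r ∈ C ↔ r ∈ 𝔪) → ∀ z : P,
      c • z ∈ rs C (⊤ : Submodule R P) → z ∈ rs 𝔪 (⊤ : Submodule R P) := by
    intro C 𝔪 c hc z hz
    have h1 : ∀ i, sec z i ∈ 𝔪 := by
      intro i
      rw [← hc]
      have := hcoord C _ hz i
      rwa [map_smul, Finsupp.smul_apply, smul_eq_mul] at this
    have h2 : z = (sec z).sum fun i r => r • i := by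
      have := hsec z
      rw [Finsupp.linearCombination_apply] at this
      exact this.symm
    rw [h2]
    exact AddSubgroup.sum_mem _ fun i _ => smul_mem_rs (h1 i) trivial
  -- (2) the basic case
  have hbase : ∀ s, ∀ x ∈ N, x ∈ rs (K s).I (⊤ : Submodule R P) → x ∈ rs (K s).I N := by
    intro s x hx hxr
    -- write x = v gen
    have h1 : ∀ x ∈ rs (K s).I (⊤ : Submodule R P), ∃ v : (K s).G 1 →ₗ[R] P,
        v (K s).gen = x := by
      intro x hx
      induction hx using AddSubgroup.closure_induction with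
      | mem x hx =>
        obtain ⟨c, ⟨u, hu⟩, z, -, rfl⟩ := hx
        exact ⟨(LinearMap.toSpanSingleton R P z) ∘ₗ u, by
          rw [LinearMap.comp_apply, hu]; rfl⟩
      | zero => exact ⟨0, rfl⟩
      | add x y _ _ hx hy =>
        obtain ⟨v, rfl⟩ := hx
        obtain ⟨v', rfl⟩ := hy
        exact ⟨v + v', rfl⟩
      | neg x _ hx =>
        obtain ⟨v, rfl⟩ := hx
        exact ⟨-v, rfl⟩
    obtain ⟨v, hv⟩ := h1 x hxr
    obtain ⟨w, hw⟩ := hM s (π ∘ₗ v) (by
      have : (π ∘ₗ v ∘ₗ (K s).δ 0) ∘ₗ (K s).e0.toLinearMap = 0 := by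
        apply LinearMap.ext_ring
        change π (v (K s).gen) = 0
        rw [hv]
        exact hx
      apply LinearMap.ext
      intro g
      have h3 := LinearMap.congr_fun this ((K s).e0.symm g)
      simpa using h3)
    obtain ⟨w', rfl⟩ := FF.lift π hπ w
    let v' : (K s).G 1 →ₗ[R] P := v - w' ∘ₗ (K s).δ 1
    have hv'N : ∀ g, v' g ∈ N := by
      intro g
      rw [hN, LinearMap.mem_ker]
      have := LinearMap.congr_fun hw g
      simp only [LinearMap.comp_apply] at this
      simp only [v', LinearMap.sub_apply, LinearMap.comp_apply, map_sub]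
      rw [this, sub_self]
    have hv'x : v' (K s).gen = x := by
      have h2 : (K s).δ 1 ((K s).gen) = 0 := LinearMap.congr_fun ((K s).comp 0) _
      simp only [v', LinearMap.sub_apply, LinearMap.comp_apply]
      rw [h2, map_zero, sub_zero, hv]
    -- expand in coordinates
    obtain ⟨k, ⟨e⟩⟩ := ((K s).ff 1).ex
    have h4 : x = ∑ j, (e (K s).gen j) • v' (e.symm (Pi.single j 1)) := by
      rw [← hv'x]
      conv_lhs => rw [← e.symm_apply_apply (K s).gen, pi_eq_sum_univ' (e (K s).gen)]
      rw [map_sum, map_sum]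
      refine Finset.sum_congr rfl fun j _ => ?_
      rw [map_smul, map_smul]
    rw [h4]
    exact AddSubgroup.sum_mem _ fun j _ =>
      smul_mem_rs (C := (K s).I) ⟨(LinearMap.proj j) ∘ₗ e.toLinearMap, rfl⟩ (hv'N _)
  -- (3) all right ideals
  have hnoe := right_noetherian hop
  have hall : ∀ C : RI R, ∀ x ∈ N, x ∈ rs C (⊤ : Submodule R P) → x ∈ rs C N := by
    intro C
    induction C using WellFoundedGT.induction with
    | ind C ih =>
      intro x hx hxC
      by_cases hC : IsMax C
      · have : (1 : R) ∈ C := by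
          rw [hC.eq_top]; trivial
        rw [← one_smul R x]
        exact smul_mem_rs this hx
      · have hart := right_artinian hop
        obtain ⟨C', hCC⟩ := exists_covBy_of_wellFoundedLT hC
        obtain ⟨s, c, hc, hcm, hcg⟩ := hK C C' hCC
        have h1 : x ∈ rs C' N := ih C' hCC.lt x hx (rs_mono hCC.le le_rfl hxC)
        have h2 : ∀ x ∈ rs C' N, ∃ z ∈ N, x - c • z ∈ rs C N := by
          intro x hx
          induction hx using AddSubgroup.closure_induction with
          | mem x hx =>
            obtain ⟨c', hc', z, hz, rfl⟩ := hx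
            obtain ⟨r, hr⟩ := hcg c' hc'
            refine ⟨r • z, N.smul_mem r hz, ?_⟩
            rw [← mul_smul, ← sub_smul]
            exact smul_mem_rs hr hz
          | zero => exact ⟨0, N.zero_mem, by simp⟩
          | add x y _ _ hx hy =>
            obtain ⟨z, hz, hz'⟩ := hx
            obtain ⟨w, hw, hw'⟩ := hy
            refine ⟨z + w, N.add_mem hz hw, ?_⟩
            have := (rs C N).add_mem hz' hw'
            convert this using 1
            rw [smul_add]
            abel
          | neg x _ hx =>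
            obtain ⟨z, hz, hz'⟩ := hx
            refine ⟨-z, N.neg_mem hz, ?_⟩
            have := (rs C N).neg_mem hz'
            convert this using 1
            rw [smul_neg]
            abel
        obtain ⟨z, hz, hz'⟩ := h2 x h1
        have h3 : c • z ∈ rs C (⊤ : Submodule R P) := by
          have h4 := (rs C (⊤ : Submodule R P)).sub_mem hxC (rs_mono le_rfl le_top hz')
          simpa using h4
        have h5 := hbase s z hz (hcolon C (K s).I c hcm z h3)
        have h6 : ∀ z ∈ rs (K s).I N, c • z ∈ rs C N := by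
          intro z hz
          induction hz using AddSubgroup.closure_induction with
          | mem x hx =>
            obtain ⟨c', hc', z, hz, rfl⟩ := hx
            rw [← mul_smul]
            exact smul_mem_rs ((hcm c').2 hc') hz
          | zero => rw [smul_zero]; exact (rs C N).zero_mem
          | add x y _ _ hx hy => rw [smul_add]; exact (rs C N).add_mem hx hy
          | neg x _ hx => rw [smul_neg]; exact (rs C N).neg_mem hx
        have h7 := (rs C N).add_mem hz' (h6 z h5)
        simpa using h7
  -- (4) the Jacobson radical as right ideal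
  let JR : RI R := {
    carrier := J
    zero_mem' := J.zero_mem
    add_mem' := J.add_mem
    smul_mem' := fun r a ha => Ideal.mul_mem_right _ J ha }
  have hNJ : N ≤ J • N := by
    intro x hx
    have h0 : ∀ x ∈ J • (⊤ : Submodule R P), x ∈ rs JR (⊤ : Submodule R P) := by
      intro x h2
      induction h2 using Submodule.smul_induction_on' with
      | smul r hr m hm => exact smul_mem_rs (C := JR) hr hm
      | add x _ y _ hx hy => exact (rs JR ⊤).add_mem hx hy
    have h1 : x ∈ rs JR (⊤ : Submodule R P) := h0 x (hker hx)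
    have h2 := hall JR x hx h1
    have h3 : ∀ x ∈ rs JR N, x ∈ J • N := by
      intro x hx
      induction hx using AddSubgroup.closure_induction with
      | mem x hx =>
        obtain ⟨c, hc, z, hz, rfl⟩ := hx
        exact Submodule.smul_mem_smul hc hz
      | zero => exact Submodule.zero_mem _
      | add x y _ _ hx hy => exact Submodule.add_mem _ hx hy
      | neg x _ hx => exact Submodule.neg_mem _ hx
    exact h3 x h2
  have hN0 := nak_bot J hn N hNJ
  have hinj : Function.Injective π := LinearMap.ker_eq_bot.1 hN0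
  exact Module.Projective.of_equiv (LinearEquiv.ofBijective π ⟨hinj, hπ⟩)

theorem pdLE_of_van [IsArtinianRing R] (hop : IsArtinianRing Rᵐᵒᵖ) {σ : Type u}
    (K : σ → Cpx R)
    (hK : ∀ C C' : RI R, C ⋖ C' → ∃ s, ∃ c ∈ C',
      (∀ r, c * r ∈ C ↔ r ∈ (K s).I) ∧ (∀ y ∈ C', ∃ r, y - c * r ∈ C)) (n : ℕ) :
    ∀ (M : Type u) [AddCommGroup M] [Module R M], (∀ s, (K s).Van n M) → pdLE R n M := by
  induction n with
  | zero =>
    intro M _ _ hM
    exact projective_of_van hop K hK M hM
  | succ n ih =>
    intro M _ _ hM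
    refine ⟨M →₀ R, inferInstance, inferInstance, Finsupp.linearCombination R id, inferInstance,
      fun m => ⟨Finsupp.single m 1, by simp⟩, ?_⟩
    exact ih _ fun s => (K s).ker_van n _ (fun m => ⟨Finsupp.single m 1, by simp⟩) (hM s)

end Pool.Agent.Helper173
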