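import Mathlib
import Pool.Agent.Helper173.Cover

set_option autoImplicit false
universe u v w

namespace Pool.Agent.Helper173

variable {R : Type u} [Ring R]

/-- pp-definable relation between hom groups -/
structure Rel (R : Type u) [Ring R] (W₁ W₂ : Type u) [AddCommGroup W₁] [Module R W₁]
    [AddCommGroup W₂] [Module R W₂] where
  U : Type u
  V : Type u
  [agU : AddCommGroup U]
  [mdU : Module R U]
  [ffU : FF R U]
  [agV : AddCommGroup V]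
  [mdV : Module R V]
  [ffV : FF R V]
  P₁ : U →ₗ[R] W₁
  P₂ : U →ₗ[R] W₂
  Q : U →ₗ[R] V

attribute [instance] Rel.agU Rel.mdU Rel.ffU Rel.agV Rel.mdV Rel.ffV

namespace Rel

section
variable {W₁ W₂ W₃ : Type u} [AddCommGroup W₁] [Module R W₁] [AddCommGroup W₂] [Module R W₂]
  [AddCommGroup W₃] [Module R W₃]

/-- the relation holds -/
def Holds (ρ : Rel R W₁ W₂) {M : Type u} [AddCommGroup M] [Module R M]
    (x₁ : W₁ →ₗ[R] M) (x₂ : W₂ →ₗ[R] M) : Prop :=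
  ∃ y : ρ.V →ₗ[R] M, x₁ ∘ₗ ρ.P₁ + x₂ ∘ₗ ρ.P₂ = y ∘ₗ ρ.Q

variable {M : Type u} [AddCommGroup M] [Module R M]

theorem holds_zero (ρ : Rel R W₁ W₂) : ρ.Holds (0 : W₁ →ₗ[R] M) 0 := ⟨0, by simp⟩

theorem Holds.add {ρ : Rel R W₁ W₂} {x₁ x₁' : W₁ →ₗ[R] M} {x₂ x₂' : W₂ →ₗ[R] M}
    (h : ρ.Holds x₁ x₂) (h' : ρ.Holds x₁' x₂') : ρ.Holds (x₁ + x₁') (x₂ + x₂') := by
  obtain ⟨y, hy⟩ := h
  obtain ⟨y', hy'⟩ := h'
  refine ⟨y + y', ?_⟩
  rw [LinearMap.add_comp, LinearMap.add_comp, LinearMap.add_comp, ← hy, ← hy']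
  abel

theorem Holds.neg {ρ : Rel R W₁ W₂} {x₁ : W₁ →ₗ[R] M} {x₂ : W₂ →ₗ[R] M}
    (h : ρ.Holds x₁ x₂) : ρ.Holds (-x₁) (-x₂) := by
  obtain ⟨y, hy⟩ := h
  refine ⟨-y, ?_⟩
  rw [LinearMap.neg_comp, LinearMap.neg_comp, LinearMap.neg_comp, ← hy]
  abel

/-- image of a subgroup -/
def img (ρ : Rel R W₁ W₂) (A : AddSubgroup (W₁ →ₗ[R] M)) : AddSubgroup (W₂ →ₗ[R] M) where
  carrier := {y | ∃ x ∈ A, ρ.Holds x y}
  zero_mem' := ⟨0, A.zero_mem, ρ.holds_zero⟩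
  add_mem' := by
    rintro y y' ⟨x, hx, h⟩ ⟨x', hx', h'⟩
    exact ⟨x + x', A.add_mem hx hx', h.add h'⟩
  neg_mem' := by
    rintro y ⟨x, hx, h⟩
    exact ⟨-x, A.neg_mem hx, h.neg⟩

theorem mem_img {ρ : Rel R W₁ W₂} {A : AddSubgroup (W₁ →ₗ[R] M)} {y : W₂ →ₗ[R] M} :
    y ∈ ρ.img A ↔ ∃ x ∈ A, ρ.Holds x y := Iff.rfl

theorem img_mono (ρ : Rel R W₁ W₂) {A B : AddSubgroup (W₁ →ₗ[R] M)} (h : A ≤ B) :
    ρ.img A ≤ ρ.img B := by
  rintro y ⟨x, hx, hxy⟩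
  exact ⟨x, h hx, hxy⟩

/-- composition of relations -/
def comp [FF R W₂] (ρ : Rel R W₁ W₂) (τ : Rel R W₂ W₃) : Rel R W₁ W₃ where
  U := ρ.U × τ.U
  V := ρ.V × τ.V × W₂
  P₁ := ρ.P₁ ∘ₗ LinearMap.fst R _ _
  P₂ := τ.P₂ ∘ₗ LinearMap.snd R _ _
  Q := LinearMap.prod (ρ.Q ∘ₗ LinearMap.fst R _ _)
    (LinearMap.prod (τ.Q ∘ₗ LinearMap.snd R _ _)
      (-(ρ.P₂ ∘ₗ LinearMap.fst R _ _) - τ.P₁ ∘ₗ LinearMap.snd R _ _))

theorem comp_holds [FF R W₂] (ρ : Rel R W₁ W₂) (τ : Rel R W₂ W₃) (x₁ : W₁ →ₗ[R] M)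
    (x₃ : W₃ →ₗ[R] M) : (ρ.comp τ).Holds x₁ x₃ ↔ ∃ x₂, ρ.Holds x₁ x₂ ∧ τ.Holds x₂ x₃ := by
  constructor
  · rintro ⟨y, hy⟩
    let y' : ρ.V × τ.V × W₂ →ₗ[R] M := y
    refine ⟨y' ∘ₗ LinearMap.inr R _ _ ∘ₗ LinearMap.inr R _ _, ⟨y' ∘ₗ LinearMap.inl R _ _, ?_⟩,
      ⟨y' ∘ₗ LinearMap.inr R _ _ ∘ₗ LinearMap.inl R _ _, ?_⟩⟩
    · apply LinearMap.ext
      intro u
      have h1 : x₁ (ρ.P₁ u) + x₃ (τ.P₂ 0) = y' (ρ.Q u, τ.Q 0, -(ρ.P₂ u) - τ.P₁ 0) :=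
        LinearMap.congr_fun hy (u, 0)
      simp only [map_zero, add_zero, sub_zero] at h1
      simp only [LinearMap.add_apply, LinearMap.comp_apply, LinearMap.inl_apply,
        LinearMap.inr_apply]
      rw [h1, ← map_add]
      congr 1
      simp
    · apply LinearMap.ext
      intro u
      have h1 : x₁ (ρ.P₁ 0) + x₃ (τ.P₂ u) = y' (ρ.Q 0, τ.Q u, -(ρ.P₂ 0) - τ.P₁ u) :=
        LinearMap.congr_fun hy (0, u)
      simp only [map_zero, zero_add, neg_zero, zero_sub] at h1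
      simp only [LinearMap.add_apply, LinearMap.comp_apply, LinearMap.inl_apply,
        LinearMap.inr_apply]
      rw [h1, ← map_add]
      congr 1
      simp
  · rintro ⟨x₂, ⟨y, hy⟩, ⟨z, hz⟩⟩
    refine ⟨LinearMap.coprod y (LinearMap.coprod z x₂), ?_⟩
    apply LinearMap.ext
    rintro ⟨u, v⟩
    have h1 : x₁ (ρ.P₁ u) + x₂ (ρ.P₂ u) = y (ρ.Q u) := LinearMap.congr_fun hy u
    have h2 : x₂ (τ.P₁ v) + x₃ (τ.P₂ v) = z (τ.Q v) := LinearMap.congr_fun hz v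
    change x₁ (ρ.P₁ u) + x₃ (τ.P₂ v) = y (ρ.Q u) + (z (τ.Q v) + x₂ (-(ρ.P₂ u) - τ.P₁ v))
    rw [← h1, ← h2, map_sub, map_neg]
    abel

theorem comp_img [FF R W₂] (ρ : Rel R W₁ W₂) (τ : Rel R W₂ W₃) (A : AddSubgroup (W₁ →ₗ[R] M)) :
    (ρ.comp τ).img A = τ.img (ρ.img A) := by
  ext y
  simp only [mem_img, comp_holds]
  constructor
  · rintro ⟨x, hx, z, hxz, hzy⟩
    exact ⟨z, ⟨x, hx, hxz⟩, hzy⟩
  · rintro ⟨z, ⟨x, hx, hxz⟩, hzy⟩
    exact ⟨x, hx, z, hxz, hzy⟩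

end

end Rel

namespace Cpx
variable (K : Cpx R)

/-- cycles -/
def Z (n : ℕ) (M : Type u) [AddCommGroup M] [Module R M] : AddSubgroup (K.G (n + 1) →ₗ[R] M) where
  carrier := {x | x ∘ₗ K.δ n = 0}
  zero_mem' := LinearMap.zero_comp _
  add_mem' := by
    intro x y hx hy
    change (x + y) ∘ₗ K.δ n = 0
    rw [LinearMap.add_comp, hx, hy, add_zero]
  neg_mem' := by
    intro x hx
    change (-x) ∘ₗ K.δ n = 0
    rw [LinearMap.neg_comp, hx, neg_zero]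

/-- boundaries -/
def B (n : ℕ) (M : Type u) [AddCommGroup M] [Module R M] : AddSubgroup (K.G (n + 1) →ₗ[R] M) where
  carrier := {x | ∃ y : K.G (n + 2) →ₗ[R] M, x = y ∘ₗ K.δ (n + 1)}
  zero_mem' := ⟨0, by simp⟩
  add_mem' := by
    rintro _ _ ⟨x, rfl⟩ ⟨y, rfl⟩
    exact ⟨x + y, by rw [LinearMap.add_comp]⟩
  neg_mem' := by
    rintro _ ⟨x, rfl⟩
    exact ⟨-x, by rw [LinearMap.neg_comp]⟩

variable {M : Type u} [AddCommGroup M] [Module R M]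

theorem mem_Z {n : ℕ} {x : K.G (n + 1) →ₗ[R] M} : x ∈ K.Z n M ↔ x ∘ₗ K.δ n = 0 := Iff.rfl
theorem mem_B {n : ℕ} {x : K.G (n + 1) →ₗ[R] M} :
    x ∈ K.B n M ↔ ∃ y : K.G (n + 2) →ₗ[R] M, x = y ∘ₗ K.δ (n + 1) := Iff.rfl

theorem van_iff (n : ℕ) : K.Van n M ↔ K.Z n M ≤ K.B n M := Iff.rfl

end Cpx

/-- `Tor_{n+2}` of `G` is filtered by subquotients of the `Tor_{n+1}` of the `K s`. -/
def Dom {σ : Type u} (G : Cpx R) (K : σ → Cpx R) (n : ℕ) : Prop :=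
  ∃ (I : Type) (_ : Finite I) (s : I → σ)
    (ρ : ∀ i, Rel R (G.G (n + 1 + 1)) ((K (s i)).G (n + 1))),
    (∀ i (M : Type u) [AddCommGroup M] [Module R M], (ρ i).img (G.Z (n + 1) M) ≤ (K (s i)).Z n M) ∧
    (∀ i (M : Type u) [AddCommGroup M] [Module R M], (K (s i)).B n M ≤ (ρ i).img ⊥) ∧
    (∀ (M : Type u) [AddCommGroup M] [Module R M] (A B : AddSubgroup (G.G (n + 1 + 1) →ₗ[R] M)),
      B ≤ A → G.B (n + 1) M ≤ B → A ≤ G.Z (n + 1) M → (∀ i, (ρ i).img A ≤ (ρ i).img B) → A ≤ B)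

section cone

variable (G K : Cpx R) (η : ∀ n, G.G n →ₗ[R] K.G n)
  (hη : ∀ n, η (n + 1) ∘ₗ G.δ n = K.δ n ∘ₗ η n)

/-- terms of the cone -/
def coneG : ℕ → Type u
  | 0 => G.G 0
  | n + 1 => G.G (n + 1) × K.G n

instance coneAg : ∀ n, AddCommGroup (coneG G K n)
  | 0 => inferInstanceAs (AddCommGroup (G.G 0))
  | n + 1 => inferInstanceAs (AddCommGroup (G.G (n + 1) × K.G n))

instance coneMd : ∀ n, Module R (coneG G K n)
  | 0 => inferInstanceAs (Module R (G.G 0))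
  | n + 1 => inferInstanceAs (Module R (G.G (n + 1) × K.G n))

instance coneFf : ∀ n, FF R (coneG G K n)
  | 0 => inferInstanceAs (FF R (G.G 0))
  | n + 1 => inferInstanceAs (FF R (G.G (n + 1) × K.G n))

/-- differential of the cone -/
def coneδ : ∀ n, coneG G K n →ₗ[R] coneG G K (n + 1)
  | 0 => (LinearMap.prod (G.δ 0) (η 0) : G.G 0 →ₗ[R] G.G 1 × K.G 0)
  | n + 1 => (LinearMap.prod (G.δ (n + 1) ∘ₗ LinearMap.fst R _ _)
      (η (n + 1) ∘ₗ LinearMap.fst R _ _ - K.δ n ∘ₗ LinearMap.snd R _ _) :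
        G.G (n + 1) × K.G n →ₗ[R] G.G (n + 2) × K.G (n + 1))

theorem coneδ_zero (g : G.G 0) : coneδ G K η 0 g = ((G.δ 0 g, η 0 g) : G.G 1 × K.G 0) := rfl
theorem coneδ_succ (n : ℕ) (g : G.G (n + 1)) (k : K.G n) :
    coneδ G K η (n + 1) ((g, k) : G.G (n + 1) × K.G n) =
      ((G.δ (n + 1) g, η (n + 1) g - K.δ n k) : G.G (n + 2) × K.G (n + 1)) := rfl

/-- The mapping cone, resolving `R / C'` when `C' = C + c R`. -/
def cone (c : R) (hc : ∀ r, c * r ∈ G.I → r ∈ K.I)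
    (h0 : η 0 (G.e0 1) = K.e0 c) : Cpx R where
  G := coneG G K
  δ := coneδ G K η
  comp := by
    intro n
    apply LinearMap.ext
    cases n with
    | zero =>
      intro g
      have h1 : G.δ 1 (G.δ 0 g) = 0 := LinearMap.congr_fun (G.comp 0) g
      have h2 : η 1 (G.δ 0 g) = K.δ 0 (η 0 g) := LinearMap.congr_fun (hη 0) g
      change ((G.δ 1 (G.δ 0 g), η 1 (G.δ 0 g) - K.δ 0 (η 0 g)) : G.G 2 × K.G 1) = 0
      rw [h1, h2, sub_self]
      rfl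
    | succ n =>
      rintro ⟨g, k⟩
      have h1 : G.δ (n + 2) (G.δ (n + 1) g) = 0 := LinearMap.congr_fun (G.comp (n + 1)) g
      have h2 : η (n + 2) (G.δ (n + 1) g) = K.δ (n + 1) (η (n + 1) g) :=
        LinearMap.congr_fun (hη (n + 1)) g
      have h3 : K.δ (n + 1) (K.δ n k) = 0 := LinearMap.congr_fun (K.comp n) k
      change ((G.δ (n + 2) (G.δ (n + 1) g), η (n + 2) (G.δ (n + 1) g) -
        K.δ (n + 1) (η (n + 1) g - K.δ n k)) : G.G (n + 3) × K.G (n + 2)) = 0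
      rw [h1, h2, map_sub, h3, sub_zero, sub_self]
      rfl
  exact := by
    intro n
    cases n with
    | zero =>
      intro x' hx'
      let x : G.G 1 × K.G 0 →ₗ[R] R := x'
      have hx : ∀ g : G.G 0, x (G.δ 0 g, 0) + x (0, η 0 g) = 0 := by
        intro g
        rw [← map_add]
        have : x (G.δ 0 g, η 0 g) = 0 := LinearMap.congr_fun hx' g
        simpa using this
      -- y₁ = x (0, e0 1) lies in K.I
      have h1 : c * x (0, K.e0 1) = -(x (G.gen, 0)) := by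
        have h2 := hx (G.e0 1)
        rw [h0] at h2
        have h3 : ((0, K.e0 c) : G.G 1 × K.G 0) = c • (0, K.e0 1) := by
          rw [Prod.smul_mk, smul_zero, ← map_smul, smul_eq_mul, mul_one]
        rw [h3, map_smul, smul_eq_mul] at h2
        exact eq_neg_of_add_eq_zero_right h2
      obtain ⟨v, hv⟩ := hc (x (0, K.e0 1)) (by
        rw [h1]
        exact ⟨-(x ∘ₗ LinearMap.inl R _ _), rfl⟩)
      have hv' : ∀ k : K.G 0, x (0, k) = v (K.δ 0 k) := by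
        have h4 : (x ∘ₗ LinearMap.inr R _ _) ∘ₗ K.e0.toLinearMap =
            (v ∘ₗ K.δ 0) ∘ₗ K.e0.toLinearMap := by
          apply LinearMap.ext_ring
          exact hv.symm
        intro k
        have := LinearMap.congr_fun h4 (K.e0.symm k)
        simpa using this
      obtain ⟨y, hy⟩ := G.exact 0 (x ∘ₗ LinearMap.inl R _ _ + v ∘ₗ η 1) (by
        apply LinearMap.ext
        intro g
        have h5 : η 1 (G.δ 0 g) = K.δ 0 (η 0 g) := LinearMap.congr_fun (hη 0) g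
        change x (G.δ 0 g, 0) + v (η 1 (G.δ 0 g)) = 0
        rw [h5, ← hv']
        exact hx g)
      refine ⟨(LinearMap.coprod y (-v) : G.G 2 × K.G 1 →ₗ[R] R), ?_⟩
      apply LinearMap.ext
      rintro ⟨g, k⟩
      have h6 : x (g, 0) + v (η 1 g) = y (G.δ 1 g) := LinearMap.congr_fun hy g
      change x (g, k) = y (G.δ 1 g) + (-v) (η 1 g - K.δ 0 k)
      have h7 : x (g, k) = x (g, 0) + x (0, k) := by rw [← map_add]; simp
      rw [h7, hv', ← h6, LinearMap.neg_apply, map_sub]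
      abel
    | succ n =>
      intro x' hx'
      let x : G.G (n + 2) × K.G (n + 1) →ₗ[R] R := x'
      have hx : ∀ (g : G.G (n + 1)) (k : K.G n),
          x (G.δ (n + 1) g, η (n + 1) g - K.δ n k) = 0 := fun g k =>
        LinearMap.congr_fun hx' ((g, k) : G.G (n + 1) × K.G n)
      obtain ⟨v, hv⟩ := K.exact n (x ∘ₗ LinearMap.inr R _ _) (by
        apply LinearMap.ext
        intro k
        have h1 := hx 0 (-k)
        simpa using h1)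
      have hv' : ∀ k : K.G (n + 1), x (0, k) = v (K.δ (n + 1) k) := fun k =>
        LinearMap.congr_fun hv k
      obtain ⟨y, hy⟩ := G.exact (n + 1) (x ∘ₗ LinearMap.inl R _ _ + v ∘ₗ η (n + 2)) (by
        apply LinearMap.ext
        intro g
        have h5 : η (n + 2) (G.δ (n + 1) g) = K.δ (n + 1) (η (n + 1) g) :=
          LinearMap.congr_fun (hη (n + 1)) g
        change x (G.δ (n + 1) g, 0) + v (η (n + 2) (G.δ (n + 1) g)) = 0
        rw [h5, ← hv', ← map_add]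
        have h1 := hx g 0
        simpa using h1)
      refine ⟨(LinearMap.coprod y (-v) : G.G (n + 3) × K.G (n + 2) →ₗ[R] R), ?_⟩
      apply LinearMap.ext
      rintro ⟨g, k⟩
      have h6 : x (g, 0) + v (η (n + 2) g) = y (G.δ (n + 2) g) := LinearMap.congr_fun hy g
      change x (g, k) = y (G.δ (n + 2) g) + (-v) (η (n + 2) g - K.δ (n + 1) k)
      have h7 : x (g, k) = x (g, 0) + x (0, k) := by rw [← map_add]; simp
      rw [h7, hv', ← h6, LinearMap.neg_apply, map_sub]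
      abel
  e0 := G.e0

end cone

end Pool.Agent.Helper173
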