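import Mathlib
import Pool.Agent.Helper173.Dom

set_option autoImplicit false
universe u v w

namespace Pool.Agent.Helper173

variable {R : Type u} [Ring R]

theorem mem_cone_I (G K : Cpx R) (η : ∀ n, G.G n →ₗ[R] K.G n)
    (hη : ∀ n, η (n + 1) ∘ₗ G.δ n = K.δ n ∘ₗ η n) (c : R) (hc : ∀ r, c * r ∈ G.I → r ∈ K.I)
    (h0 : η 0 (G.e0 1) = K.e0 c) (y : R) :
    y ∈ (cone G K η hη c hc h0).I ↔ ∃ a ∈ G.I, ∃ r, y = a + c * r := by
  have hgen : (cone G K η hη c hc h0).gen = ((G.gen, K.e0 c) : G.G 1 × K.G 0) := by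
    change ((G.δ 0 (G.e0 1), η 0 (G.e0 1)) : G.G 1 × K.G 0) = _
    rw [h0]
    rfl
  have h3 : ∀ r : R, ((0, K.e0 r) : G.G 1 × K.G 0) = r • (0, K.e0 1) := by
    intro r
    rw [Prod.smul_mk, smul_zero, ← map_smul, smul_eq_mul, mul_one]
  rw [Cpx.mem_I]
  constructor
  · rintro ⟨u', rfl⟩
    let u : G.G 1 × K.G 0 →ₗ[R] R := u'
    refine ⟨u (G.gen, 0), ⟨u ∘ₗ LinearMap.inl R _ _, rfl⟩, u (0, K.e0 1), ?_⟩
    rw [hgen]
    change u (G.gen, K.e0 c) = _
    have h7 : u (G.gen, K.e0 c) = u (G.gen, 0) + u (0, K.e0 c) := by rw [← map_add]; simp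
    rw [h7, h3, map_smul, smul_eq_mul]
  · rintro ⟨_, ⟨u, rfl⟩, r, rfl⟩
    refine ⟨(LinearMap.coprod u ((LinearMap.toSpanSingleton R R r) ∘ₗ K.e0.symm.toLinearMap) :
      G.G 1 × K.G 0 →ₗ[R] R), ?_⟩
    rw [hgen]
    change u G.gen + (K.e0.symm (K.e0 c)) • r = u G.gen + c * r
    rw [LinearEquiv.symm_apply_apply, smul_eq_mul]

/-- extension of a chain map by one step -/
theorem extend_chain {X Y X' : Type u} [AddCommGroup X] [Module R X] [AddCommGroup Y] [Module R Y]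
    [AddCommGroup X'] [Module R X'] [hY : FF R Y] (d : X →ₗ[R] X') (f : X →ₗ[R] Y)
    (h : ∀ u : Y →ₗ[R] R, ∃ v : X' →ₗ[R] R, u ∘ₗ f = v ∘ₗ d) :
    ∃ g : X' →ₗ[R] Y, g ∘ₗ d = f := by
  obtain ⟨k, ⟨e⟩⟩ := hY.ex
  choose v hv using h
  refine ⟨e.symm.toLinearMap ∘ₗ LinearMap.pi fun j => v ((LinearMap.proj j) ∘ₗ e.toLinearMap), ?_⟩
  apply LinearMap.ext
  intro x
  simp only [LinearMap.comp_apply, LinearEquiv.coe_coe]
  rw [LinearEquiv.symm_apply_eq]
  ext j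
  have := LinearMap.congr_fun (hv ((LinearMap.proj j) ∘ₗ e.toLinearMap)) x
  simp only [LinearMap.comp_apply] at this
  rw [LinearMap.pi_apply, ← this]
  rfl

theorem exists_chain (G K : Cpx R) (c : R) (hc : ∀ r, r ∈ K.I → c * r ∈ G.I) :
    ∃ η : ∀ n, G.G n →ₗ[R] K.G n, (∀ n, η (n + 1) ∘ₗ G.δ n = K.δ n ∘ₗ η n) ∧
      η 0 (G.e0 1) = K.e0 c := by
  let A : ℕ → Type u := fun n => {p : (G.G n →ₗ[R] K.G n) × (G.G (n + 1) →ₗ[R] K.G (n + 1)) //
    p.2 ∘ₗ G.δ n = K.δ n ∘ₗ p.1}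
  let f0 : G.G 0 →ₗ[R] K.G 0 := K.e0.toLinearMap ∘ₗ (LinearMap.toSpanSingleton R R c) ∘ₗ
    G.e0.symm.toLinearMap
  have hf0 : ∀ r : R, f0 (G.e0 r) = K.e0 (r * c) := by
    intro r
    simp [f0]
  have start : ∃ g : G.G 1 →ₗ[R] K.G 1, g ∘ₗ G.δ 0 = K.δ 0 ∘ₗ f0 := by
    apply extend_chain
    intro u
    obtain ⟨v, hv⟩ := hc (u K.gen) ⟨u, rfl⟩
    refine ⟨v, ?_⟩
    have : ((u ∘ₗ K.δ 0 ∘ₗ f0) ∘ₗ G.e0.toLinearMap) = ((v ∘ₗ G.δ 0) ∘ₗ G.e0.toLinearMap) := by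
      apply LinearMap.ext_ring
      change u (K.δ 0 (f0 (G.e0 1))) = v G.gen
      rw [hf0, hv, one_mul]
      have h3 : K.e0 c = c • K.e0 1 := by rw [← map_smul, smul_eq_mul, mul_one]
      rw [h3, map_smul, map_smul, smul_eq_mul]
      rfl
    apply LinearMap.ext
    intro g
    have h5 := LinearMap.congr_fun this (G.e0.symm g)
    simpa using h5
  obtain ⟨g0, hg0⟩ := start
  have step : ∀ n (p : A n), ∃ q : A (n + 1), q.1.1 = p.1.2 := by
    rintro n ⟨⟨f, g⟩, hfg⟩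
    obtain ⟨h, hh⟩ : ∃ h : G.G (n + 2) →ₗ[R] K.G (n + 2), h ∘ₗ G.δ (n + 1) =
        K.δ (n + 1) ∘ₗ g := by
      apply extend_chain
      intro u
      apply G.exact
      apply LinearMap.ext
      intro x
      have h1 : g (G.δ n x) = K.δ n (f x) := LinearMap.congr_fun hfg x
      have h2 : K.δ (n + 1) (K.δ n (f x)) = 0 := LinearMap.congr_fun (K.comp n) (f x)
      simp only [LinearMap.comp_apply, LinearMap.zero_apply]
      rw [h1, h2, map_zero]
    exact ⟨⟨⟨g, h⟩, hh⟩, rfl⟩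
  choose st hst using step
  let seq : ∀ n, A n := fun n => Nat.rec (motive := A) ⟨⟨f0, g0⟩, hg0⟩ (fun n p => st n p) n
  have hseq : ∀ n, (seq (n + 1)).1.1 = (seq n).1.2 := fun n => hst n (seq n)
  refine ⟨fun n => (seq n).1.1, fun n => ?_, ?_⟩
  · change (seq (n + 1)).1.1 ∘ₗ G.δ n = K.δ n ∘ₗ (seq n).1.1
    rw [hseq]
    exact (seq n).2
  · change f0 (G.e0 1) = _
    rw [hf0, one_mul]

/-- zero complex -/
def zeroG (R : Type u) : ℕ → Type u
  | 0 => R
  | _ + 1 => Fin 0 → R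

instance zeroAg : ∀ n, AddCommGroup (zeroG R n)
  | 0 => inferInstanceAs (AddCommGroup R)
  | _ + 1 => inferInstanceAs (AddCommGroup (Fin 0 → R))

instance zeroMd : ∀ n, Module R (zeroG R n)
  | 0 => inferInstanceAs (Module R R)
  | _ + 1 => inferInstanceAs (Module R (Fin 0 → R))

instance zeroFf : ∀ n, FF R (zeroG R n)
  | 0 => inferInstanceAs (FF R R)
  | _ + 1 => inferInstanceAs (FF R (Fin 0 → R))

instance zeroSub (n : ℕ) : Subsingleton (zeroG R (n + 1)) :=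
  inferInstanceAs (Subsingleton (Fin 0 → R))

/-- resolution of `R / 0` -/
def zeroCpx (R : Type u) [Ring R] : Cpx R where
  G := zeroG R
  δ _ := 0
  comp _ := by simp
  exact n x _ := ⟨0, by
    apply LinearMap.ext
    intro g
    rw [Subsingleton.elim g 0, map_zero, map_zero]⟩
  e0 := LinearEquiv.refl R R

theorem zeroCpx_I : (zeroCpx R).I = ⊥ := by
  rw [eq_bot_iff]
  rintro _ ⟨u, rfl⟩
  have h : (zeroCpx R).gen = 0 := @Subsingleton.elim (zeroG R 1) (zeroSub 0) _ _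
  rw [Submodule.mem_bot, h, map_zero]

theorem zeroCpx_dom {σ : Type u} (K : σ → Cpx R) (n : ℕ) : Dom (zeroCpx R) K n := by
  refine ⟨Empty, inferInstance, fun i => i.elim, fun i => i.elim, fun i => i.elim,
    fun i => i.elim, ?_⟩
  intro M _ _ A B _ _ _ _ x _
  have : x = 0 := by
    apply LinearMap.ext
    intro g
    have hg : g = 0 := Subsingleton.elim (α := zeroG R (n + 1 + 1)) g 0
    rw [hg, map_zero, map_zero]
  rw [this]
  exact B.zero_mem

/-- Domination passes to the cone. -/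
theorem cone_dom {σ : Type u} (K : σ → Cpx R) (n : ℕ) (G : Cpx R) (hG : Dom G K n) (s : σ)
    (η : ∀ n, G.G n →ₗ[R] (K s).G n)
    (hη : ∀ n, η (n + 1) ∘ₗ G.δ n = (K s).δ n ∘ₗ η n) (c : R)
    (hc : ∀ r, c * r ∈ G.I → r ∈ (K s).I)
    (h0 : η 0 (G.e0 1) = (K s).e0 c) : Dom (cone G (K s) η hη c hc h0) K n := by
  obtain ⟨I, hI, t, ρ, h1, h2, h3⟩ := hG
  set C := cone G (K s) η hη c hc h0 with hC
  -- the relation `κ`: homologous to something coming from `G`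
  let κ : Rel R (C.G (n + 1 + 1)) (G.G (n + 1 + 1)) := {
    U := C.G (n + 1 + 1)
    V := C.G (n + 1 + 1 + 1)
    P₁ := LinearMap.id
    P₂ := -(LinearMap.fst R _ _ : G.G (n + 1 + 1) × (K s).G (n + 1) →ₗ[R] G.G (n + 1 + 1))
    Q := C.δ (n + 1 + 1) }
  -- the relation `q`: the second component, up to boundaries
  let q : Rel R (C.G (n + 1 + 1)) ((K s).G (n + 1)) := {
    U := (K s).G (n + 1)
    V := (K s).G (n + 1 + 1)
    P₁ := (LinearMap.inr R _ _ : (K s).G (n + 1) →ₗ[R] G.G (n + 1 + 1) × (K s).G (n + 1))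
    P₂ := -LinearMap.id
    Q := (K s).δ (n + 1) }
  have hδ : ∀ (g : G.G (n + 1)) (k : (K s).G n), C.δ (n + 1) ((g, k) : G.G (n + 1) × (K s).G n) =
      ((G.δ (n + 1) g, η (n + 1) g - (K s).δ n k) : G.G (n + 2) × (K s).G (n + 1)) :=
    fun g k => rfl
  have hδ' : ∀ (g : G.G (n + 1 + 1)) (k : (K s).G (n + 1)),
      C.δ (n + 1 + 1) ((g, k) : G.G (n + 1 + 1) × (K s).G (n + 1)) =
      ((G.δ (n + 1 + 1) g, η (n + 1 + 1) g - (K s).δ (n + 1) k) :
        G.G (n + 3) × (K s).G (n + 2)) :=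
    fun g k => rfl
  have hκ : ∀ (M : Type u) [AddCommGroup M] [Module R M] (x : C.G (n + 1 + 1) →ₗ[R] M)
      (x₀ : G.G (n + 1 + 1) →ₗ[R] M), κ.Holds x x₀ ↔
      x - (x₀ ∘ₗ LinearMap.fst R (G.G (n + 1 + 1)) ((K s).G (n + 1)) : C.G (n + 1 + 1) →ₗ[R] M) ∈
        C.B (n + 1) M := by
    intro M _ _ x x₀
    constructor
    · rintro ⟨y, hy⟩
      refine ⟨y, ?_⟩
      have hy' : x ∘ₗ κ.P₁ + x₀ ∘ₗ κ.P₂ = y ∘ₗ C.δ (n + 1 + 1) := hy
      rw [← hy']
      apply LinearMap.ext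
      intro g
      change x g - x₀ (Prod.fst (α := G.G (n + 1 + 1)) (β := (K s).G (n + 1)) g) = x g + x₀ (-_)
      rw [map_neg, sub_eq_add_neg]
      rfl
    · rintro ⟨y, hy⟩
      refine ⟨y, ?_⟩
      have hy' : x - (x₀ ∘ₗ LinearMap.fst R (G.G (n + 1 + 1)) ((K s).G (n + 1)) :
        C.G (n + 1 + 1) →ₗ[R] M) = y ∘ₗ κ.Q := hy
      rw [← hy']
      apply LinearMap.ext
      intro g
      change x g + x₀ (-_) = x g - x₀ (Prod.fst (α := G.G (n + 1 + 1)) (β := (K s).G (n + 1)) g)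
      rw [map_neg, sub_eq_add_neg]
      rfl
  have hq : ∀ (M : Type u) [AddCommGroup M] [Module R M] (x : C.G (n + 1 + 1) →ₗ[R] M)
      (v : (K s).G (n + 1) →ₗ[R] M), q.Holds x v ↔
      ∃ w : (K s).G (n + 1 + 1) →ₗ[R] M, ∀ k, x ((0, k) : G.G (n + 1 + 1) × (K s).G (n + 1)) - v k =
        w ((K s).δ (n + 1) k) := by
    intro M _ _ x v
    constructor
    · rintro ⟨y, hy⟩
      refine ⟨y, fun k => ?_⟩
      have h := LinearMap.congr_fun hy k
      change x ((0, k) : G.G (n + 1 + 1) × (K s).G (n + 1)) + v (-k) = y ((K s).δ (n + 1) k) at h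
      rw [← h, map_neg, sub_eq_add_neg]
    · rintro ⟨y, hy⟩
      refine ⟨y, ?_⟩
      apply LinearMap.ext
      intro k
      change x ((0, k) : G.G (n + 1 + 1) × (K s).G (n + 1)) + v (-k) = y ((K s).δ (n + 1) k)
      rw [← hy k, map_neg, sub_eq_add_neg]
  have hBZ : ∀ (M : Type u) [AddCommGroup M] [Module R M], C.B (n + 1) M ≤ C.Z (n + 1) M := by
    rintro M _ _ _ ⟨y, rfl⟩
    rw [Cpx.mem_Z, LinearMap.comp_assoc, C.comp, LinearMap.comp_zero]
  refine ⟨Option I, inferInstance, fun i => i.elim s t,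
    fun i => match i with
      | none => q
      | some i => κ.comp (ρ i), ?_, ?_, ?_⟩
  · -- (i)
    rintro (_ | i) M _ _
    · rintro v ⟨x, hx, hxv⟩
      obtain ⟨w, hw⟩ := (hq M x v).1 hxv
      change v ∘ₗ (K s).δ n = 0
      apply LinearMap.ext
      intro k
      have h4 := hw ((K s).δ n k)
      have h5 : (K s).δ (n + 1) ((K s).δ n k) = 0 := LinearMap.congr_fun ((K s).comp n) k
      rw [h5, map_zero, sub_eq_zero] at h4
      have h6 : x (C.δ (n + 1) ((0, -k) : G.G (n + 1) × (K s).G n)) = 0 :=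
        LinearMap.congr_fun hx _
      rw [hδ] at h6
      simp only [map_zero, map_neg, sub_neg_eq_add, zero_add] at h6
      exact h4.symm.trans h6
    · change ((κ.comp (ρ i)).img (C.Z (n + 1) M)) ≤ (K (t i)).Z n M
      rw [Rel.comp_img]
      refine le_trans (Rel.img_mono _ ?_) (h1 i M)
      rintro x₀ ⟨x, hx, hxx⟩
      rw [hκ] at hxx
      have h4 := (C.Z (n + 1) M).sub_mem hx (hBZ M hxx)
      rw [sub_sub_cancel] at h4
      change x₀ ∘ₗ G.δ (n + 1) = 0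
      apply LinearMap.ext
      intro g
      exact LinearMap.congr_fun h4 ((g, 0) : G.G (n + 1) × (K s).G n)
  · -- (ii)
    rintro (_ | i) M _ _
    · rintro _ ⟨y, rfl⟩
      refine ⟨0, rfl, ?_⟩
      refine (hq M _ _).2 ⟨-y, fun k => ?_⟩
      have h4 : (0 : M) - y ((K s).δ (n + 1) k) = -(y ((K s).δ (n + 1) k)) := zero_sub _
      exact h4
    · change (K (t i)).B n M ≤ (κ.comp (ρ i)).img ⊥
      rw [Rel.comp_img]
      refine le_trans (h2 i M) (Rel.img_mono _ bot_le)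
  · -- (iii)
    intro M _ _ A B hBA hBB hAZ himg x hx
    -- groups for G
    let inc : (G.G (n + 1 + 1) →ₗ[R] M) →+ (C.G (n + 1 + 1) →ₗ[R] M) := {
      toFun := fun x₀ => (x₀ ∘ₗ LinearMap.fst R (G.G (n + 1 + 1)) ((K s).G (n + 1)))
      map_zero' := rfl
      map_add' := fun _ _ => rfl }
    have himgκ : ∀ D : AddSubgroup (C.G (n + 1 + 1) →ₗ[R] M), C.B (n + 1) M ≤ D →
        κ.img D = D.comap inc := by
      intro D hD
      ext x₀
      constructor
      · rintro ⟨y, hy, hyx⟩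
        rw [hκ] at hyx
        have := D.sub_mem hy (hD hyx)
        rw [sub_sub_cancel] at this
        exact this
      · intro hx₀
        refine ⟨inc x₀, hx₀, ?_⟩
        rw [hκ]
        have : inc x₀ - (x₀ ∘ₗ LinearMap.fst R (G.G (n + 1 + 1)) ((K s).G (n + 1)) :
          C.G (n + 1 + 1) →ₗ[R] M) = 0 := sub_self _
        rw [this]
        exact (C.B (n + 1) M).zero_mem
    have hmain : A.comap inc ≤ B.comap inc := by
      apply h3 M
      · exact AddSubgroup.comap_mono hBA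
      · rintro _ ⟨y, rfl⟩
        apply hBB
        refine ⟨(y ∘ₗ LinearMap.fst R (G.G (n + 1 + 1 + 1)) ((K s).G (n + 1 + 1)) :
          C.G (n + 1 + 1 + 1) →ₗ[R] M), ?_⟩
        apply LinearMap.ext
        rintro ⟨g, k⟩
        rfl
      · intro x₀ hx₀
        have h4 := hAZ hx₀
        change x₀ ∘ₗ G.δ (n + 1) = 0
        apply LinearMap.ext
        intro g
        exact LinearMap.congr_fun h4 ((g, 0) : G.G (n + 1) × (K s).G n)
      · intro i
        have h4 := himg (some i)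
        change (κ.comp (ρ i)).img A ≤ (κ.comp (ρ i)).img B at h4
        rw [Rel.comp_img, Rel.comp_img, himgκ A (hBB.trans hBA), himgκ B hBB] at h4
        exact h4
    -- use q
    let v : (K s).G (n + 1) →ₗ[R] M :=
      x ∘ₗ (LinearMap.inr R (G.G (n + 1 + 1)) ((K s).G (n + 1)))
    have hv : v ∈ q.img A := ⟨x, hx, (hq M x v).2 ⟨0, fun k => by
      rw [LinearMap.zero_apply, sub_eq_zero]
      rfl⟩⟩
    obtain ⟨x₁, hx₁, hx₁v⟩ := himg none hv
    obtain ⟨w, hw⟩ := (hq M x₁ v).1 hx₁v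
    -- boundary of (0, w)
    let w' : C.G (n + 1 + 1 + 1) →ₗ[R] M :=
      w ∘ₗ (LinearMap.snd R (G.G (n + 1 + 1 + 1)) ((K s).G (n + 1 + 1)))
    have hbd : w' ∘ₗ C.δ (n + 1 + 1) ∈ B := hBB ⟨w', rfl⟩
    let x₀ : G.G (n + 1 + 1) →ₗ[R] M :=
      (x - x₁ - w' ∘ₗ C.δ (n + 1 + 1)) ∘ₗ (LinearMap.inl R (G.G (n + 1 + 1)) ((K s).G (n + 1)))
    have hx₀ : inc x₀ = x - x₁ - w' ∘ₗ C.δ (n + 1 + 1) := by
      apply LinearMap.ext
      rintro ⟨g, k⟩
      set z := x - x₁ - w' ∘ₗ C.δ (n + 1 + 1) with hz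
      have hzk : z ((0, k) : G.G (n + 1 + 1) × (K s).G (n + 1)) = 0 := by
        have h4 := hw k
        change x₁ ((0, k) : G.G (n + 1 + 1) × (K s).G (n + 1)) -
          x ((0, k) : G.G (n + 1 + 1) × (K s).G (n + 1)) = _ at h4
        have h5 : w' (C.δ (n + 1 + 1) ((0, k) : G.G (n + 1 + 1) × (K s).G (n + 1))) =
            -(w ((K s).δ (n + 1) k)) := by
          rw [hδ']
          change w (η (n + 1 + 1) 0 - (K s).δ (n + 1) k) = _
          rw [map_zero, zero_sub, map_neg]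
        have h9 : z ((0, k) : G.G (n + 1 + 1) × (K s).G (n + 1)) =
            x ((0, k) : G.G (n + 1 + 1) × (K s).G (n + 1)) -
            x₁ ((0, k) : G.G (n + 1 + 1) × (K s).G (n + 1)) -
            w' (C.δ (n + 1 + 1) ((0, k) : G.G (n + 1 + 1) × (K s).G (n + 1))) := rfl
        rw [h9, h5, ← h4]
        abel
      change z ((g, 0) : G.G (n + 1 + 1) × (K s).G (n + 1)) =
        z ((g, k) : G.G (n + 1 + 1) × (K s).G (n + 1))
      have h6 : ((g, k) : G.G (n + 1 + 1) × (K s).G (n + 1)) = (g, 0) + (0, k) := by simp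
      have h7 : z ((g, k) : G.G (n + 1 + 1) × (K s).G (n + 1)) =
          z ((g, 0) : G.G (n + 1 + 1) × (K s).G (n + 1)) +
          z ((0, k) : G.G (n + 1 + 1) × (K s).G (n + 1)) := by
        rw [h6]
        exact map_add z _ _
      rw [h7, hzk, add_zero]
    have hx₀A : x₀ ∈ A.comap inc := by
      rw [AddSubgroup.mem_comap, hx₀]
      exact A.sub_mem (A.sub_mem hx (hBA hx₁)) (hBA hbd)
    have hx₀B := hmain hx₀A
    rw [AddSubgroup.mem_comap, hx₀] at hx₀B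
    have h8 := B.add_mem (B.add_mem hx₀B hbd) hx₁
    convert h8 using 1
    abel

end Pool.Agent.Helper173
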