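import Mathlib
import Pool.Agent.Helper173.Dom2

set_option autoImplicit false
universe u v w

namespace Pool.Agent.Helper173

variable {R : Type u} [Ring R]

/-- the family of right ideals `𝔪 s` describes all simple subquotients of `R_R` -/
def Covers {σ : Type u} (𝔪 : σ → RI R) : Prop :=
  ∀ C C' : RI R, C ⋖ C' → ∃ s, ∃ c ∈ C',
      (∀ r, c * r ∈ C ↔ r ∈ 𝔪 s) ∧ (∀ y ∈ C', ∃ r, y - c * r ∈ C)

theorem dom_exists (hop : IsArtinianRing Rᵐᵒᵖ) {σ : Type u} (K : σ → Cpx R)
    (hK : Covers fun s => (K s).I) (C : RI R) : ∃ G : Cpx R, G.I = C ∧ ∀ n, Dom G K n := by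
  have hart := right_artinian hop
  have hnoe := right_noetherian hop
  induction C using WellFoundedLT.induction with
  | ind C ih =>
    by_cases hC : IsMin C
    · exact ⟨zeroCpx R, by rw [zeroCpx_I, hC.eq_bot], zeroCpx_dom K⟩
    · obtain ⟨C₀, hC₀⟩ := exists_covBy_of_wellFoundedGT hC
      obtain ⟨G, hG, hGd⟩ := ih C₀ hC₀.lt
      obtain ⟨s, c, hc, hcm, hcg⟩ := hK C₀ C hC₀
      obtain ⟨η, hη, h0⟩ := exists_chain G (K s) c (fun r hr => by
        rw [hG]; exact (hcm r).2 hr)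
      have hc' : ∀ r, c * r ∈ G.I → r ∈ (K s).I := fun r hr => by
        rw [hG] at hr; exact (hcm r).1 hr
      refine ⟨cone G (K s) η hη c hc' h0, ?_, fun n =>
        cone_dom K n G (hGd n) s η hη c hc' h0⟩
      ext y
      rw [mem_cone_I, hG]
      constructor
      · rintro ⟨a, ha, r, rfl⟩
        exact C.add_mem (hC₀.le ha) (RI.mul_mem C hc r)
      · intro hy
        obtain ⟨r, hr⟩ := hcg y hy
        exact ⟨y - c * r, hr, r, by abel⟩

/-- state of the recursion building a resolution -/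
structure St (R : Type u) [Ring R] where
  b : ℕ
  b' : ℕ
  d : (Fin b → R) →ₗ[R] (Fin b' → R)

theorem step_exists (hop : IsArtinianRing Rᵐᵒᵖ) (b b' : ℕ)
    (d : (Fin b → R) →ₗ[R] (Fin b' → R)) :
    ∃ (b'' : ℕ) (d' : (Fin b' → R) →ₗ[R] (Fin b'' → R)), d' ∘ₗ d = 0 ∧
      ∀ x : (Fin b' → R) →ₗ[R] R, x ∘ₗ d = 0 → ∃ y : (Fin b'' → R) →ₗ[R] R, x = y ∘ₗ d' := by
  have hnoe := right_noetherian hop
  let ev : ((Fin b' → R) →ₗ[R] R) →ₗ[Rᵐᵒᵖ] (Fin b' → R) := {
    toFun := fun x i => x (Pi.single i 1)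
    map_add' := fun _ _ => rfl
    map_smul' := fun _ _ => rfl }
  have hev : Function.Injective ev := by
    intro x y hxy
    apply LinearMap.pi_ext'
    intro i
    apply LinearMap.ext_ring
    exact congrFun hxy i
  have hn : IsNoetherian Rᵐᵒᵖ ((Fin b' → R) →ₗ[R] R) := isNoetherian_of_injective ev hev
  let S : Submodule Rᵐᵒᵖ ((Fin b' → R) →ₗ[R] R) := {
    carrier := {x | x ∘ₗ d = 0}
    zero_mem' := LinearMap.zero_comp _
    add_mem' := by
      intro x y hx hy
      change (x + y) ∘ₗ d = 0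
      rw [LinearMap.add_comp, hx, hy, add_zero]
    smul_mem' := by
      intro r x hx
      change (r • x) ∘ₗ d = 0
      apply LinearMap.ext
      intro g
      change r • (x (d g)) = 0
      have : x (d g) = 0 := LinearMap.congr_fun hx g
      rw [this, smul_zero] }
  obtain ⟨n, f, hf⟩ := Submodule.fg_iff_exists_fin_generating_family.1 (hn.noetherian S)
  have hfS : ∀ i, f i ∈ S := fun i => by
    rw [← hf]; exact Submodule.subset_span ⟨i, rfl⟩
  refine ⟨n, LinearMap.pi f, ?_, ?_⟩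
  · apply LinearMap.ext
    intro g
    ext i
    exact LinearMap.congr_fun (hfS i) g
  · intro x hx
    have hxS : x ∈ S := hx
    rw [← hf, Submodule.mem_span_range_iff_exists_fun] at hxS
    obtain ⟨c, rfl⟩ := hxS
    refine ⟨Fintype.linearCombination R fun i => (c i).unop, ?_⟩
    apply LinearMap.ext
    intro g
    rw [LinearMap.comp_apply, Fintype.linearCombination_apply, LinearMap.sum_apply]
    rfl

theorem cpx_exists (hop : IsArtinianRing Rᵐᵒᵖ) (C : RI R) : ∃ G : Cpx R, G.I = C := by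
  have hnoe := right_noetherian hop
  obtain ⟨n, f, hf⟩ := Submodule.fg_iff_exists_fin_generating_family.1 (hnoe.noetherian C)
  let step' : St R → St R := fun st =>
    ⟨st.b', (step_exists hop st.b st.b' st.d).choose,
      (step_exists hop st.b st.b' st.d).choose_spec.choose⟩
  have hstep : ∀ st : St R, (step' st).d ∘ₗ st.d = 0 ∧
      ∀ x : (Fin st.b' → R) →ₗ[R] R, x ∘ₗ st.d = 0 →
        ∃ y : (Fin (step' st).b' → R) →ₗ[R] R, x = y ∘ₗ (step' st).d := fun st =>
    (step_exists hop st.b st.b' st.d).choose_spec.choose_spec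
  let d0 : (Fin 1 → R) →ₗ[R] (Fin n → R) :=
    LinearMap.pi fun i => (LinearMap.toSpanSingleton R R (f i)) ∘ₗ LinearMap.proj 0
  let seq : ℕ → St R := fun k => Nat.rec ⟨1, n, d0⟩ (fun _ st => step' st) k
  let G : Cpx R := {
    G := fun k => Fin (seq k).b → R
    δ := fun k => (seq k).d
    comp := fun k => (hstep (seq k)).1
    exact := fun k => (hstep (seq k)).2
    e0 := (LinearEquiv.funUnique (Fin 1) R R).symm }
  refine ⟨G, ?_⟩
  have hgen : G.gen = (f : Fin n → R) := by
    change d0 ((LinearEquiv.funUnique (Fin 1) R R).symm 1) = f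
    ext i
    simp [d0]
  ext y
  rw [Cpx.mem_I, ← hf, Submodule.mem_span_range_iff_exists_fun, hgen]
  constructor
  · rintro ⟨u', rfl⟩
    let u : (Fin n → R) →ₗ[R] R := u'
    refine ⟨fun i => MulOpposite.op (u (Pi.single i 1)), ?_⟩
    change _ = u f
    conv_rhs => rw [pi_eq_sum_univ' f]
    rw [map_sum]
    refine Finset.sum_congr rfl fun i _ => ?_
    rw [map_smul]
    rfl
  · rintro ⟨c, rfl⟩
    refine ⟨(Fintype.linearCombination R fun i => (c i).unop : (Fin n → R) →ₗ[R] R), ?_⟩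
    change (Fintype.linearCombination R fun i => (c i).unop : (Fin n → R) →ₗ[R] R) f = _
    rw [Fintype.linearCombination_apply]
    rfl

theorem levels_exist (hop : IsArtinianRing Rᵐᵒᵖ) {σ : Type u} (𝔪 : σ → RI R)
    (h𝔪 : Covers 𝔪) : ∃ K : ℕ → σ → Cpx R, (∀ n s, (K n s).I = 𝔪 s) ∧
      ∀ n s m, Dom (K (n + 1) s) (K n) m := by
  let Fam := {K : σ → Cpx R // ∀ s, (K s).I = 𝔪 s}
  have h0 : Nonempty Fam := by
    choose K hK using fun s => cpx_exists hop (𝔪 s)
    exact ⟨⟨K, hK⟩⟩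
  have hs : ∀ F : Fam, ∃ F' : Fam, ∀ s m, Dom (F'.1 s) F.1 m := by
    rintro ⟨K, hK⟩
    have hc : Covers fun s => (K s).I := by
      have : (fun s => (K s).I) = 𝔪 := funext hK
      rw [this]
      exact h𝔪
    choose K' hK' hd using fun s => dom_exists hop K hc (𝔪 s)
    exact ⟨⟨K', hK'⟩, hd⟩
  choose st hst using hs
  let seq : ℕ → Fam := fun n => Nat.rec h0.some (fun _ F => st F) n
  exact ⟨fun n => (seq n).1, fun n => (seq n).2, fun n => hst (seq n)⟩

end Pool.Agent.Helper173
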