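import Mathlib
import Pool.Agent.Helper173.Levels

set_option autoImplicit false
universe u v w

open CategoryTheory in
theorem Pool.Agent.Helper173.konig (N : ℕ → Type v) [∀ n, Finite (N n)]
    (par : ∀ n, N (n + 1) → N n)
    (good : ∀ n, N n → Prop) (hg : ∀ n x, good (n + 1) x → good n (par n x))
    (hne : ∀ n, ∃ x, good n x) :
    ∃ x : ∀ n, N n, (∀ n, good n (x n)) ∧ ∀ n, par n (x (n + 1)) = x n := by
  let F : ℕ → Type v := fun n => {x : N n // good n x}
  let f : ∀ n, F (n + 1) ⟶ F n := fun n => ↾(fun x => ⟨par n x.1, hg n x.1 x.2⟩)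
  have h1 : ∀ j : ℕᵒᵖ, Finite ((Functor.ofOpSequence f).obj j) := fun j =>
    inferInstanceAs (Finite {x : N j.unop // good j.unop x})
  have h2 : ∀ j : ℕᵒᵖ, Nonempty ((Functor.ofOpSequence f).obj j) := fun j => by
    obtain ⟨x, hx⟩ := hne j.unop
    exact ⟨⟨x, hx⟩⟩
  obtain ⟨s, hs⟩ := nonempty_sections_of_finite_inverse_system (Functor.ofOpSequence f)
  refine ⟨fun n => (s (Opposite.op n)).1, fun n => (s (Opposite.op n)).2, fun n => ?_⟩
  have h3 := hs (homOfLE (Nat.le_add_right n 1)).op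
  rw [Functor.ofOpSequence_map_homOfLE_succ] at h3
  exact congrArg Subtype.val h3

namespace Pool.Agent.Helper173

variable {R : Type u} [Ring R]

/-- coded pair for vanishing -/
theorem pair_of_van (K : Cpx R) (n : ℕ) : ∃ p : PPPair R, ∀ (M : Type u) [AddCommGroup M]
    [Module R M], p.Holds M ↔ K.Van n M := by
  obtain ⟨b, ⟨e⟩⟩ := (K.ff (n + 1)).ex
  obtain ⟨φ, hφ⟩ := code_formula (R := R) (b := b) (e.toLinearMap ∘ₗ K.δ n)
    (0 : K.G n →ₗ[R] (Fin 0 → R))
  obtain ⟨ψ, hψ⟩ := code_formula (R := R) (b := b) e.toLinearMap (K.δ (n + 1))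
  refine ⟨⟨b, φ, ψ⟩, fun M _ _ => ?_⟩
  constructor
  · intro h x hx
    have h1 : Sat φ (x ∘ₗ e.symm.toLinearMap) := by
      rw [hφ]
      refine ⟨0, ?_⟩
      rw [LinearMap.comp_zero, ← hx]
      apply LinearMap.ext
      intro g
      simp
    have h2 := h _ h1
    rw [hψ] at h2
    obtain ⟨y, hy⟩ := h2
    refine ⟨y, ?_⟩
    rw [← hy]
    apply LinearMap.ext
    intro g
    simp
  · intro h x hx
    change Sat φ x at hx
    change Sat ψ x
    rw [hφ] at hx
    rw [hψ]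
    obtain ⟨y, hy⟩ := hx
    apply h
    rw [LinearMap.comp_assoc, hy, LinearMap.comp_zero]

/-- Krause-type lemma: a pair open on some module of a definable class is open on an
indecomposable pure-injective of the class. -/
theorem exists_point (Φ : Set (PPPair R)) (p : PPPair R) (M : Type u) [AddCommGroup M]
    [Module R M] (hM : InD Φ M) (hp : ¬ p.Holds M) :
    ∃ (N : Type u) (_ : AddCommGroup N) (_ : Module R N), IsZg R N ∧ InD Φ N ∧ ¬ p.Holds N := by
  have hp' : ∃ x : (Fin p.b → R) →ₗ[R] M, Sat p.φ x ∧ ¬ Sat p.ψ x := by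
    by_contra hcon
    push Not at hcon
    exact hp hcon
  obtain ⟨N, i1, i2, hN, hΦ, x, hx⟩ := hull Φ (fun _ => p.φ) (fun _ => p.ψ)
    (fun _ _ _ _ _ h => h) (fun _ _ _ _ _ h => h) (fun _ => ⟨M, inferInstance, inferInstance, hM, hp'⟩)
  refine ⟨N, i1, i2, hN, hΦ, fun h => (hx 0).2 (h x (hx 0).1)⟩

section codes
variable {W : Type u} [AddCommGroup W] [Module R W] {b : ℕ} (e : W ≃ₗ[R] (Fin b → R))

theorem code_Z (K : Cpx R) (n : ℕ) (τ : Rel R (K.G (n + 1)) W) :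
    ∃ φ : PPF R b, ∀ (M : Type u) [AddCommGroup M] [Module R M] (x : (Fin b → R) →ₗ[R] M),
      Sat φ x ↔ x ∘ₗ e.toLinearMap ∈ τ.img (K.Z n M) := by
  obtain ⟨φ, hφ⟩ := code_formula (R := R) (b := b) (U := K.G n × τ.U) (V := τ.V × K.G (n + 1))
    (e.toLinearMap ∘ₗ τ.P₂ ∘ₗ LinearMap.snd R _ _)
    (LinearMap.prod (τ.Q ∘ₗ LinearMap.snd R _ _)
      (K.δ n ∘ₗ LinearMap.fst R _ _ - τ.P₁ ∘ₗ LinearMap.snd R _ _))
  refine ⟨φ, fun M _ _ x => ?_⟩
  rw [hφ]
  constructor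
  · rintro ⟨y, hy⟩
    have hy' : ∀ (g : K.G n) (u : τ.U), x (e (τ.P₂ u)) = y (τ.Q u, K.δ n g - τ.P₁ u) :=
      fun g u => LinearMap.congr_fun hy (g, u)
    refine ⟨y ∘ₗ LinearMap.inr R _ _, ?_, y ∘ₗ LinearMap.inl R _ _, ?_⟩
    · rw [Cpx.mem_Z]
      apply LinearMap.ext
      intro g
      have := hy' g 0
      simp only [map_zero, sub_zero] at this
      exact this.symm
    · apply LinearMap.ext
      intro u
      have := hy' 0 u
      simp only [map_zero, zero_sub] at this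
      change y (0, τ.P₁ u) + x (e (τ.P₂ u)) = y (τ.Q u, 0)
      rw [this, ← map_add]
      congr 1
      simp
  · rintro ⟨z, hz, y, hy⟩
    refine ⟨LinearMap.coprod y z, ?_⟩
    apply LinearMap.ext
    rintro ⟨g, u⟩
    have h1 : z (K.δ n g) = 0 := LinearMap.congr_fun hz g
    have h2 : z (τ.P₁ u) + x (e (τ.P₂ u)) = y (τ.Q u) := LinearMap.congr_fun hy u
    change x (e (τ.P₂ u)) = y (τ.Q u) + z (K.δ n g - τ.P₁ u)
    rw [← h2, map_sub, h1]
    abel

theorem code_B (K : Cpx R) (n : ℕ) (τ : Rel R (K.G (n + 1)) W) :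
    ∃ φ : PPF R b, ∀ (M : Type u) [AddCommGroup M] [Module R M] (x : (Fin b → R) →ₗ[R] M),
      Sat φ x ↔ x ∘ₗ e.toLinearMap ∈ τ.img (K.B n M) := by
  obtain ⟨φ, hφ⟩ := code_formula (R := R) (b := b) (U := τ.U) (V := τ.V × K.G (n + 2))
    (e.toLinearMap ∘ₗ τ.P₂)
    (LinearMap.prod τ.Q (-(K.δ (n + 1) ∘ₗ τ.P₁)))
  refine ⟨φ, fun M _ _ x => ?_⟩
  rw [hφ]
  constructor
  · rintro ⟨y, hy⟩
    have hy' : ∀ (u : τ.U), x (e (τ.P₂ u)) = y (τ.Q u, -(K.δ (n + 1) (τ.P₁ u))) :=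
      fun u => LinearMap.congr_fun hy u
    refine ⟨(y ∘ₗ LinearMap.inr R _ _) ∘ₗ K.δ (n + 1), ⟨y ∘ₗ LinearMap.inr R _ _, rfl⟩,
      y ∘ₗ LinearMap.inl R _ _, ?_⟩
    apply LinearMap.ext
    intro u
    change y (0, K.δ (n + 1) (τ.P₁ u)) + x (e (τ.P₂ u)) = y (τ.Q u, 0)
    rw [hy', ← map_add]
    congr 1
    simp
  · rintro ⟨_, ⟨w, rfl⟩, y, hy⟩
    refine ⟨LinearMap.coprod y w, ?_⟩
    apply LinearMap.ext
    intro u
    have h2 : w (K.δ (n + 1) (τ.P₁ u)) + x (e (τ.P₂ u)) = y (τ.Q u) := LinearMap.congr_fun hy u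
    change x (e (τ.P₂ u)) = y (τ.Q u) + w (-(K.δ (n + 1) (τ.P₁ u)))
    rw [← h2, map_neg]
    abel

end codes

/-- paths -/
def Path {σ : Type u} (I : ℕ → σ → Type) (tgt : ∀ n s, I n s → σ) : ℕ → σ → Type
  | 0, _ => Unit
  | n + 1, s => Σ i : I n s, Path I tgt n (tgt n s i)

theorem path_finite {σ : Type u} (I : ℕ → σ → Type) (hI : ∀ n s, Finite (I n s))
    (tgt : ∀ n s, I n s → σ) : ∀ n s, Finite (Path I tgt n s)
  | 0, _ => inferInstanceAs (Finite Unit)
  | n + 1, s => by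
    have h1 := hI n s
    have h2 : ∀ i : I n s, Finite (Path I tgt n (tgt n s i)) := fun i =>
      path_finite I hI tgt n _
    exact inferInstanceAs (Finite (Σ i : I n s, Path I tgt n (tgt n s i)))

section main
variable {σ : Type u} [Finite σ] (K : ℕ → σ → Cpx R) (I : ℕ → σ → Type)
  (tgt : ∀ n s, I n s → σ)
  (ρ : ∀ n s (i : I n s), Rel R ((K (n + 1) s).G (n + 1 + 1)) ((K n (tgt n s i)).G (n + 1)))

/-- the common base -/
abbrev WW : Type u := ∀ s : σ, (K 0 s).G 1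

open Classical in
/-- inclusion of a component in the base -/
noncomputable def incW (s : σ) : (K 0 s).G 1 →ₗ[R] WW K :=
  LinearMap.single R (fun s => (K 0 s).G 1) s

omit [Finite σ] in
theorem incW_same (s : σ) (g : (K 0 s).G 1) : incW K s g s = g := by
  unfold incW
  rw [LinearMap.single_apply]
  simp

/-- base relation -/
noncomputable def baseRel (s : σ) : Rel R ((K 0 s).G 1) (WW K) :=
  { U := (K 0 s).G 1
    V := (Fin 0 → R)
    P₁ := LinearMap.id
    P₂ := -(incW K s)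
    Q := 0 }

omit [Finite σ] in
theorem baseRel_holds (s : σ) {M : Type u} [AddCommGroup M] [Module R M]
    (x : (K 0 s).G 1 →ₗ[R] M) (x₀ : WW K →ₗ[R] M) :
    (baseRel K s).Holds x x₀ ↔ ∀ g, x g = x₀ (incW K s g) := by
  constructor
  · rintro ⟨y, hy⟩ g
    have h := LinearMap.congr_fun hy g
    change x g + x₀ (-(incW K s g)) = y 0 at h
    rw [map_neg, map_zero, add_neg_eq_zero] at h
    exact h
  · intro h
    refine ⟨0, ?_⟩
    apply LinearMap.ext
    intro g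
    change x g + x₀ (-(incW K s g)) = 0
    rw [map_neg, ← h g, add_neg_cancel]

/-- relation of a path -/
noncomputable def prel : ∀ n s (_ : Path I tgt n s), Rel R ((K n s).G (n + 1)) (WW K)
  | 0, s, _ => baseRel K s
  | n + 1, s, p => (ρ n s p.1).comp (prel n _ p.2)

omit [Finite σ] in
theorem baseRel_sep (s : σ) {M : Type u} [AddCommGroup M] [Module R M]
    (A B : AddSubgroup ((K 0 s).G 1 →ₗ[R] M)) (h : ¬ A ≤ B) :
    ¬ (baseRel K s).img A ≤ (baseRel K s).img B := by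
  intro hcon
  apply h
  intro x hx
  have h1 : x ∘ₗ LinearMap.proj s ∈ (baseRel K s).img A := by
    refine ⟨x, hx, (baseRel_holds K s _ _).2 fun g => ?_⟩
    change x g = x (incW K s g s)
    rw [incW_same]
  obtain ⟨y, hy, hz⟩ := hcon h1
  rw [baseRel_holds] at hz
  have h2 : y = x := by
    apply LinearMap.ext
    intro g
    have h3 : y g = x (incW K s g s) := hz g
    rw [h3, incW_same]
  rw [← h2]
  exact hy

variable
  (h1 : ∀ n s i (M : Type u) [AddCommGroup M] [Module R M],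
    (ρ n s i).img ((K (n + 1) s).Z (n + 1) M) ≤ (K n (tgt n s i)).Z n M)
  (h2 : ∀ n s i (M : Type u) [AddCommGroup M] [Module R M],
    (K n (tgt n s i)).B n M ≤ (ρ n s i).img ⊥)
  (h3 : ∀ n s (M : Type u) [AddCommGroup M] [Module R M]
    (A B : AddSubgroup ((K (n + 1) s).G (n + 1 + 1) →ₗ[R] M)),
      B ≤ A → (K (n + 1) s).B (n + 1) M ≤ B → A ≤ (K (n + 1) s).Z (n + 1) M →
        (∀ i, (ρ n s i).img A ≤ (ρ n s i).img B) → A ≤ B)

include h1 h2 h3 in
theorem exists_path (M : Type u) [AddCommGroup M] [Module R M] : ∀ (n : ℕ) (s : σ)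
    (A B : AddSubgroup ((K n s).G (n + 1) →ₗ[R] M)), B ≤ A → (K n s).B n M ≤ B →
    A ≤ (K n s).Z n M → ¬ A ≤ B →
    ∃ p : Path I tgt n s, ¬ (prel K I tgt ρ n s p).img A ≤ (prel K I tgt ρ n s p).img B := by
  intro n
  induction n with
  | zero =>
    intro s A B _ _ _ h
    exact ⟨(), baseRel_sep K s A B h⟩
  | succ n ih =>
    intro s A B hBA hB hA h
    have : ∃ i, ¬ (ρ n s i).img A ≤ (ρ n s i).img B := by
      by_contra hcon
      push Not at hcon
      exact h (h3 n s M A B hBA hB hA hcon)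
    obtain ⟨i, hi⟩ := this
    obtain ⟨p, hp⟩ := ih (tgt n s i) ((ρ n s i).img A) ((ρ n s i).img B)
      (Rel.img_mono _ hBA) ((h2 n s i M).trans (Rel.img_mono _ bot_le))
      ((Rel.img_mono _ hA).trans (h1 n s i M)) hi
    refine ⟨⟨i, p⟩, ?_⟩
    change ¬ ((ρ n s i).comp (prel K I tgt ρ n _ p)).img A ≤
      ((ρ n s i).comp (prel K I tgt ρ n _ p)).img B
    rw [Rel.comp_img, Rel.comp_img]
    exact hp

end main

end Pool.Agent.Helper173
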