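import Mathlib
import Pool.Agent.Helper173.Paths

set_option autoImplicit false
universe u v w

namespace Pool.Agent.Helper173

variable {R : Type u} [Ring R]

theorem core (hl : IsArtinianRing R) (hop : IsArtinianRing Rᵐᵒᵖ)
    (hcl : ∀ (N : Type u) [AddCommGroup N] [Module R N], IsZg R N → (∀ m, ¬ pdLE R m N) →
      ∃ p : PPPair R, ¬ p.Holds N ∧ ∀ (M : Type u) [AddCommGroup M] [Module R M],
        IsZg R M → (∃ m, pdLE R m M) → p.Holds M) :
    ∃ n : ℕ, ∀ (M : Type u) [AddCommGroup M] [Module R M], (∃ m, pdLE R m M) → pdLE R n M := by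
  by_contra hcon
  push Not at hcon
  -- simple modules
  obtain ⟨S, hSf, hS⟩ := exists_simple_family (R := R) hop
  have hfinσ : Finite S := hSf
  let 𝔪 : S → RI R := fun s => s.1
  have h𝔪 : Covers 𝔪 := by
    intro C C' hCC
    obtain ⟨m, hm, c, hc, h1, h2⟩ := hS C C' hCC
    exact ⟨⟨m, hm⟩, c, hc, h1, h2⟩
  obtain ⟨K, hI, hD⟩ := levels_exist hop 𝔪 h𝔪
  have hcov : ∀ n, ∀ C C' : RI R, C ⋖ C' → ∃ s, ∃ c ∈ C',
      (∀ r, c * r ∈ C ↔ r ∈ (K n s).I) ∧ (∀ y ∈ C', ∃ r, y - c * r ∈ C) := by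
    intro n C C' hCC
    obtain ⟨s, c, hc, h1, h2⟩ := h𝔪 C C' hCC
    exact ⟨s, c, hc, by rw [hI]; exact h1, h2⟩
  choose I hfin tgt ρ h1 h2 h3 using fun n s => hD n s n
  -- points of arbitrarily large finite projective dimension
  have krause : ∀ n, ∃ (N : Type u) (_ : AddCommGroup N) (_ : Module R N), IsZg R N ∧
      (∃ m, pdLE R m N) ∧ ∃ s, ¬ (K n s).Van n N := by
    intro n
    obtain ⟨M, i1, i2, ⟨m, hm⟩, hn⟩ := hcon n
    have hs : ∃ s, ¬ (K n s).Van n M := by
      by_contra hc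
      push Not at hc
      exact hn (pdLE_of_van hop (K n) (hcov n) n M hc)
    obtain ⟨s, hs⟩ := hs
    choose q hq using fun s' => pair_of_van (K 0 s') m
    obtain ⟨p, hp⟩ := pair_of_van (K n s) n
    obtain ⟨N, j1, j2, hN, hND, hpN⟩ := exists_point (Set.range q) p M (by
      rintro _ ⟨s', rfl⟩
      rw [hq]
      exact van_of_pdLE _ m M hm m le_rfl) (by rw [hp]; exact hs)
    refine ⟨N, j1, j2, hN, ⟨m, ?_⟩, s, ?_⟩
    · apply pdLE_of_van hop (K 0) (hcov 0)
      intro s'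
      rw [← hq]
      exact hND _ ⟨s', rfl⟩
    · rw [← hp]
      exact hpN
  -- nodes
  let ND : ℕ → Type u := fun n => Σ s : S, Path I tgt n s
  have hNDf : ∀ n, Finite (ND n) := fun n => by
    have := fun s => path_finite I hfin tgt n s
    exact inferInstanceAs (Finite (Σ s : S, Path I tgt n s))
  let par : ∀ n, ND (n + 1) → ND n := fun n x =>
    ⟨tgt n x.1 (x.2 : Σ i : I n x.1, Path I tgt n (tgt n x.1 i)).1,
      (x.2 : Σ i : I n x.1, Path I tgt n (tgt n x.1 i)).2⟩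
  let As : ∀ (n) (_ : ND n) (M : Type u) [AddCommGroup M] [Module R M],
      AddSubgroup (WW K →ₗ[R] M) := fun n x M _ _ =>
    (prel K I tgt ρ n x.1 x.2).img ((K n x.1).Z n M)
  let Bs : ∀ (n) (_ : ND n) (M : Type u) [AddCommGroup M] [Module R M],
      AddSubgroup (WW K →ₗ[R] M) := fun n x M _ _ =>
    (prel K I tgt ρ n x.1 x.2).img ((K n x.1).B n M)
  have hAs : ∀ n x (M : Type u) [AddCommGroup M] [Module R M],
      As (n + 1) x M ≤ As n (par n x) M := by
    rintro n ⟨s, ⟨i, p⟩⟩ M _ _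
    change ((ρ n s i).comp (prel K I tgt ρ n _ p)).img ((K (n + 1) s).Z (n + 1) M) ≤
      (prel K I tgt ρ n _ p).img ((K n _).Z n M)
    rw [Rel.comp_img]
    exact Rel.img_mono _ (h1 n s i M)
  have hBs : ∀ n x (M : Type u) [AddCommGroup M] [Module R M],
      Bs n (par n x) M ≤ Bs (n + 1) x M := by
    rintro n ⟨s, ⟨i, p⟩⟩ M _ _
    change (prel K I tgt ρ n _ p).img ((K n _).B n M) ≤
      ((ρ n s i).comp (prel K I tgt ρ n _ p)).img ((K (n + 1) s).B (n + 1) M)
    rw [Rel.comp_img]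
    exact Rel.img_mono _ ((h2 n s i M).trans (Rel.img_mono _ bot_le))
  let good : ∀ n, ND n → Prop := fun n x => ∃ (M : Type u) (_ : AddCommGroup M)
    (_ : Module R M), IsZg R M ∧ (∃ m, pdLE R m M) ∧ ¬ As n x M ≤ Bs n x M
  have hgood : ∀ n x, good (n + 1) x → good n (par n x) := by
    rintro n x ⟨M, i1, i2, hM, hm, hx⟩
    refine ⟨M, i1, i2, hM, hm, fun h => hx ?_⟩
    exact (hAs n x M).trans (h.trans (hBs n x M))
  have hne : ∀ n, ∃ x, good n x := by
    intro n
    obtain ⟨N, i1, i2, hN, hm, s, hs⟩ := krause n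
    have hBZ : (K n s).B n N ≤ (K n s).Z n N := by
      rintro _ ⟨y, rfl⟩
      rw [Cpx.mem_Z, LinearMap.comp_assoc, (K n s).comp, LinearMap.comp_zero]
    obtain ⟨p, hp⟩ := exists_path K I tgt ρ (fun n s i M _ _ => h1 n s i M)
      (fun n s i M _ _ => h2 n s i M) (fun n s M _ _ => h3 n s M) N n s _ _ hBZ le_rfl le_rfl
      (by rw [← Cpx.van_iff]; exact hs)
    exact ⟨⟨s, p⟩, N, i1, i2, hN, hm, hp⟩
  obtain ⟨x, hxg, hxp⟩ := konig ND par good hgood hne
  -- coding
  obtain ⟨b, ⟨e⟩⟩ := (ffPi (R := R) (fun s : S => (K 0 s).G 1)).ex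
  choose A hA using fun n => code_Z e (K n (x n).1) n (prel K I tgt ρ n (x n).1 (x n).2)
  choose B hB using fun n => code_B e (K n (x n).1) n (prel K I tgt ρ n (x n).1 (x n).2)
  have hA' : ∀ n (M : Type u) [AddCommGroup M] [Module R M] (y : (Fin b → R) →ₗ[R] M),
      Sat (A n) y ↔ y ∘ₗ e.toLinearMap ∈ As n (x n) M := fun n M _ _ y => hA n M y
  have hB' : ∀ n (M : Type u) [AddCommGroup M] [Module R M] (y : (Fin b → R) →ₗ[R] M),
      Sat (B n) y ↔ y ∘ₗ e.toLinearMap ∈ Bs n (x n) M := fun n M _ _ y => hB n M y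
  let Φ : Set (PPPair R) := {p | ∀ (M : Type u) [AddCommGroup M] [Module R M],
        IsZg R M → (∃ m, pdLE R m M) → p.Holds M}
  obtain ⟨N, i1, i2, hN, hND, y, hy⟩ := hull Φ A B (by
      intro n M _ _ y h
      rw [hA'] at h ⊢
      have := hAs n (x (n + 1)) M h
      rwa [hxp] at this) (by
      intro n M _ _ y h
      rw [hB'] at h ⊢
      apply hBs n (x (n + 1)) M
      rwa [hxp]) (by
      intro n
      obtain ⟨M, i1, i2, hM, hm, hx⟩ := hxg n
      refine ⟨M, i1, i2, fun p hp => hp M hM hm, ?_⟩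
      obtain ⟨y, hyA, hyB⟩ := SetLike.not_le_iff_exists.1 hx
      have hye : (y ∘ₗ e.symm.toLinearMap) ∘ₗ e.toLinearMap = y := by
        apply LinearMap.ext
        intro g
        simp
      refine ⟨y ∘ₗ e.symm.toLinearMap, ?_, ?_⟩
      · rw [hA', hye]
        exact hyA
      · rw [hB', hye]
        exact hyB)
  have hnv : ∀ n, ¬ (K n (x n).1).Van n N := by
    intro n hv
    rw [Cpx.van_iff] at hv
    obtain ⟨ha, hb⟩ := hy n
    rw [hA'] at ha
    rw [hB'] at hb
    exact hb (Rel.img_mono _ hv ha)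
  have hpd : ∀ m, ¬ pdLE R m N := fun m hm => hnv m (van_of_pdLE _ m N hm m le_rfl)
  obtain ⟨p, hpN, hpΦ⟩ := hcl N hN hpd
  exact hpN (hND p hpΦ)

theorem pair_of_map (X Y : Type u) [AddCommGroup X] [Module R X] [AddCommGroup Y] [Module R Y]
    (hX : Module.FinitePresentation R X) (hY : Module.FinitePresentation R Y) (f : X →ₗ[R] Y) :
    ∃ p : PPPair R, ∀ (M : Type u) [AddCommGroup M] [Module R M],
      p.Holds M ↔ ∀ g : X →ₗ[R] M, ∃ h : Y →ₗ[R] M, h ∘ₗ f = g := by
  have key : ∀ (Z : Type u) [AddCommGroup Z] [Module R Z] (_ : Module.FinitePresentation R Z),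
      ∃ (n m : ℕ) (π : (Fin n → R) →ₗ[R] Z) (P : (Fin m → R) →ₗ[R] (Fin n → R)),
        Function.Surjective π ∧ LinearMap.ker π = LinearMap.range P := by
    intro Z _ _ hZ
    obtain ⟨n, K, e, hK⟩ := Module.FinitePresentation.exists_fin R Z
    obtain ⟨m, k, hk⟩ := Submodule.fg_iff_exists_fin_generating_family.1 hK
    refine ⟨n, m, e.symm.toLinearMap ∘ₗ K.mkQ, Fintype.linearCombination R k, ?_, ?_⟩
    · exact e.symm.surjective.comp (Submodule.mkQ_surjective K)
    · rw [LinearMap.ker_comp, LinearEquiv.ker, ← LinearMap.ker, Submodule.ker_mkQ,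
        Fintype.range_linearCombination, hk]
  obtain ⟨n, m, π, P, hπ, hP⟩ := key X hX
  obtain ⟨n', m', π', P', hπ', hP'⟩ := key Y hY
  obtain ⟨ft, hft⟩ := Module.projective_lifting_property π' (f ∘ₗ π) hπ'
  obtain ⟨φ, hφ⟩ := code_formula (R := R) (b := n) (U := Fin m → R) (V := Fin 0 → R) P 0
  obtain ⟨ψ, hψ⟩ := code_formula (R := R) (b := n) (U := (Fin m' → R) × (Fin n → R))
    (V := Fin n' → R) (LinearMap.snd R _ _) (LinearMap.coprod P' ft)
  have hft' : ∀ w, π' (ft w) = f (π w) := fun w => LinearMap.congr_fun hft w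
  refine ⟨⟨n, φ, ψ⟩, fun M _ _ => ?_⟩
  constructor
  · intro h g
    obtain ⟨y, hy⟩ := (hψ M _).1 (h (g ∘ₗ π) ((hφ M _).2 ⟨0, by
      apply LinearMap.ext
      intro u
      have : π (P u) = 0 := by
        have : P u ∈ LinearMap.ker π := by rw [hP]; exact ⟨u, rfl⟩
        exact this
      change g (π (P u)) = 0
      rw [this, map_zero]⟩))
    have hy' : ∀ u w, g (π w) = y (P' u + ft w) := fun u w => LinearMap.congr_fun hy (u, w)
    have hyP : ∀ u, y (P' u) = 0 := by
      intro u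
      have := hy' u 0
      simpa using this.symm
    have hker : LinearMap.ker π' ≤ LinearMap.ker y := by
      rw [hP']
      rintro _ ⟨u, rfl⟩
      exact hyP u
    obtain ⟨h', hh'⟩ : ∃ h' : Y →ₗ[R] M, h' ∘ₗ π' = y := by
      refine ⟨(LinearMap.ker π').liftQ y hker ∘ₗ
        (LinearMap.quotKerEquivOfSurjective π' hπ').symm.toLinearMap, ?_⟩
      apply LinearMap.ext
      intro w
      have h5 : (LinearMap.quotKerEquivOfSurjective π' hπ').symm (π' w) =
          (LinearMap.ker π').mkQ w := by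
        rw [LinearEquiv.symm_apply_eq]
        rfl
      simp only [LinearMap.comp_apply, LinearEquiv.coe_coe]
      rw [h5]
      rfl
    refine ⟨h', ?_⟩
    apply LinearMap.ext
    intro z
    obtain ⟨w, rfl⟩ := hπ z
    have h6 := hy' 0 w
    rw [map_zero, zero_add] at h6
    rw [LinearMap.comp_apply, ← hft', h6, ← hh']
    rfl
  · intro h x hx
    change Sat φ x at hx
    change Sat ψ x
    rw [hφ] at hx
    rw [hψ]
    obtain ⟨z, hz⟩ := hx
    have hker : LinearMap.ker π ≤ LinearMap.ker x := by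
      rw [hP]
      rintro _ ⟨u, rfl⟩
      have := LinearMap.congr_fun hz u
      simpa using this
    obtain ⟨g, hg⟩ : ∃ g : X →ₗ[R] M, g ∘ₗ π = x := by
      refine ⟨(LinearMap.ker π).liftQ x hker ∘ₗ
        (LinearMap.quotKerEquivOfSurjective π hπ).symm.toLinearMap, ?_⟩
      apply LinearMap.ext
      intro w
      have h5 : (LinearMap.quotKerEquivOfSurjective π hπ).symm (π w) =
          (LinearMap.ker π).mkQ w := by
        rw [LinearEquiv.symm_apply_eq]
        rfl
      simp only [LinearMap.comp_apply, LinearEquiv.coe_coe]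
      rw [h5]
      rfl
    obtain ⟨h', hh'⟩ := h g
    refine ⟨h' ∘ₗ π', ?_⟩
    apply LinearMap.ext
    rintro ⟨u, w⟩
    have h7 : π' (P' u) = 0 := by
      have : P' u ∈ LinearMap.ker π' := by rw [hP']; exact ⟨u, rfl⟩
      exact this
    change x w = h' (π' (P' u + ft w))
    rw [map_add, h7, zero_add, hft', ← hg, ← hh']
    rfl

end Pool.Agent.Helper173
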