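import Mathlib

set_option autoImplicit false

namespace Pool.Agent.Helper173.Sob

open Submodule

universe u

section zorn

variable {R : Type} [Ring R] {A B N : Type} [AddCommGroup A] [Module R A] [AddCommGroup B]
  [Module R B] [AddCommGroup N] [Module R N]

/-- maximal partial extensions, as graphs -/
theorem zorn_graph (i : A →ₗ[R] B) (hi : Function.Injective i) (g : A →ₗ[R] N) :
    ∃ G : Submodule R (B × N), (∀ n, ((0 : B), n) ∈ G → n = 0) ∧ (∀ a, (i a, g a) ∈ G) ∧
      ∀ (b : B) (n : N), (∀ (r : R) (m : N), (r • b, m) ∈ G → m = r • n) → (b, n) ∈ G := by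
  classical
  let P : Set (Submodule R (B × N)) := {G | (∀ n, ((0 : B), n) ∈ G → n = 0) ∧ ∀ a, (i a, g a) ∈ G}
  have hG0 : LinearMap.range (i.prod g) ∈ P := by
    refine ⟨?_, fun a => ⟨a, rfl⟩⟩
    rintro n ⟨a, ha⟩
    have ha1 : i a = 0 := congrArg Prod.fst ha
    have ha2 : g a = n := congrArg Prod.snd ha
    have : a = 0 := hi (by rw [ha1, map_zero])
    rw [← ha2, this, map_zero]
  obtain ⟨G, -, hGm⟩ := zorn_le_nonempty₀ P (by
    intro c hcP hc y hy
    have hdir : DirectedOn (· ≤ ·) c := hc.directedOn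
    refine ⟨sSup c, ⟨?_, ?_⟩, fun z hz => le_sSup hz⟩
    · intro n hn
      rw [mem_sSup_of_directed ⟨y, hy⟩ hdir] at hn
      obtain ⟨z, hz, hnz⟩ := hn
      exact (hcP hz).1 n hnz
    · intro a
      exact (le_sSup hy) ((hcP hy).2 a)) _ hG0
  have hGP : G ∈ P := hGm.prop
  refine ⟨G, hGP.1, hGP.2, ?_⟩
  intro b n hbn
  have hmem : G ⊔ span R {(b, n)} ∈ P := by
    refine ⟨?_, fun a => (le_sup_left : G ≤ _) (hGP.2 a)⟩
    intro m hm
    rw [mem_sup] at hm
    obtain ⟨x, hx, y, hy, hxy⟩ := hm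
    rw [mem_span_singleton] at hy
    obtain ⟨r, rfl⟩ := hy
    have h1 : x = (-(r • b), m - r • n) := by
      rw [eq_sub_of_add_eq hxy]
      ext <;> simp
    have h2 : (r • b, -(m - r • n)) ∈ G := by
      have := G.neg_mem hx
      rw [h1] at this
      simpa using this
    have h3 := hbn r _ h2
    rw [neg_sub] at h3
    simpa using h3
  have hle : G ⊔ span R {(b, n)} ≤ G := hGm.2 hmem le_sup_left
  exact hle ((le_sup_right : span R {(b, n)} ≤ _) (mem_span_singleton_self _))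

/-- total graphs are functions -/
theorem graph_total (G : Submodule R (B × N)) (h0 : ∀ n, ((0 : B), n) ∈ G → n = 0)
    (ht : ∀ b, ∃ n, (b, n) ∈ G) : ∃ h : B →ₗ[R] N, ∀ b, (b, h b) ∈ G := by
  choose h hh using ht
  have huniq : ∀ b n m, (b, n) ∈ G → (b, m) ∈ G → n = m := fun b n m hn hm => by
    have := G.sub_mem hn hm
    have h1 : ((0 : B), n - m) ∈ G := by simpa using this
    exact sub_eq_zero.mp (h0 _ h1)
  refine ⟨{ toFun := h, map_add' := ?_, map_smul' := ?_ }, hh⟩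
  · intro x y
    exact huniq _ _ _ (hh (x + y)) (by simpa using G.add_mem (hh x) (hh y))
  · intro r x
    exact huniq _ _ _ (hh (r • x)) (by simpa using G.smul_mem r (hh x))

end zorn

section lift

variable {R : Type} [Ring R] {X F : Type} [AddCommGroup X] [Module R X] [AddCommGroup F]
  [Module R F]

/-- lifting through a directed colimit of quotients -/
theorem lift_fp [Module.FinitePresentation R F] {ι : Type} [Nonempty ι] (Y : ι → Submodule R X)
    (hY : Directed (· ≤ ·) Y) (g : F →ₗ[R] X ⧸ (⨆ i, Y i)) :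
    ∃ (i : ι) (φ : F →ₗ[R] X ⧸ Y i), ∀ x, (factor (le_iSup Y i)) (φ x) = g x := by
  classical
  obtain ⟨n, K, e, hK⟩ := Module.FinitePresentation.exists_fin R F
  let π : (Fin n → R) →ₗ[R] F := e.symm.toLinearMap ∘ₗ K.mkQ
  obtain ⟨ψ, hψ⟩ := Module.projective_lifting_property (mkQ (⨆ i, Y i)) (g ∘ₗ π)
    (mkQ_surjective _)
  obtain ⟨S, hS⟩ := hK
  have hmem : ∀ s ∈ S, ∃ i, ψ s ∈ Y i := by
    intro s hs
    rw [← mem_iSup_of_directed Y hY]
    rw [← Quotient.mk_eq_zero, ← mkQ_apply, ← LinearMap.comp_apply, hψ]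
    have : K.mkQ s = 0 := by
      rw [mkQ_apply, Quotient.mk_eq_zero, ← hS]
      exact subset_span hs
    simp [π, this]
  have hcommon : ∃ i, ∀ s ∈ S, ψ s ∈ Y i := by
    clear hS
    induction S using Finset.induction_on with
    | empty => exact ⟨Classical.arbitrary ι, by simp⟩
    | insert a S _ ih =>
      obtain ⟨i, hi⟩ := ih (fun s hs => hmem s (Finset.mem_insert_of_mem hs))
      obtain ⟨j, hj⟩ := hmem a (Finset.mem_insert_self _ _)
      obtain ⟨k, hik, hjk⟩ := hY i j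
      refine ⟨k, fun s hs => ?_⟩
      rcases Finset.mem_insert.mp hs with rfl | hs
      · exact hjk hj
      · exact hik (hi s hs)
  obtain ⟨i, hi⟩ := hcommon
  have hK' : K ≤ LinearMap.ker ((mkQ (Y i)) ∘ₗ ψ) := by
    rw [← hS, span_le]
    intro s hs
    simp only [SetLike.mem_coe, LinearMap.mem_ker, LinearMap.comp_apply, mkQ_apply,
      Quotient.mk_eq_zero]
    exact hi s hs
  refine ⟨i, (K.liftQ _ hK') ∘ₗ e.toLinearMap, ?_⟩
  intro x
  obtain ⟨v, hv⟩ := K.mkQ_surjective (e x)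
  have hx : x = π v := by
    simp [π, hv]
  have h1 : ((K.liftQ _ hK') ∘ₗ e.toLinearMap) x = mkQ (Y i) (ψ v) := by
    rw [LinearMap.comp_apply, LinearEquiv.coe_coe, ← hv, mkQ_apply, liftQ_apply]
    rfl
  rw [h1, hx, mkQ_apply, ← LinearMap.comp_apply, ← hψ]
  rfl

/-- closure of the property that every map kills `y` under directed colimits of quotients -/
theorem kills_lim [Module.FinitePresentation R F] {ι : Type} [Nonempty ι] (Y : ι → Submodule R X)
    (hY : Directed (· ≤ ·) Y) (y : F) (h : ∀ i, ∀ g : F →ₗ[R] X ⧸ Y i, g y = 0)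
    (g : F →ₗ[R] X ⧸ (⨆ i, Y i)) : g y = 0 := by
  obtain ⟨i, φ, hφ⟩ := lift_fp Y hY g
  rw [← hφ, h i φ, map_zero]

end lift

section PI

variable (R : Type) [Ring R]

/-- purity, as in the frozen statement -/
def IsPure {A B : Type} [AddCommGroup A] [Module R A] [AddCommGroup B] [Module R B]
    (u : A →ₗ[R] B) : Prop :=
  ∀ (F G : Type) [AddCommGroup F] [Module R F] [AddCommGroup G] [Module R G]
    [Module.FinitePresentation R F] [Module.FinitePresentation R G]
    (f : F →ₗ[R] G) (a : F →ₗ[R] A) (b : G →ₗ[R] B),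
    b ∘ₗ f = u ∘ₗ a → ∃ c : G →ₗ[R] A, c ∘ₗ f = a

/-- pure-injectivity, as in the frozen statement -/
def PInj (N : Type) [AddCommGroup N] [Module R N] : Prop :=
  ∀ (A B : Type) [AddCommGroup A] [Module R A] [AddCommGroup B] [Module R B]
    (u : A →ₗ[R] B), IsPure R u → ∀ g : A →ₗ[R] N, ∃ h : B →ₗ[R] N, h ∘ₗ u = g

/-- injectivity in the form of an extension property -/
def Inj (N : Type) [AddCommGroup N] [Module R N] : Prop :=
  ∀ (A B : Type) [AddCommGroup A] [Module R A] [AddCommGroup B] [Module R B]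
    (u : A →ₗ[R] B), Function.Injective u → ∀ g : A →ₗ[R] N, ∃ h : B →ₗ[R] N, h ∘ₗ u = g

variable {R}

theorem IsPure.injective {A B : Type} [AddCommGroup A] [Module R A] [AddCommGroup B] [Module R B]
    {u : A →ₗ[R] B} (hu : IsPure R u) : Function.Injective u := by
  rw [injective_iff_map_eq_zero]
  intro a ha
  obtain ⟨c, hc⟩ := hu R PUnit (0 : R →ₗ[R] PUnit) (LinearMap.toSpanSingleton R A a) 0 (by
    ext
    simp [ha])
  have := LinearMap.congr_fun hc (1 : R)
  simpa using this.symm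

theorem Inj.pInj {N : Type} [AddCommGroup N] [Module R N] (h : Inj R N) : PInj R N :=
  fun A B _ _ _ _ u hu g => h A B u hu.injective g

/-- a pure-injective module solves directed unions of solvable systems in one unknown -/
theorem pinj_solve {N : Type} [AddCommGroup N] [Module R N] (hN : PInj R N)
    {ι : Type} [Nonempty ι] (J : ι → Submodule R R) (hJ : Directed (· ≤ ·) J)
    (g : R → N) (hadd : ∀ x ∈ (⨆ i, J i), ∀ y ∈ (⨆ i, J i), g (x + y) = g x + g y)
    (hsmul : ∀ (r : R), ∀ x ∈ (⨆ i, J i), g (r * x) = r • g x)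
    (hs : ∀ i, ∃ n : N, ∀ x ∈ J i, g x = x • n) :
    ∃ n : N, ∀ x ∈ (⨆ i, J i), g x = x • n := by
  classical
  -- the pushout
  have hle : ∀ i, J i ≤ ⨆ i, J i := fun i => le_iSup J i
  let Y : ι → Submodule R (N × R) := fun i =>
    { carrier := {p | p.2 ∈ J i ∧ p.1 = - g p.2}
      add_mem' := by
        rintro ⟨a1, a2⟩ ⟨b1, b2⟩ ⟨ha2, ha1⟩ ⟨hb2, hb1⟩
        simp only at ha1 ha2 hb1 hb2
        refine ⟨(J i).add_mem ha2 hb2, ?_⟩
        simp only [Prod.mk_add_mk]
        rw [ha1, hb1, hadd _ (hle i ha2) _ (hle i hb2)]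
        abel
      zero_mem' := by
        refine ⟨(J i).zero_mem, ?_⟩
        have := hsmul 0 0 ((⨆ i, J i).zero_mem)
        simp only [mul_zero, zero_smul] at this
        simp [this]
      smul_mem' := by
        rintro r ⟨a1, a2⟩ ⟨ha2, ha1⟩
        simp only at ha1 ha2
        refine ⟨(J i).smul_mem r ha2, ?_⟩
        simp only [Prod.smul_mk, smul_eq_mul]
        rw [ha1, hsmul _ _ (hle i ha2), smul_neg] }
  have hYmem : ∀ i p, p ∈ Y i ↔ p.2 ∈ J i ∧ p.1 = - g p.2 := fun i p => Iff.rfl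
  have hYdir : Directed (· ≤ ·) Y := by
    intro i j
    obtain ⟨k, hik, hjk⟩ := hJ i j
    exact ⟨k, fun p hp => ⟨hik hp.1, hp.2⟩, fun p hp => ⟨hjk hp.1, hp.2⟩⟩
  let u : N →ₗ[R] (N × R) ⧸ (⨆ i, Y i) := (mkQ _) ∘ₗ (LinearMap.inl R N R)
  have hpure : IsPure R u := by
    intro F G _ _ _ _ _ _ f a b hab
    obtain ⟨i, b', hb'⟩ := lift_fp Y hYdir b
    -- agreement at a later stage on generators of F
    obtain ⟨S, hS⟩ := (inferInstance : Module.Finite R F).fg_top
    have hagree : ∃ k, ∃ h : Y i ≤ Y k, ∀ s ∈ S,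
        (factor h) (b' (f s)) = mkQ (Y k) (LinearMap.inl R N R (a s)) := by
      have hone : ∀ s : F, ∃ k, ∃ h : Y i ≤ Y k,
          (factor h) (b' (f s)) = mkQ (Y k) (LinearMap.inl R N R (a s)) := by
        intro s
        obtain ⟨p, hp⟩ := (mkQ_surjective (Y i)) (b' (f s))
        have h1 : factor (le_iSup Y i) (b' (f s)) = u (a s) := by
          rw [hb', ← LinearMap.comp_apply, hab, LinearMap.comp_apply]
        rw [← hp] at h1
        have h2 : p - LinearMap.inl R N R (a s) ∈ ⨆ i, Y i := by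
          rw [← Quotient.mk_eq_zero, Quotient.mk_sub, sub_eq_zero]
          exact h1
        rw [mem_iSup_of_directed Y hYdir] at h2
        obtain ⟨j, hj⟩ := h2
        obtain ⟨k, hik, hjk⟩ := hYdir i j
        refine ⟨k, hik, ?_⟩
        rw [← hp]
        have h3 := hjk hj
        rw [← Quotient.mk_eq_zero, Quotient.mk_sub, sub_eq_zero] at h3
        exact h3
      clear hS
      induction S using Finset.induction_on with
      | empty => exact ⟨i, le_rfl, by simp⟩
      | insert s0 S _ ih =>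
        obtain ⟨k1, h1, hk1⟩ := ih
        obtain ⟨k2, h2, hk2⟩ := hone s0
        obtain ⟨k, hk1k, hk2k⟩ := hYdir k1 k2
        refine ⟨k, h1.trans hk1k, fun s hs => ?_⟩
        rcases Finset.mem_insert.mp hs with rfl | hs
        · have := congrArg (factor hk2k) hk2
          obtain ⟨p, hp⟩ := (mkQ_surjective (Y i)) (b' (f s))
          rw [← hp] at this ⊢
          exact this
        · have := congrArg (factor hk1k) (hk1 s hs)
          obtain ⟨p, hp⟩ := (mkQ_surjective (Y i)) (b' (f s))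
          rw [← hp] at this ⊢
          exact this
    obtain ⟨k, hik, hk⟩ := hagree
    obtain ⟨n, hn⟩ := hs k
    -- the retraction
    let ρ0 : (N × R) →ₗ[R] N := LinearMap.coprod LinearMap.id (LinearMap.toSpanSingleton R N n)
    have hρ0 : Y k ≤ LinearMap.ker ρ0 := by
      rintro ⟨p1, p2⟩ ⟨hp2, hp1⟩
      simp only at hp1 hp2
      simp [ρ0, hp1, hn p2 hp2]
    let ρ : (N × R) ⧸ Y k →ₗ[R] N := liftQ (Y k) ρ0 hρ0
    refine ⟨ρ ∘ₗ (factor hik) ∘ₗ b', ?_⟩
    have hext : ∀ x ∈ span R (S : Set F), (ρ ∘ₗ (factor hik) ∘ₗ b') (f x) = a x := by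
      intro x hx
      induction hx using span_induction with
      | mem x hx =>
        simp only [LinearMap.comp_apply]
        have := hk x hx
        rw [this]
        simp [ρ, ρ0]
      | zero => simp
      | add x y _ _ hx hy => rw [map_add, map_add, hx, hy, map_add]
      | smul r x _ hx => rw [map_smul, map_smul, hx, map_smul]
    ext x
    rw [LinearMap.comp_apply]
    exact hext x (by rw [hS]; exact mem_top)
  obtain ⟨h, hh⟩ := hN N _ u hpure LinearMap.id
  refine ⟨h (mkQ _ (LinearMap.inr R N R 1)), ?_⟩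
  intro x hx
  rw [← map_smul, ← map_smul, ← map_smul]
  rw [mem_iSup_of_directed J hJ] at hx
  obtain ⟨i, hi⟩ := hx
  have h1 : mkQ (⨆ i, Y i) (LinearMap.inr R N R (x • (1 : R))) = u (g x) := by
    rw [← sub_eq_zero]
    change mkQ _ _ - mkQ _ _ = 0
    rw [← map_sub, mkQ_apply, Quotient.mk_eq_zero]
    refine (le_iSup Y i) ?_
    have : (LinearMap.inr R N R (x • (1 : R)) - LinearMap.inl R N R (g x)) = (- g x, x) := by
      simp
    change (LinearMap.inr R N R (x • (1 : R)) - LinearMap.inl R N R (g x)) ∈ Y i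
    rw [this]
    exact ⟨hi, rfl⟩
  rw [h1, ← LinearMap.comp_apply, hh]
  rfl

/-- in an indecomposable injective module any two nonzero submodules meet -/
theorem Inj.uniform {N : Type} [AddCommGroup N] [Module R N] (hN : Inj R N)
    (hind : ∀ P Q : Submodule R N, IsCompl P Q → P = ⊥ ∨ Q = ⊥)
    (P Q : Submodule R N) (hPQ : P ⊓ Q = ⊥) : P = ⊥ ∨ Q = ⊥ := by
  classical
  -- choose Z maximal containing Q with P ⊓ Z = ⊥
  obtain ⟨Z, hQZ, hZm⟩ := zorn_le_nonempty₀ {Z : Submodule R N | P ⊓ Z = ⊥} (by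
    intro c hcP hc y hy
    refine ⟨sSup c, ?_, fun z hz => le_sSup hz⟩
    rw [Set.mem_ofPred_eq, eq_bot_iff]
    rintro x ⟨hxP, hxc⟩
    rw [SetLike.mem_coe, mem_sSup_of_directed ⟨y, hy⟩ hc.directedOn] at hxc
    obtain ⟨z, hz, hxz⟩ := hxc
    have : x ∈ P ⊓ z := ⟨hxP, hxz⟩
    rw [(hcP hz : P ⊓ z = ⊥)] at this
    exact this) Q hPQ
  have hPZ : P ⊓ Z = ⊥ := hZm.prop
  -- choose P' maximal containing P with P' ⊓ Z = ⊥
  obtain ⟨P', hPP', hPm⟩ := zorn_le_nonempty₀ {P' : Submodule R N | P' ⊓ Z = ⊥} (by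
    intro c hcP hc y hy
    refine ⟨sSup c, ?_, fun z hz => le_sSup hz⟩
    rw [Set.mem_ofPred_eq, eq_bot_iff]
    rintro x ⟨hxc, hxZ⟩
    rw [SetLike.mem_coe, mem_sSup_of_directed ⟨y, hy⟩ hc.directedOn] at hxc
    obtain ⟨z, hz, hxz⟩ := hxc
    have : x ∈ z ⊓ Z := ⟨hxz, hxZ⟩
    rw [(hcP hz : z ⊓ Z = ⊥)] at this
    exact this) P hPZ
  have hP'Z : P' ⊓ Z = ⊥ := hPm.prop
  -- the map N/Z → N extending the inclusion of P'
  let j : P' →ₗ[R] N ⧸ Z := Z.mkQ ∘ₗ P'.subtype
  have hj : Function.Injective j := by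
    rw [injective_iff_map_eq_zero]
    rintro ⟨x, hx⟩ hjx
    have h1 : x ∈ Z := by
      rw [← Quotient.mk_eq_zero]
      exact hjx
    have h2 : x ∈ P' ⊓ Z := ⟨hx, h1⟩
    rw [hP'Z] at h2
    exact Subtype.ext h2
  obtain ⟨ψ, hψ⟩ := hN P' (N ⧸ Z) j hj P'.subtype
  have hψP : ∀ x ∈ P', ψ (Z.mkQ x) = x := fun x hx => by
    have := LinearMap.congr_fun hψ ⟨x, hx⟩
    exact this
  -- ψ is injective since Z is maximal with P ⊓ Z = ⊥
  have hψinj : LinearMap.ker ψ = ⊥ := by
    by_contra hne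
    have hcomap : Z ≤ (LinearMap.ker ψ).comap Z.mkQ := by
      intro z hz
      have : Z.mkQ z = 0 := by simpa using hz
      simp [this]
    have hP : P ⊓ (LinearMap.ker ψ).comap Z.mkQ = ⊥ := by
      rw [eq_bot_iff]
      rintro x ⟨hxP, hxk⟩
      have h1 : ψ (Z.mkQ x) = 0 := hxk
      rw [hψP x (hPP' hxP)] at h1
      simpa using h1
    have hle : (LinearMap.ker ψ).comap Z.mkQ ≤ Z := hZm.2 hP hcomap
    apply hne
    rw [eq_bot_iff]
    intro w hw
    obtain ⟨v, rfl⟩ := Z.mkQ_surjective w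
    have : v ∈ (LinearMap.ker ψ).comap Z.mkQ := hw
    have := hle this
    simpa using this
  -- the range of ψ meets Z trivially, so it equals P'
  have hrange : LinearMap.range ψ ≤ P' := by
    have hle : P' ≤ LinearMap.range ψ := fun x hx => ⟨Z.mkQ x, hψP x hx⟩
    refine hPm.2 ?_ hle
    change LinearMap.range ψ ⊓ Z = ⊥
    by_contra hne
    -- the preimage of Z under ψ
    let T : Submodule R N := ((Z.comap ψ).comap Z.mkQ)
    have hZT : Z ≤ T := by
      intro z hz
      have : Z.mkQ z = 0 := by simpa using hz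
      simp only [T, mem_comap]
      rw [this, map_zero]
      exact Z.zero_mem
    have hPT : P ⊓ T = ⊥ := by
      rw [eq_bot_iff]
      rintro x ⟨hxP, hxT⟩
      have h1 : ψ (Z.mkQ x) ∈ Z := hxT
      rw [hψP x (hPP' hxP)] at h1
      have : x ∈ P ⊓ Z := ⟨hxP, h1⟩
      rw [hPZ] at this
      exact this
    have hTZ : T ≤ Z := hZm.2 hPT hZT
    apply hne
    rw [eq_bot_iff]
    rintro x ⟨⟨w, rfl⟩, hxZ⟩
    obtain ⟨v, rfl⟩ := Z.mkQ_surjective w
    have hv : v ∈ T := hxZ
    have := hTZ hv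
    have h0 : Z.mkQ v = 0 := by simpa using this
    rw [h0, map_zero]
    exact Submodule.zero_mem _
  have hcompl : IsCompl P' Z := by
    rw [isCompl_iff, disjoint_iff, codisjoint_iff]
    refine ⟨hP'Z, ?_⟩
    rw [eq_top_iff]
    intro x _
    have h1 : ψ (Z.mkQ x) ∈ P' := hrange ⟨_, rfl⟩
    have h2 : ψ (Z.mkQ (x - ψ (Z.mkQ x))) = 0 := by
      rw [map_sub, map_sub, hψP _ h1, sub_self]
    have h3 : Z.mkQ (x - ψ (Z.mkQ x)) = 0 := by
      have : Z.mkQ (x - ψ (Z.mkQ x)) ∈ LinearMap.ker ψ := h2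
      rw [hψinj] at this
      exact this
    have h4 : x - ψ (Z.mkQ x) ∈ Z := by rwa [mkQ_apply, Quotient.mk_eq_zero] at h3
    rw [mem_sup]
    exact ⟨_, h1, _, h4, by abel⟩
  rcases hind P' Z hcompl with h | h
  · left
    rw [eq_bot_iff, ← h]
    exact hPP'
  · right
    rw [eq_bot_iff, ← h]
    exact hQZ

end PI

end Pool.Agent.Helper173.Sob
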