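import Mathlib

set_option autoImplicit false

namespace Pool.Agent.Helper173.Sob

open Set

section order

variable {W : Type} [LinearOrder W] [WellFoundedLT W]

abbrev Gam (W : Type) : Type := Lex (W →₀ ℤ)

abbrev TT (W : Type) : Type := Lex (W → WithBot ℤ)

/-- translation -/
def tr (γ : Gam W) (p : TT W) : TT W := toLex fun ξ => ofLex p ξ + ((ofLex γ ξ : ℤ) : WithBot ℤ)

/-- the point `E b` of level `b` -/
def E (e : W → W → ℤ) (b : W) : TT W :=
  toLex fun ξ => if ξ ≤ b then ((e b ξ : ℤ) : WithBot ℤ) else ⊥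

/-- truncation at level `b` -/
def trunc (b : W) (p : TT W) : TT W := toLex fun ξ => if ξ ≤ b then ofLex p ξ else ⊥

omit [LinearOrder W] [WellFoundedLT W] in
theorem tr_apply (γ : Gam W) (p : TT W) (ξ : W) :
    ofLex (tr γ p) ξ = ofLex p ξ + ((ofLex γ ξ : ℤ) : WithBot ℤ) := rfl

omit [WellFoundedLT W] in
theorem E_apply (e : W → W → ℤ) (b ξ : W) :
    ofLex (E e b) ξ = if ξ ≤ b then ((e b ξ : ℤ) : WithBot ℤ) else ⊥ := rfl

omit [WellFoundedLT W] in
theorem trunc_apply (b : W) (p : TT W) (ξ : W) :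
    ofLex (trunc b p) ξ = if ξ ≤ b then ofLex p ξ else ⊥ := rfl

omit [LinearOrder W] [WellFoundedLT W] in
theorem TT.ext' {p q : TT W} (h : ∀ ξ, ofLex p ξ = ofLex q ξ) : p = q := by
  apply ofLex.injective
  funext ξ
  exact h ξ

theorem TT.lt_def {p q : TT W} : p < q ↔ ∃ i, (∀ j < i, ofLex p j = ofLex q j) ∧ ofLex p i < ofLex q i :=
  Iff.rfl

theorem Gam.lt_def {p q : Gam W} : p < q ↔ ∃ i, (∀ j < i, ofLex p j = ofLex q j) ∧ ofLex p i < ofLex q i :=
  Iff.rfl

omit [LinearOrder W] [WellFoundedLT W] in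
theorem tr_zero (p : TT W) : tr 0 p = p := by
  apply TT.ext'
  intro ξ
  rw [tr_apply]
  have : ofLex (0 : Gam W) ξ = 0 := rfl
  rw [this]
  simp

omit [LinearOrder W] [WellFoundedLT W] in
theorem tr_add (γ δ : Gam W) (p : TT W) : tr (γ + δ) p = tr γ (tr δ p) := by
  apply TT.ext'
  intro ξ
  rw [tr_apply, tr_apply, tr_apply]
  have : ofLex (γ + δ) ξ = ofLex γ ξ + ofLex δ ξ := rfl
  rw [this, add_assoc, add_comm (ofLex γ ξ), WithBot.coe_add]

theorem tr_lt {γ : Gam W} {p q : TT W} (h : p < q) : tr γ p < tr γ q := by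
  obtain ⟨i, hi, hlt⟩ := TT.lt_def.mp h
  refine TT.lt_def.mpr ⟨i, fun j hj => ?_, ?_⟩
  · rw [tr_apply, tr_apply, hi j hj]
  · rw [tr_apply, tr_apply]
    exact (WithBot.add_lt_add_iff_right WithBot.coe_ne_bot).mpr hlt

theorem tr_mono {γ : Gam W} {p q : TT W} (h : p ≤ q) : tr γ p ≤ tr γ q := by
  rcases h.lt_or_eq with h | h
  · exact (tr_lt h).le
  · rw [h]

theorem tr_le_iff {γ : Gam W} {p q : TT W} : tr γ p ≤ tr γ q ↔ p ≤ q := by
  refine ⟨fun h => ?_, tr_mono⟩
  by_contra hcon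
  exact absurd h (not_le.mpr (tr_lt (not_le.mp hcon)))

theorem tr_mono_left (e : W → W → ℤ) (b : W) {γ δ : Gam W} (h : γ ≤ δ) :
    tr γ (E e b) ≤ tr δ (E e b) := by
  rcases h.lt_or_eq with h | h
  · obtain ⟨i, hi, hlt⟩ := Gam.lt_def.mp h
    by_cases hib : i ≤ b
    · refine le_of_lt (TT.lt_def.mpr ⟨i, fun j hj => ?_, ?_⟩)
      · rw [tr_apply, tr_apply, hi j hj]
      · rw [tr_apply, tr_apply, E_apply, if_pos hib, ← WithBot.coe_add, ← WithBot.coe_add,
          WithBot.coe_lt_coe]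
        exact add_lt_add_right hlt _
    · refine le_of_eq (TT.ext' fun ξ => ?_)
      rw [tr_apply, tr_apply, E_apply]
      split_ifs with hξ
      · rw [hi ξ (lt_of_le_of_lt hξ (not_le.mp hib))]
      · rw [WithBot.bot_add, WithBot.bot_add]
  · rw [h]

theorem trunc_mono {b : W} {p q : TT W} (h : p ≤ q) : trunc b p ≤ trunc b q := by
  rcases h.lt_or_eq with h | h
  · obtain ⟨i, hi, hlt⟩ := TT.lt_def.mp h
    by_cases hib : i ≤ b
    · refine le_of_lt (TT.lt_def.mpr ⟨i, fun j hj => ?_, ?_⟩)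
      · rw [trunc_apply, trunc_apply, hi j hj]
      · rw [trunc_apply, trunc_apply, if_pos hib, if_pos hib]
        exact hlt
    · refine le_of_eq (TT.ext' fun ξ => ?_)
      rw [trunc_apply, trunc_apply]
      split_ifs with hξ
      · rw [hi ξ (lt_of_le_of_lt hξ (not_le.mp hib))]
      · rfl
  · rw [h]

omit [WellFoundedLT W] in
theorem trunc_tr (b : W) (γ : Gam W) (p : TT W) : trunc b (tr γ p) = tr γ (trunc b p) := by
  apply TT.ext'
  intro ξ
  rw [trunc_apply, tr_apply, tr_apply, trunc_apply]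
  split_ifs
  · rfl
  · rw [WithBot.bot_add]

omit [WellFoundedLT W] in
theorem trunc_E (e : W → W → ℤ) (b : W) : trunc b (E e b) = E e b := by
  apply TT.ext'
  intro ξ
  rw [trunc_apply, E_apply]
  split_ifs <;> rfl

omit [WellFoundedLT W] in
theorem trunc_trunc {b b' : W} (h : b ≤ b') (p : TT W) : trunc b (trunc b' p) = trunc b p := by
  apply TT.ext'
  intro ξ
  rw [trunc_apply, trunc_apply, trunc_apply]
  split_ifs with h1 h2
  · rfl
  · exact absurd (h1.trans h) h2
  · rfl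

/-- exponents allowed in the entries `(a,b)` -/
def US (e : W → W → ℤ) (a b : W) : Set (Gam W) := {γ | E e a ≤ tr γ (E e b)}

/-- exponents in the submodule of level `β` at the object `c` -/
def VS (e : W → W → ℤ) (β c : W) : Set (Gam W) := {γ | trunc β (E e c) ≤ tr γ (E e β)}

theorem US_upper (e : W → W → ℤ) (a b : W) : IsUpperSet (US e a b) :=
  fun _ _ h hγ => le_trans hγ (tr_mono_left e b h)

theorem VS_upper (e : W → W → ℤ) (β c : W) : IsUpperSet (VS e β c) :=
  fun _ _ h hγ => le_trans hγ (tr_mono_left e β h)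

theorem US_add {e : W → W → ℤ} {a b c : W} {γ δ : Gam W} (h1 : γ ∈ US e a b) (h2 : δ ∈ US e b c) :
    γ + δ ∈ US e a c := by
  change E e a ≤ tr (γ + δ) (E e c)
  rw [tr_add]
  exact le_trans h1 (tr_mono h2)

theorem US_VS {e : W → W → ℤ} {β d c : W} {γ δ : Gam W} (h1 : γ ∈ US e d c) (h2 : δ ∈ VS e β c) :
    γ + δ ∈ VS e β d := by
  change trunc β (E e d) ≤ tr (γ + δ) (E e β)
  rw [tr_add]
  refine le_trans (trunc_mono h1) ?_
  rw [trunc_tr]
  exact tr_mono h2

theorem zero_mem_US (e : W → W → ℤ) (a : W) : (0 : Gam W) ∈ US e a a := by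
  change E e a ≤ tr 0 (E e a)
  rw [tr_zero]

end order

section hahn

variable {Γ : Type} [AddCommGroup Γ] [LinearOrder Γ] [IsOrderedAddMonoid Γ]
variable {K : Type} [Field K]

/-- series supported in `U` -/
def subU (K : Type) [Field K] (U : Set Γ) : AddSubgroup (HahnSeries Γ K) where
  carrier := {x | ∀ γ, x.coeff γ ≠ 0 → γ ∈ U}
  add_mem' := by
    intro x y hx hy γ hγ
    by_contra hcon
    apply hγ
    rw [HahnSeries.coeff_add]
    have h1 : x.coeff γ = 0 := by
      by_contra h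
      exact hcon (hx γ h)
    have h2 : y.coeff γ = 0 := by
      by_contra h
      exact hcon (hy γ h)
    rw [h1, h2, add_zero]
  zero_mem' := by
    intro γ hγ
    simp at hγ
  neg_mem' := by
    intro x hx γ hγ
    rw [HahnSeries.coeff_neg] at hγ
    exact hx γ (neg_ne_zero.mp hγ)

omit [IsOrderedAddMonoid Γ] in
theorem mem_subU {U : Set Γ} {x : HahnSeries Γ K} :
    x ∈ subU K U ↔ ∀ γ, x.coeff γ ≠ 0 → γ ∈ U := Iff.rfl

omit [IsOrderedAddMonoid Γ] in
theorem subU_mono {U V : Set Γ} (h : U ⊆ V) : subU K U ≤ subU K V :=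
  fun _ hx γ hγ => h (hx γ hγ)

theorem mul_mem_subU {U V T : Set Γ} (h : ∀ u ∈ U, ∀ v ∈ V, u + v ∈ T) {x y : HahnSeries Γ K}
    (hx : x ∈ subU K U) (hy : y ∈ subU K V) : x * y ∈ subU K T := by
  intro γ hγ
  rw [HahnSeries.coeff_mul] at hγ
  obtain ⟨ij, hij, hne⟩ := Finset.exists_ne_zero_of_sum_ne_zero hγ
  rw [Finset.mem_addAntidiagonal] at hij
  rw [← hij.2.2]
  exact h _ (hx _ hij.1) _ (hy _ hij.2.1)

omit [IsOrderedAddMonoid Γ] in
theorem single_mem_subU {U : Set Γ} {γ : Γ} (h : γ ∈ U) (k : K) :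
    HahnSeries.single γ k ∈ subU K U := by
  intro δ hδ
  by_cases hd : δ = γ
  · rw [hd]; exact h
  · rw [HahnSeries.coeff_single_of_ne hd] at hδ
    exact absurd rfl hδ

omit [IsOrderedAddMonoid Γ] in
theorem single_mem_subU_iff {U : Set Γ} {γ : Γ} :
    HahnSeries.single γ (1 : K) ∈ subU K U ↔ γ ∈ U := by
  refine ⟨fun h => h γ ?_, fun h => single_mem_subU h 1⟩
  simp

theorem mem_subU_iff_order {U : Set Γ} (hU : IsUpperSet U) {x : HahnSeries Γ K} (hx : x ≠ 0) :
    x ∈ subU K U ↔ x.order ∈ U := by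
  constructor
  · intro h
    exact h _ (by rw [ne_eq, HahnSeries.coeff_order_eq_zero]; exact hx)
  · intro h γ hγ
    exact hU (HahnSeries.order_le_of_coeff_ne_zero hγ) h

theorem order_inv' {x : HahnSeries Γ K} (hx : x ≠ 0) : (x⁻¹).order = - x.order := by
  have h1 : (x * x⁻¹).order = x.order + (x⁻¹).order := HahnSeries.order_mul hx (inv_ne_zero hx)
  rw [mul_inv_cancel₀ hx, HahnSeries.order_one] at h1
  exact (neg_eq_of_add_eq_zero_right h1.symm).symm

theorem order_div' {x y : HahnSeries Γ K} (hx : x ≠ 0) (hy : y ≠ 0) :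
    (x / y).order = x.order - y.order := by
  rw [div_eq_mul_inv, HahnSeries.order_mul hx (inv_ne_zero hy), order_inv' hy, sub_eq_add_neg]

/-- spherical completeness -/
theorem spherical {ι : Type*} (B : ι → Set Γ) (hB : ∀ i, IsUpperSet (B i))
    (q : ι → HahnSeries Γ K) (hq : ∀ i j, B i ⊆ B j → q i - q j ∈ subU K (B j)) :
    ∃ z : HahnSeries Γ K, ∀ i, z - q i ∈ subU K (B i) := by
  classical
  have htot : ∀ i j, B i ⊆ B j ∨ B j ⊆ B i := fun i j => by
    rcases (hB i).total (hB j) with h | h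
    · exact Or.inl h
    · exact Or.inr h
  have hagree : ∀ i j γ, γ ∉ B i → γ ∉ B j → (q i).coeff γ = (q j).coeff γ := by
    intro i j γ hi hj
    rcases htot i j with h | h
    · have h1 := hq i j h
      by_contra hne
      apply hj
      apply h1 γ
      rw [HahnSeries.coeff_sub]
      exact sub_ne_zero.mpr hne
    · have h1 := hq j i h
      by_contra hne
      apply hi
      apply h1 γ
      rw [HahnSeries.coeff_sub]
      exact sub_ne_zero.mpr (Ne.symm hne)
  let c : Γ → K := fun γ => if h : ∃ i, γ ∉ B i then (q h.choose).coeff γ else 0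
  have hc : ∀ i γ, γ ∉ B i → c γ = (q i).coeff γ := by
    intro i γ hγ
    have h : ∃ i, γ ∉ B i := ⟨i, hγ⟩
    simp only [c, dif_pos h]
    exact hagree _ _ _ h.choose_spec hγ
  have hpwo : (Function.support c).IsPWO := by
    intro f
    have hf0 : c (f 0).1 ≠ 0 := (f 0).2
    have hex : ∃ i, (f 0).1 ∉ B i := by
      by_contra hcon
      apply hf0
      simp only [c, dif_neg hcon]
    obtain ⟨i, hi⟩ := hex
    by_cases hle : ∃ n, 0 < n ∧ (f 0).1 ≤ (f n).1
    · obtain ⟨n, hn, h⟩ := hle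
      exact ⟨0, n, hn, h⟩
    · push Not at hle
      have hlow : ∀ n, (f n).1 ≤ (f 0).1 := by
        intro n
        rcases Nat.eq_zero_or_pos n with h | h
        · rw [h]
        · exact (hle n h).le
      have hnot : ∀ n, (f n).1 ∉ B i := fun n hn => hi (hB i (hlow n) hn)
      have hsupp : ∀ n, (f n).1 ∈ (q i).support := by
        intro n
        rw [HahnSeries.mem_support, ← hc i _ (hnot n)]
        exact (f n).2
      obtain ⟨m, n, hmn, h⟩ := (q i).isPWO_support.exists_lt hsupp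
      exact ⟨m, n, hmn, h⟩
  refine ⟨⟨c, hpwo⟩, fun i => ?_⟩
  intro γ hγ
  by_contra hcon
  apply hγ
  rw [HahnSeries.coeff_sub]
  change c γ - (q i).coeff γ = 0
  rw [hc i γ hcon, sub_self]

end hahn

end Pool.Agent.Helper173.Sob
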