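import Mathlib
import Pool.Agent.Helper173.SobVal
import Pool.Agent.Helper173.SobGen

set_option autoImplicit false

namespace Pool.Agent.Helper173.Sob

open Set Submodule

variable {W : Type} [LinearOrder W] [WellFoundedLT W]

abbrev QQ (W : Type) [LinearOrder W] [WellFoundedLT W] : Type := HahnSeries (Gam W) (ZMod 2)

abbrev M0 (W : Type) [LinearOrder W] [WellFoundedLT W] : Type := W → QQ W

/-- matrix units -/
noncomputable def EE (a b : W) (x : QQ W) : Module.End (QQ W) (M0 W) :=
  (LinearMap.single (QQ W) (fun _ : W => QQ W) a) ∘ₗ (x • LinearMap.proj b)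

theorem EE_apply (a b : W) (x : QQ W) (f : M0 W) : EE a b x f = Pi.single a (x * f b) := rfl

theorem EE_add (a b : W) (x y : QQ W) : EE a b (x + y) = EE a b x + EE a b y := by
  apply LinearMap.ext
  intro f
  rw [LinearMap.add_apply, EE_apply, EE_apply, EE_apply, add_mul, Pi.single_add]

theorem EE_mul (a b c d : W) (x y : QQ W) :
    EE a b x * EE c d y = if b = c then EE a d (x * y) else 0 := by
  apply LinearMap.ext
  intro f
  rw [Module.End.mul_apply, EE_apply, EE_apply]
  split_ifs with h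
  · subst h
    rw [Pi.single_eq_same, EE_apply, mul_assoc]
  · rw [Pi.single_eq_of_ne h, mul_zero, Pi.single_zero, LinearMap.zero_apply]

variable (e : W → W → ℤ)

/-- the entries -/
abbrev HH (a b : W) : AddSubgroup (QQ W) := subU (ZMod 2) (US e a b)

/-- the ring -/
noncomputable def RR : Subring (Module.End (QQ W) (M0 W)) :=
  Subring.closure {T | ∃ a b x, x ∈ HH e a b ∧ T = EE a b x}

variable {e}

theorem mul_mem_HH {a b c : W} {x y : QQ W} (hx : x ∈ HH e a b) (hy : y ∈ HH e b c) :
    x * y ∈ HH e a c :=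
  mul_mem_subU (fun _ hu _ hv => US_add hu hv) hx hy

theorem one_mem_HH (a : W) : (1 : QQ W) ∈ HH e a a := by
  change HahnSeries.single 0 1 ∈ _
  exact single_mem_subU (zero_mem_US e a) 1

/-- elements of the ring -/
noncomputable def el (a b : W) (x : QQ W) (hx : x ∈ HH e a b) : RR e :=
  ⟨EE a b x, Subring.subset_closure ⟨a, b, x, hx, rfl⟩⟩

theorem el_mul (a b c : W) (x y : QQ W) (hx : x ∈ HH e a b) (hy : y ∈ HH e b c) :
    el a b x hx * el b c y hy = el a c (x * y) (mul_mem_HH hx hy) := by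
  apply Subtype.ext
  change EE a b x * EE b c y = EE a c (x * y)
  rw [EE_mul, if_pos rfl]

theorem el_mul_ne (a b c d : W) (x y : QQ W) (hx : x ∈ HH e a b) (hy : y ∈ HH e c d) (h : b ≠ c) :
    el a b x hx * el c d y hy = 0 := by
  apply Subtype.ext
  change EE a b x * EE c d y = 0
  rw [EE_mul, if_neg h]

theorem el_add (a b : W) (x y : QQ W) (hx : x ∈ HH e a b) (hy : y ∈ HH e a b) :
    el a b x hx + el a b y hy = el a b (x + y) (add_mem hx hy) := by
  apply Subtype.ext
  change EE a b x + EE a b y = EE a b (x + y)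
  rw [EE_add]

theorem el_zero (a b : W) (hx : (0 : QQ W) ∈ HH e a b) : el a b 0 hx = 0 := by
  apply Subtype.ext
  apply LinearMap.ext
  intro f
  change EE a b 0 f = 0
  rw [EE_apply, zero_mul, Pi.single_zero]

theorem el_congr (a b : W) {x y : QQ W} (hx : x ∈ HH e a b) (h : x = y) :
    el a b x hx = el a b y (h ▸ hx) := by
  subst h
  rfl

/-- diagonal idempotents -/
noncomputable def ee (a : W) : RR e := el a a 1 (one_mem_HH a)

theorem ee_mul_el (a b : W) (x : QQ W) (hx : x ∈ HH e a b) : ee a * el a b x hx = el a b x hx := by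
  rw [ee, el_mul]
  exact el_congr _ _ _ (one_mul x)

theorem el_mul_ee (a b : W) (x : QQ W) (hx : x ∈ HH e a b) : el a b x hx * ee b = el a b x hx := by
  rw [ee, el_mul]
  exact el_congr _ _ _ (mul_one x)

theorem ee_mul_el_ne (c a b : W) (x : QQ W) (hx : x ∈ HH e a b) (h : c ≠ a) :
    ee c * el a b x hx = 0 := el_mul_ne _ _ _ _ _ _ _ _ h

theorem el_mul_ee_ne (a b c : W) (x : QQ W) (hx : x ∈ HH e a b) (h : b ≠ c) :
    el a b x hx * ee c = 0 := el_mul_ne _ _ _ _ _ _ _ _ h

theorem ee_mul_self (a : W) : (ee a : RR e) * ee a = ee a := ee_mul_el _ _ _ _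

theorem ee_mul_ne (a b : W) (h : a ≠ b) : (ee a : RR e) * ee b = 0 := el_mul_ee_ne _ _ _ _ _ h

/-- the additive group generated by the homogeneous elements -/
noncomputable def SS : AddSubgroup (RR e) := AddSubgroup.closure {T | ∃ a b x hx, T = el a b x hx}

theorem el_mem_SS (a b : W) (x : QQ W) (hx : x ∈ HH e a b) : el a b x hx ∈ (SS : AddSubgroup (RR e)) :=
  AddSubgroup.subset_closure ⟨a, b, x, hx, rfl⟩

theorem SS_mul {s t : RR e} (hs : s ∈ (SS : AddSubgroup (RR e))) (ht : t ∈ (SS : AddSubgroup (RR e))) :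
    s * t ∈ (SS : AddSubgroup (RR e)) := by
  induction hs using AddSubgroup.closure_induction with
  | mem s hs =>
    obtain ⟨a, b, x, hx, rfl⟩ := hs
    induction ht using AddSubgroup.closure_induction with
    | mem t ht =>
      obtain ⟨c, d, y, hy, rfl⟩ := ht
      by_cases h : b = c
      · subst h
        rw [el_mul]
        exact el_mem_SS _ _ _ _
      · rw [el_mul_ne _ _ _ _ _ _ _ _ h]
        exact zero_mem _
    | zero => rw [mul_zero]; exact zero_mem _
    | add t t' _ _ h1 h2 => rw [mul_add]; exact add_mem h1 h2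
    | neg t _ h => rw [mul_neg]; exact neg_mem h
  | zero => rw [zero_mul]; exact zero_mem _
  | add s s' _ _ h1 h2 => rw [add_mul]; exact add_mem h1 h2
  | neg s _ h => rw [neg_mul]; exact neg_mem h

theorem two_eq_zero : (1 : RR e) + 1 = 0 := by
  apply Subtype.ext
  apply LinearMap.ext
  intro f
  funext c
  change f c + f c = 0
  apply HahnSeries.ext
  funext γ
  rw [HahnSeries.coeff_add, HahnSeries.coeff_zero]
  have h2 : (2 : ZMod 2) = 0 := rfl
  rw [← two_mul, h2, zero_mul]

theorem decomp (r : RR e) : ∃ s ∈ (SS : AddSubgroup (RR e)), r = s ∨ r = 1 + s := by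
  obtain ⟨r, hr⟩ := r
  have key : ∀ (r : Module.End (QQ W) (M0 W)) (hr : r ∈ RR e),
      ∃ s ∈ (SS : AddSubgroup (RR e)), (⟨r, hr⟩ : RR e) = s ∨ (⟨r, hr⟩ : RR e) = 1 + s := by
    intro r hr
    have hr' := hr
    unfold RR at hr'
    induction hr' using Subring.closure_induction with
    | mem T hT =>
      obtain ⟨a, b, x, hx, rfl⟩ := hT
      exact ⟨_, el_mem_SS a b x hx, Or.inl rfl⟩
    | zero => exact ⟨0, zero_mem _, Or.inl rfl⟩
    | one => exact ⟨0, zero_mem _, Or.inr (by rw [add_zero]; rfl)⟩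
    | add x y hx hy ihx ihy =>
      obtain ⟨s, hs, h1⟩ := ihx hx
      obtain ⟨t, ht, h2⟩ := ihy hy
      have hxy : (⟨x + y, hr⟩ : RR e) = ⟨x, hx⟩ + ⟨y, hy⟩ := rfl
      rw [hxy]
      refine ⟨s + t, add_mem hs ht, ?_⟩
      rcases h1 with h1 | h1 <;> rcases h2 with h2 | h2
      · left; rw [h1, h2]
      · right; rw [h1, h2]; abel
      · right; rw [h1, h2]; abel
      · left
        rw [h1, h2]
        have : (1 : RR e) + s + (1 + t) = (1 + 1) + (s + t) := by abel
        rw [this, two_eq_zero, zero_add]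
    | neg x hx ih =>
      obtain ⟨s, hs, h1⟩ := ih hx
      have hxy : (⟨-x, hr⟩ : RR e) = -⟨x, hx⟩ := rfl
      rw [hxy]
      refine ⟨-s, neg_mem hs, ?_⟩
      rcases h1 with h1 | h1
      · left; rw [h1]
      · right
        rw [h1]
        have : -((1 : RR e) + s) = -(1 + 1) + (1 + -s) := by abel
        rw [this, two_eq_zero, neg_zero, zero_add]
    | mul x y hx hy ihx ihy =>
      obtain ⟨s, hs, h1⟩ := ihx hx
      obtain ⟨t, ht, h2⟩ := ihy hy
      have hxy : (⟨x * y, hr⟩ : RR e) = ⟨x, hx⟩ * ⟨y, hy⟩ := rfl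
      rw [hxy]
      rcases h1 with h1 | h1 <;> rcases h2 with h2 | h2
      · exact ⟨s * t, SS_mul hs ht, Or.inl (by rw [h1, h2])⟩
      · exact ⟨s + s * t, add_mem hs (SS_mul hs ht), Or.inl (by rw [h1, h2, mul_add, mul_one])⟩
      · exact ⟨t + s * t, add_mem ht (SS_mul hs ht), Or.inl (by rw [h1, h2, add_mul, one_mul])⟩
      · exact ⟨t + (s + s * t), add_mem ht (add_mem hs (SS_mul hs ht)),
          Or.inr (by rw [h1, h2, add_mul, one_mul, mul_add, mul_one]; abel)⟩
  exact key r hr

/-- the homogeneous parts of a ring element -/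
theorem homog (r : RR e) (d c : W) : ∃ (y : QQ W) (hy : y ∈ HH e d c), ee d * r * ee c = el d c y hy := by
  obtain ⟨s, hs, h⟩ := decomp r
  have h1 : ∃ (y : QQ W) (hy : y ∈ HH e d c), ee d * s * ee c = el d c y hy := by
    clear h
    induction hs using AddSubgroup.closure_induction with
    | mem s hs =>
      obtain ⟨a, b, x, hx, rfl⟩ := hs
      by_cases h1 : d = a
      · subst h1
        rw [ee_mul_el]
        by_cases h2 : b = c
        · subst h2
          exact ⟨x, hx, el_mul_ee _ _ _ _⟩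
        · refine ⟨0, zero_mem _, ?_⟩
          rw [el_mul_ee_ne _ _ _ _ _ h2, el_zero]
      · refine ⟨0, zero_mem _, ?_⟩
        rw [ee_mul_el_ne _ _ _ _ _ h1, zero_mul, el_zero]
    | zero => exact ⟨0, zero_mem _, by rw [mul_zero, zero_mul, el_zero]⟩
    | add s t _ _ h1 h2 =>
      obtain ⟨y, hy, h1⟩ := h1
      obtain ⟨z, hz, h2⟩ := h2
      exact ⟨y + z, add_mem hy hz, by rw [mul_add, add_mul, h1, h2, el_add]⟩
    | neg s _ h =>
      obtain ⟨y, hy, h⟩ := h
      refine ⟨-y, neg_mem hy, ?_⟩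
      rw [mul_neg, neg_mul, h, neg_eq_iff_add_eq_zero, el_add, el_congr _ _ _ (add_neg_cancel y),
        el_zero]
  obtain ⟨y, hy, h1⟩ := h1
  rcases h with h | h
  · exact ⟨y, hy, by rw [h, h1]⟩
  · by_cases hdc : d = c
    · subst hdc
      refine ⟨1 + y, add_mem (one_mem_HH d) hy, ?_⟩
      rw [h, mul_add, add_mul, h1, mul_one, ee_mul_self, ee, el_add]
    · refine ⟨y, hy, ?_⟩
      rw [h, mul_add, add_mul, h1, mul_one, ee_mul_ne _ _ hdc, zero_add]

/-- columns are finite -/
theorem col_fin (r : RR e) (c : W) : ∃ D : Finset W, r * ee c = ∑ d ∈ D, ee d * r * ee c := by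
  classical
  have key : ∀ s ∈ (SS : AddSubgroup (RR e)),
      ∃ D : Finset W, ∀ D' : Finset W, D ⊆ D' → s * ee c = ∑ d ∈ D', ee d * s * ee c := by
    intro s hs
    induction hs using AddSubgroup.closure_induction with
    | mem s hs =>
      obtain ⟨a, b, x, hx, rfl⟩ := hs
      refine ⟨{a}, fun D' hD' => ?_⟩
      rw [Finset.sum_eq_single_of_mem a (hD' (Finset.mem_singleton_self a))]
      · rw [ee_mul_el]
      · intro d _ hd
        rw [ee_mul_el_ne _ _ _ _ _ hd, zero_mul]
    | zero => exact ⟨∅, fun D' _ => by simp⟩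
    | add s t _ _ h1 h2 =>
      obtain ⟨D1, h1⟩ := h1
      obtain ⟨D2, h2⟩ := h2
      refine ⟨D1 ∪ D2, fun D' hD' => ?_⟩
      rw [add_mul, h1 D' (Finset.union_subset_left hD'), h2 D' (Finset.union_subset_right hD'),
        ← Finset.sum_add_distrib]
      refine Finset.sum_congr rfl fun d _ => ?_
      rw [mul_add, add_mul]
    | neg s _ h =>
      obtain ⟨D, h⟩ := h
      refine ⟨D, fun D' hD' => ?_⟩
      rw [neg_mul, h D' hD', ← Finset.sum_neg_distrib]
      refine Finset.sum_congr rfl fun d _ => ?_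
      rw [mul_neg, neg_mul]
  obtain ⟨s, hs, h⟩ := decomp r
  obtain ⟨D, hD⟩ := key s hs
  rcases h with h | h
  · exact ⟨D, by rw [h]; exact hD D subset_rfl⟩
  · refine ⟨insert c D, ?_⟩
    have h1 := hD (insert c D) (Finset.subset_insert _ _)
    have h2 : (ee c : RR e) = ∑ d ∈ insert c D, ee d * ee c := by
      rw [Finset.sum_eq_single_of_mem c (Finset.mem_insert_self _ _)]
      · rw [ee_mul_self]
      · intro d _ hd
        exact ee_mul_ne _ _ hd
    have h3 : ∑ d ∈ insert c D, ee d * r * ee c =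
        (∑ d ∈ insert c D, ee d * ee c) + ∑ d ∈ insert c D, ee d * s * ee c := by
      rw [← Finset.sum_add_distrib]
      refine Finset.sum_congr rfl fun d _ => ?_
      rw [h, mul_add, add_mul, mul_one]
    rw [h3, ← h1, ← h2, h, add_mul, one_mul]

/-- rows are finite -/
theorem row_fin (r : RR e) (c : W) : ∃ D : Finset W, ee c * r = ∑ d ∈ D, ee c * r * ee d := by
  classical
  have key : ∀ s ∈ (SS : AddSubgroup (RR e)),
      ∃ D : Finset W, ∀ D' : Finset W, D ⊆ D' → ee c * s = ∑ d ∈ D', ee c * s * ee d := by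
    intro s hs
    induction hs using AddSubgroup.closure_induction with
    | mem s hs =>
      obtain ⟨a, b, x, hx, rfl⟩ := hs
      refine ⟨{b}, fun D' hD' => ?_⟩
      rw [Finset.sum_eq_single_of_mem b (hD' (Finset.mem_singleton_self b))]
      · rw [mul_assoc, el_mul_ee]
      · intro d _ hd
        rw [mul_assoc, el_mul_ee_ne _ _ _ _ _ hd.symm, mul_zero]
    | zero => exact ⟨∅, fun D' _ => by simp⟩
    | add s t _ _ h1 h2 =>
      obtain ⟨D1, h1⟩ := h1
      obtain ⟨D2, h2⟩ := h2
      refine ⟨D1 ∪ D2, fun D' hD' => ?_⟩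
      have h3 : ∑ d ∈ D', ee c * (s + t) * ee d =
          (∑ d ∈ D', ee c * s * ee d) + ∑ d ∈ D', ee c * t * ee d := by
        rw [← Finset.sum_add_distrib]
        refine Finset.sum_congr rfl fun d _ => ?_
        rw [mul_add, add_mul]
      rw [h3, ← h1 D' (Finset.union_subset_left hD'), ← h2 D' (Finset.union_subset_right hD'),
        mul_add]
    | neg s _ h =>
      obtain ⟨D, h⟩ := h
      refine ⟨D, fun D' hD' => ?_⟩
      have h3 : ∑ d ∈ D', ee c * (-s) * ee d = - ∑ d ∈ D', ee c * s * ee d := by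
        rw [← Finset.sum_neg_distrib]
        refine Finset.sum_congr rfl fun d _ => ?_
        rw [mul_neg, neg_mul]
      rw [h3, ← h D' hD', mul_neg]
  obtain ⟨s, hs, h⟩ := decomp r
  obtain ⟨D, hD⟩ := key s hs
  rcases h with h | h
  · exact ⟨D, by rw [h]; exact hD D subset_rfl⟩
  · refine ⟨insert c D, ?_⟩
    have h1 := hD (insert c D) (Finset.subset_insert _ _)
    have h2 : (ee c : RR e) = ∑ d ∈ insert c D, ee c * ee d := by
      rw [Finset.sum_eq_single_of_mem c (Finset.mem_insert_self _ _)]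
      · rw [ee_mul_self]
      · intro d _ hd
        exact ee_mul_ne _ _ hd.symm
    have h3 : ∑ d ∈ insert c D, ee c * r * ee d =
        (∑ d ∈ insert c D, ee c * ee d) + ∑ d ∈ insert c D, ee c * s * ee d := by
      rw [← Finset.sum_add_distrib]
      refine Finset.sum_congr rfl fun d _ => ?_
      rw [h, mul_add, add_mul, mul_one]
    rw [h3, ← h1, ← h2, h, mul_add, mul_one]

/-- comparison of two nonzero elements with the same source -/
theorem compare (d d' : W) (x x' : QQ W) (hx : x ≠ 0) (hx' : x' ≠ 0) :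
    (∃ w ∈ HH e d' d, w * x = x') ∨ (∃ w ∈ HH e d d', w * x' = x) := by
  have key : ∀ (d d' : W) (x x' : QQ W), x ≠ 0 → x' ≠ 0 →
      tr (-x'.order) (E e d') ≤ tr (-x.order) (E e d) → ∃ w ∈ HH e d' d, w * x = x' := by
    intro d d' x x' hx hx' h
    refine ⟨x' / x, ?_, div_mul_cancel₀ _ hx⟩
    rw [mem_subU_iff_order (US_upper e d' d) (div_ne_zero hx' hx), order_div' hx' hx]
    change E e d' ≤ tr (x'.order - x.order) (E e d)
    have h2 := tr_mono (γ := x'.order) h
    rw [← tr_add, ← tr_add, add_neg_cancel, tr_zero, ← sub_eq_add_neg] at h2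
    exact h2
  rcases le_total (tr (-x'.order) (E e d')) (tr (-x.order) (E e d)) with h | h
  · exact Or.inl (key d d' x x' hx hx' h)
  · exact Or.inr (key d' d x' x hx' hx h)

end Pool.Agent.Helper173.Sob
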