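import Mathlib
import Pool.Agent.Helper173.SobRing

set_option autoImplicit false

namespace Pool.Agent.Helper173.Sob

open Set Submodule

variable {W : Type} [LinearOrder W] [WellFoundedLT W] {e : W → W → ℤ}

/-- partial linear functions on left ideals -/
structure LinOn (N : Type) [AddCommGroup N] [Module (RR e) N] (I : Submodule (RR e) (RR e))
    (g : RR e → N) : Prop where
  add : ∀ x ∈ I, ∀ y ∈ I, g (x + y) = g x + g y
  smul : ∀ r, ∀ x ∈ I, g (r * x) = r • g x

theorem LinOn.zero {N : Type} [AddCommGroup N] [Module (RR e) N] {I : Submodule (RR e) (RR e)}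
    {g : RR e → N} (h : LinOn N I g) : g 0 = 0 := by
  have := h.smul 0 0 I.zero_mem
  rwa [mul_zero, zero_smul] at this

theorem LinOn.sum {N : Type} [AddCommGroup N] [Module (RR e) N] {I : Submodule (RR e) (RR e)}
    {g : RR e → N} (h : LinOn N I g) {ι : Type} (D : Finset ι) (f : ι → RR e)
    (hf : ∀ i ∈ D, f i ∈ I) : g (∑ i ∈ D, f i) = ∑ i ∈ D, g (f i) := by
  classical
  induction D using Finset.induction_on with
  | empty => simp [h.zero]
  | insert a D ha ih =>
    rw [Finset.sum_insert ha, Finset.sum_insert ha, h.add _ (hf a (Finset.mem_insert_self _ _)) _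
      (I.sum_mem fun i hi => hf i (Finset.mem_insert_of_mem hi)),
      ih fun i hi => hf i (Finset.mem_insert_of_mem hi)]

/-- extension for homogeneous elements -/
def CondH (N : Type) [AddCommGroup N] [Module (RR e) N] : Prop :=
  ∀ (c : W) (I : Submodule (RR e) (RR e)) (g : RR e → N), LinOn N I g → (1 - ee c) ∈ I →
    g (1 - ee c) = 0 → ∃ n : N, ∀ x ∈ I, g x = x • n

/-- extension when all homogeneous parts are present -/
def CondK (N : Type) [AddCommGroup N] [Module (RR e) N] : Prop :=
  ∀ (I : Submodule (RR e) (RR e)) (g : RR e → N), LinOn N I g → (∀ a, ee a ∈ I) →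
    ∃ n : N, ∀ x ∈ I, g x = x • n

theorem inj_of (N : Type) [AddCommGroup N] [Module (RR e) N] (hH : CondH (e := e) N)
    (hK : CondK (e := e) N) : Inj (RR e) N := by
  classical
  intro A B _ _ _ _ u hu g
  obtain ⟨G, hG0, hGa, hGm⟩ := zorn_graph u hu g
  have huniq : ∀ b n m, (b, n) ∈ G → (b, m) ∈ G → n = m := fun b n m hn hm => by
    have := G.sub_mem hn hm
    have h1 : ((0 : B), n - m) ∈ G := by simpa using this
    exact sub_eq_zero.mp (hG0 _ h1)
  -- the left ideal and the function attached to an element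
  let I : B → Submodule (RR e) (RR e) := fun b =>
    { carrier := {r | ∃ m, (r • b, m) ∈ G}
      add_mem' := by
        rintro r s ⟨m, hm⟩ ⟨n, hn⟩
        exact ⟨m + n, by rw [add_smul]; simpa using G.add_mem hm hn⟩
      zero_mem' := ⟨0, by rw [zero_smul]; exact G.zero_mem⟩
      smul_mem' := by
        rintro r s ⟨m, hm⟩
        exact ⟨r • m, by rw [smul_eq_mul, mul_smul]; simpa using G.smul_mem r hm⟩ }
  have hI : ∀ b r, r ∈ I b ↔ ∃ m, (r • b, m) ∈ G := fun b r => Iff.rfl
  let φ : B → RR e → N := fun b r => if h : ∃ m, (r • b, m) ∈ G then h.choose else 0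
  have hφ : ∀ b r, r ∈ I b → (r • b, φ b r) ∈ G := fun b r hr => by
    have h : ∃ m, (r • b, m) ∈ G := hr
    simp only [φ, dif_pos h]
    exact h.choose_spec
  have hlin : ∀ b, LinOn N (I b) (φ b) := fun b =>
    { add := fun x hx y hy => by
        refine huniq ((x + y) • b) _ _ (hφ b _ ((I b).add_mem hx hy)) ?_
        rw [add_smul]
        exact G.add_mem (hφ b x hx) (hφ b y hy)
      smul := fun r x hx => by
        refine huniq ((r * x) • b) _ _ (hφ b _ ((I b).smul_mem r hx)) ?_
        rw [mul_smul]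
        exact G.smul_mem r (hφ b x hx) }
  have hfin : ∀ b n, (∀ x ∈ I b, φ b x = x • n) → (b, n) ∈ G := fun b n h =>
    hGm b n fun r m hrm => by
      rw [← h r ⟨m, hrm⟩]
      exact huniq _ _ _ hrm (hφ b r ⟨m, hrm⟩)
  have hhom : ∀ (c : W) (b : B), (ee c : RR e) • b = b → ∃ n, (b, n) ∈ G := by
    intro c b hb
    have h1 : (1 - ee c : RR e) • b = 0 := by rw [sub_smul, one_smul, hb, sub_self]
    have h2 : (1 - ee c : RR e) ∈ I b := ⟨0, by rw [h1]; exact G.zero_mem⟩
    obtain ⟨n, hn⟩ := hH c (I b) (φ b) (hlin b) h2 (by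
      apply hG0
      have := hφ b _ h2
      rwa [h1] at this)
    exact ⟨n, hfin b n hn⟩
  have hall : ∀ b, ∃ n, (b, n) ∈ G := by
    intro b
    obtain ⟨n, hn⟩ := hK (I b) (φ b) (hlin b) (fun a => by
      obtain ⟨n, hn⟩ := hhom a ((ee a : RR e) • b) (by rw [← mul_smul, ee_mul_self])
      exact ⟨n, hn⟩)
    exact ⟨n, hfin b n hn⟩
  obtain ⟨h, hh⟩ := graph_total G hG0 hall
  refine ⟨h, ?_⟩
  ext a
  exact huniq _ _ _ (hh (u a)) (hGa a)

/-- in the homogeneous case it is enough to look at homogeneous ring elements -/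
theorem redH (N : Type) [AddCommGroup N] [Module (RR e) N] {c : W}
    {I : Submodule (RR e) (RR e)} {g : RR e → N} (hg : LinOn N I g) (h1 : (1 - ee c) ∈ I)
    (h0 : g (1 - ee c) = 0) (n : N) (hn : (ee c : RR e) • n = n)
    (h : ∀ d x (hx : x ∈ HH e d c), el d c x hx ∈ I → g (el d c x hx) = el d c x hx • n) :
    ∀ r ∈ I, g r = r • n := by
  intro r hr
  have h2 : r * (1 - ee c) ∈ I := I.smul_mem r h1
  have h3 : r * ee c ∈ I := by
    have : r * ee c = r - r * (1 - ee c) := by rw [mul_sub, mul_one]; abel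
    rw [this]
    exact I.sub_mem hr h2
  have h4 : g r = g (r * (1 - ee c)) + g (r * ee c) := by
    rw [← hg.add _ h2 _ h3, ← mul_add, sub_add_cancel, mul_one]
  rw [h4, hg.smul r _ h1, h0, smul_zero, zero_add]
  obtain ⟨D, hD⟩ := col_fin r c
  have h5 : ∀ d, ee d * r * ee c ∈ I := fun d => by
    rw [mul_assoc]
    exact I.smul_mem _ h3
  rw [hD, hg.sum D _ fun d _ => h5 d]
  have h6 : ∀ d, g (ee d * r * ee c) = (ee d * r * ee c) • n := fun d => by
    obtain ⟨y, hy, h⟩ := homog r d c
    rw [h]
    apply ‹∀ d x (hx : x ∈ HH e d c), el d c x hx ∈ I → g (el d c x hx) = el d c x hx • n›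
    rw [← h]
    exact h5 d
  calc ∑ d ∈ D, g (ee d * r * ee c) = ∑ d ∈ D, (ee d * r * ee c) • n :=
        Finset.sum_congr rfl fun d _ => h6 d
    _ = (r * ee c) • n := by rw [← Finset.sum_smul, ← hD]
    _ = r • n := by rw [mul_smul, hn]

/-- divisibility -/
def Divis (N : Type) [AddCommGroup N] [Module (RR e) N] : Prop :=
  ∀ (d c : W) (x : QQ W) (hx : x ∈ HH e d c), x ≠ 0 → ∀ w : N, (ee d : RR e) • w = w →
    ∃ n : N, el d c x hx • n = w

/-- divisible pure-injectives are injective -/
theorem pinj_divis_inj (N : Type) [AddCommGroup N] [Module (RR e) N] (hN : PInj (RR e) N)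
    (hd : Divis (e := e) N) : Inj (RR e) N := by
  classical
  refine inj_of N ?_ ?_
  · -- homogeneous elements
    intro c I g hg h1 h0
    let ι : Type := {p : W × QQ W // ∃ hx : p.2 ∈ HH e p.1 c, el p.1 c p.2 hx ∈ I}
    have hmem : ∀ i : ι, i.1.2 ∈ HH e i.1.1 c := fun i => i.2.1
    have hmemI : ∀ i : ι, el i.1.1 c i.1.2 (hmem i) ∈ I := fun i => i.2.2
    haveI : Nonempty ι := ⟨⟨(c, 0), zero_mem _, by rw [el_zero]; exact I.zero_mem⟩⟩
    let J : ι → Submodule (RR e) (RR e) := fun i =>
      span (RR e) {1 - ee c, el i.1.1 c i.1.2 (hmem i)}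
    have hJle : ∀ i j : ι, (∃ w, ∃ hw : w ∈ HH e j.1.1 i.1.1, w * i.1.2 = j.1.2) → J j ≤ J i := by
      intro i j ⟨w, hw, hwx⟩
      rw [span_le]
      rintro z hz
      rcases hz with rfl | hz
      · exact subset_span (Set.mem_insert _ _)
      · rw [Set.mem_singleton_iff] at hz
        rw [hz]
        have : el j.1.1 c j.1.2 (hmem j) = el j.1.1 i.1.1 w hw • el i.1.1 c i.1.2 (hmem i) := by
          rw [smul_eq_mul, el_mul]
          exact el_congr _ _ _ hwx.symm
        rw [this]
        exact (J i).smul_mem _ (subset_span (Set.mem_insert_of_mem _ rfl))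
    have hdir : Directed (· ≤ ·) J := by
      intro i j
      by_cases hi : i.1.2 = 0
      · exact ⟨j, hJle j i ⟨0, zero_mem _, by rw [zero_mul, hi]⟩, le_rfl⟩
      by_cases hj : j.1.2 = 0
      · exact ⟨i, le_rfl, hJle i j ⟨0, zero_mem _, by rw [zero_mul, hj]⟩⟩
      rcases compare (e := e) i.1.1 j.1.1 i.1.2 j.1.2 hi hj with ⟨w, hw, h⟩ | ⟨w, hw, h⟩
      · exact ⟨i, le_rfl, hJle i j ⟨w, hw, h⟩⟩
      · exact ⟨j, hJle j i ⟨w, hw, h⟩, le_rfl⟩
    have hJI : ∀ i, J i ≤ I := by
      intro i
      rw [span_le]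
      rintro z (rfl | hz)
      · exact h1
      · rw [Set.mem_singleton_iff] at hz
        rw [hz]
        exact hmemI i
    have hsup : (⨆ i, J i) ≤ I := iSup_le hJI
    obtain ⟨n, hn⟩ := pinj_solve hN J hdir g (fun x hx y hy => hg.add x (hsup hx) y (hsup hy))
      (fun r x hx => hg.smul r x (hsup hx)) (by
        intro i
        -- a solution for one element
        have hsol : ∃ n : N, (ee c : RR e) • n = n ∧ g (el i.1.1 c i.1.2 (hmem i)) = el i.1.1 c i.1.2 (hmem i) • n := by
          by_cases hi : i.1.2 = 0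
          · refine ⟨0, smul_zero _, ?_⟩
            have : el i.1.1 c i.1.2 (hmem i) = 0 := by
              rw [el_congr _ _ _ hi, el_zero]
            rw [this, hg.zero, zero_smul]
          · obtain ⟨n, hn⟩ := hd i.1.1 c i.1.2 (hmem i) hi (g (el i.1.1 c i.1.2 (hmem i))) (by
              rw [← hg.smul _ _ (hmemI i), ee_mul_el])
            refine ⟨(ee c : RR e) • n, by rw [← mul_smul, ee_mul_self], ?_⟩
            rw [← mul_smul, el_mul_ee, hn]
        obtain ⟨n, hn1, hn2⟩ := hsol
        refine ⟨n, fun x hx => ?_⟩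
        have : ∀ x ∈ J i, x ∈ I ∧ g x = x • n := by
          intro x hx
          induction hx using span_induction with
          | mem x hx =>
            rcases hx with rfl | hx
            · refine ⟨h1, ?_⟩
              rw [h0, sub_smul, one_smul, hn1, sub_self]
            · rw [Set.mem_singleton_iff] at hx
              rw [hx]
              exact ⟨hmemI i, hn2⟩
          | zero => exact ⟨I.zero_mem, by rw [hg.zero, zero_smul]⟩
          | add x y _ _ hx hy =>
            exact ⟨I.add_mem hx.1 hy.1, by rw [hg.add _ hx.1 _ hy.1, hx.2, hy.2, add_smul]⟩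
          | smul r x _ hx =>
            exact ⟨I.smul_mem r hx.1, by rw [smul_eq_mul, hg.smul _ _ hx.1, hx.2, mul_smul]⟩
        exact (this x hx).2)
    have hn1 : (1 - ee c : RR e) • n = 0 := by
      rw [← hn _ ((le_iSup J (Classical.arbitrary ι)) (subset_span (Set.mem_insert _ _))), h0]
    have hn2 : (ee c : RR e) • n = n := by
      rw [sub_smul, one_smul, sub_eq_zero] at hn1
      exact hn1.symm
    refine ⟨n, redH N hg h1 h0 n hn2 ?_⟩
    intro d x hx hI
    exact hn _ ((le_iSup J ⟨(d, x), hx, hI⟩) (subset_span (Set.mem_insert_of_mem _ rfl)))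
  · -- all elements
    intro I g hg hee
    by_cases hone : (1 : RR e) ∈ I
    · refine ⟨g 1, fun x _ => ?_⟩
      rw [← hg.smul x 1 hone, mul_one]
    let J : Finset W → Submodule (RR e) (RR e) := fun D => span (RR e) (ee '' (D : Set W))
    have hdir : Directed (· ≤ ·) J := by
      intro D D'
      refine ⟨D ∪ D', span_mono (image_mono ?_), span_mono (image_mono ?_)⟩
      · simp
      · simp
    have hJI : ∀ D, J D ≤ I := by
      intro D
      rw [span_le]
      rintro z ⟨a, -, rfl⟩
      exact hee a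
    have hsup : (⨆ D, J D) ≤ I := iSup_le hJI
    have hSS : ∀ s ∈ (SS : AddSubgroup (RR e)), s ∈ ⨆ D, J D := by
      intro s hs
      induction hs using AddSubgroup.closure_induction with
      | mem s hs =>
        obtain ⟨a, b, x, hx, rfl⟩ := hs
        rw [← el_mul_ee]
        refine smul_mem _ _ ((le_iSup J {b}) (subset_span ⟨b, by simp, rfl⟩))
      | zero => exact zero_mem _
      | add s t _ _ h1 h2 => exact add_mem h1 h2
      | neg s _ h => exact neg_mem h
    have hIsup : I ≤ ⨆ D, J D := by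
      intro x hx
      obtain ⟨s, hs, h⟩ := decomp x
      rcases h with h | h
      · rw [h]
        exact hSS s hs
      · exfalso
        apply hone
        have : (1 : RR e) = x - s := by rw [h]; abel
        rw [this]
        exact I.sub_mem hx (hsup (hSS s hs))
    obtain ⟨n, hn⟩ := pinj_solve hN J hdir g (fun x hx y hy => hg.add x (hsup hx) y (hsup hy))
      (fun r x hx => hg.smul r x (hsup hx)) (by
        intro D
        refine ⟨∑ a ∈ D, g (ee a), fun x hx => ?_⟩
        have : ∀ x ∈ J D, x ∈ I ∧ g x = x • ∑ a ∈ D, g (ee a) := by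
          intro x hx
          induction hx using span_induction with
          | mem x hx =>
            obtain ⟨a, ha, rfl⟩ := hx
            refine ⟨hee a, ?_⟩
            rw [Finset.smul_sum, Finset.sum_eq_single_of_mem a ha]
            · rw [← hg.smul _ _ (hee a), ee_mul_self]
            · intro b _ hb
              rw [← hg.smul _ _ (hee b), ee_mul_ne _ _ hb.symm, hg.zero]
          | zero => exact ⟨I.zero_mem, by rw [hg.zero, zero_smul]⟩
          | add x y _ _ hx hy =>
            exact ⟨I.add_mem hx.1 hy.1, by rw [hg.add _ hx.1 _ hy.1, hx.2, hy.2, add_smul]⟩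
          | smul r x _ hx =>
            exact ⟨I.smul_mem r hx.1, by rw [smul_eq_mul, hg.smul _ _ hx.1, hx.2, mul_smul]⟩
        exact (this x hx).2)
    exact ⟨n, fun x hx => hn x (hIsup hx)⟩

end Pool.Agent.Helper173.Sob
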