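import Mathlib

set_option autoImplicit false

namespace Pool.Agent.Helper173.Sob

open Set

variable {W : Type} [LinearOrder W] [WellFoundedLT W]

/-- one step of the construction of a coherent sequence of finite-to-one functions -/
theorem ext_step (hc : ∀ b : W, (Iic b).Countable) (β : W) (e : W → W → ℕ)
    (h1 : ∀ α < β, ∀ m, {ξ | ξ ≤ α ∧ e α ξ = m}.Finite)
    (h2 : ∀ α < β, ∀ α' < β, α ≤ α' → {ξ | ξ ≤ α ∧ e α ξ ≠ e α' ξ}.Finite) :
    ∃ g : W → ℕ, (∀ m, {ξ | ξ ≤ β ∧ g ξ = m}.Finite) ∧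
      ∀ α < β, {ξ | ξ ≤ α ∧ g ξ ≠ e α ξ}.Finite := by
  classical
  by_cases hne : (Iio β).Nonempty
  swap
  · refine ⟨fun _ => 0, fun m => ?_, fun α hα => (hne ⟨α, hα⟩).elim⟩
    refine (finite_singleton β).subset ?_
    rintro ξ ⟨hξ, -⟩
    rcases hξ.lt_or_eq with h | h
    · exact (hne ⟨ξ, h⟩).elim
    · exact h
  have hcount : (Iio β).Countable := (hc β).mono Iio_subset_Iic_self
  obtain ⟨f, hf⟩ := hcount.exists_eq_range hne
  have hfβ : ∀ n, f n < β := fun n => by
    have : f n ∈ Iio β := by rw [hf]; exact mem_range_self n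
    exact this
  have hfs : ∀ α < β, ∃ n, f n = α := fun α hα => by
    have : α ∈ Iio β := hα
    rw [hf] at this
    exact this
  -- running maximum
  let b : ℕ → W := fun n => Nat.rec (f 0) (fun n x => max x (f (n + 1))) n
  have hb0 : b 0 = f 0 := rfl
  have hbs : ∀ n, b (n + 1) = max (b n) (f (n + 1)) := fun n => rfl
  have hbβ : ∀ n, b n < β := by
    intro n
    induction n with
    | zero => exact hfβ 0
    | succ n ih => rw [hbs]; exact max_lt ih (hfβ _)
  have hbf : ∀ n, f n ≤ b n := by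
    intro n
    cases n with
    | zero => exact le_rfl
    | succ n => rw [hbs]; exact le_max_right _ _
  have hbm : Monotone b := monotone_nat_of_le_succ fun n => by rw [hbs]; exact le_max_left _ _
  have hbc : ∀ α < β, ∃ n, α ≤ b n := fun α hα => by
    obtain ⟨n, rfl⟩ := hfs α hα
    exact ⟨n, hbf n⟩
  let N : W → ℕ := fun ξ => sInf {n | ξ ≤ b n}
  have hN : ∀ ξ < β, ξ ≤ b (N ξ) := fun ξ hξ => by
    have h : {n | ξ ≤ b n}.Nonempty := hbc ξ hξ
    exact Nat.sInf_mem h
  have hNle : ∀ ξ < β, ∀ n, ξ ≤ b n → N ξ ≤ n := fun ξ hξ n hn => Nat.sInf_le hn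
  let g : W → ℕ := fun ξ => if ξ < β then max (e (b (N ξ)) ξ) (N ξ) else 0
  have hg : ∀ ξ < β, g ξ = max (e (b (N ξ)) ξ) (N ξ) := fun ξ hξ => by simp only [g, if_pos hξ]
  have hcoh : ∀ α < β, {ξ | ξ ≤ α ∧ g ξ ≠ e α ξ}.Finite := by
    intro α hα
    obtain ⟨n, hn⟩ := hbc α hα
    have hfin : ((⋃ k ∈ Finset.range (n + 1),
        ((⋃ m ∈ Finset.range k, {ξ | ξ ≤ b k ∧ e (b k) ξ = m}) ∪
          {ξ | ξ ≤ b k ∧ e (b k) ξ ≠ e (b n) ξ})) ∪ {ξ | ξ ≤ α ∧ e α ξ ≠ e (b n) ξ}).Finite := by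
      refine Finite.union ?_ (h2 α hα (b n) (hbβ n) hn)
      refine Finite.biUnion (Finset.finite_toSet _) fun k hk => ?_
      have hk' : k ≤ n := by
        have := Finset.mem_range.mp (Finset.mem_coe.mp hk)
        omega
      refine Finite.union ?_ (h2 (b k) (hbβ k) (b n) (hbβ n) (hbm hk'))
      exact Finite.biUnion (Finset.finite_toSet _) fun m _ => h1 (b k) (hbβ k) m
    refine hfin.subset ?_
    rintro ξ ⟨hξ, hne'⟩
    have hξβ : ξ < β := lt_of_le_of_lt hξ hα
    by_contra hcon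
    simp only [mem_union, mem_iUnion, mem_ofPred_eq, not_or, not_exists, not_and, not_not,
      Finset.mem_range, exists_prop] at hcon
    obtain ⟨hA, hB⟩ := hcon
    have hNn : N ξ ≤ n := hNle ξ hξβ n (hξ.trans hn)
    obtain ⟨hA1, hA2⟩ := hA (N ξ) (by omega)
    have h3 : e (b (N ξ)) ξ = e (b n) ξ := hA2 (hN ξ hξβ)
    have h4 : e α ξ = e (b n) ξ := hB hξ
    have h5 : ¬ e (b (N ξ)) ξ < N ξ := fun hlt => hA1 (e (b (N ξ)) ξ) hlt (hN ξ hξβ) rfl
    apply hne'
    rw [hg ξ hξβ, max_eq_left (not_lt.mp h5), h3, h4]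
  refine ⟨g, ?_, hcoh⟩
  intro m
  have hfin : ({β} ∪ ({ξ | ξ ≤ b m ∧ g ξ ≠ e (b m) ξ} ∪ {ξ | ξ ≤ b m ∧ e (b m) ξ = m})).Finite :=
    (finite_singleton β).union ((hcoh (b m) (hbβ m)).union (h1 (b m) (hbβ m) m))
  refine hfin.subset ?_
  rintro ξ ⟨hξ, hgm⟩
  rcases hξ.lt_or_eq with hlt | heq
  · right
    have hNm : N ξ ≤ m := by
      rw [← hgm, hg ξ hlt]
      exact le_max_right _ _
    have hbm' : ξ ≤ b m := (hN ξ hlt).trans (hbm hNm)
    by_cases h : g ξ = e (b m) ξ
    · right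
      exact ⟨hbm', by rw [← h]; exact hgm⟩
    · left
      exact ⟨hbm', h⟩
  · left
    exact heq

/-- existence of a coherent sequence of finite-to-one functions -/
theorem exists_coherent (hc : ∀ b : W, (Iic b).Countable) :
    ∃ e : W → W → ℕ, (∀ β m, {ξ | ξ ≤ β ∧ e β ξ = m}.Finite) ∧
      ∀ β, ∀ α ≤ β, {ξ | ξ ≤ α ∧ e β ξ ≠ e α ξ}.Finite := by
  classical
  let P : (β : W) → ((α : W) → α < β → W → ℕ) → (W → ℕ) → Prop := fun β prev g =>
    (∀ m, {ξ | ξ ≤ β ∧ g ξ = m}.Finite) ∧ ∀ α (h : α < β), {ξ | ξ ≤ α ∧ g ξ ≠ prev α h ξ}.Finite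
  let F : (β : W) → ((α : W) → α < β → W → ℕ) → (W → ℕ) := fun β prev =>
    if h : ∃ g, P β prev g then h.choose else fun _ => 0
  let e : W → W → ℕ := (wellFounded_lt (α := W)).fix F
  have he : ∀ β, e β = F β (fun α _ => e α) := fun β => (wellFounded_lt (α := W)).fix_eq F β
  have key : ∀ β, P β (fun α _ => e α) (e β) := by
    intro β
    induction β using (wellFounded_lt (α := W)).induction with
    | _ β ih =>
      have hex : ∃ g, P β (fun α _ => e α) g := by
        obtain ⟨g, hg1, hg2⟩ := ext_step hc β e (fun α hα => (ih α hα).1) (by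
          intro α hα α' hα' hle
          rcases hle.lt_or_eq with h | h
          · refine ((ih α' hα').2 α h).subset ?_
            rintro ξ ⟨h1, h2⟩
            exact ⟨h1, fun h => h2 h.symm⟩
          · subst h
            simp)
        exact ⟨g, hg1, fun α h => hg2 α h⟩
      have : e β = hex.choose := by
        rw [he β]
        simp only [F]
        rw [dif_pos hex]
      rw [this]
      exact hex.choose_spec
  refine ⟨e, fun β => (key β).1, fun β α hα => ?_⟩
  rcases hα.lt_or_eq with h | h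
  · exact (key β).2 α h
  · subst h
    simp

/-- nontriviality -/
theorem not_trivial [Uncountable W]
    (e : W → W → ℕ) (h1 : ∀ β m, {ξ | ξ ≤ β ∧ e β ξ = m}.Finite) :
    ¬ ∃ f : W → ℤ, ∀ β, {ξ | ξ ≤ β ∧ f ξ ≠ (e β ξ : ℤ)}.Finite := by
  classical
  rintro ⟨f, hf⟩
  have huc : ∃ n : ℤ, ¬ (f ⁻¹' {n}).Countable := by
    by_contra hcon
    push Not at hcon
    have : (univ : Set W) = ⋃ n : ℤ, f ⁻¹' {n} := by
      ext x; simp
    have h2 : (univ : Set W).Countable := by
      rw [this]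
      exact countable_iUnion hcon
    exact (not_countable_univ_iff.mpr inferInstance) h2
  obtain ⟨n, hn⟩ := huc
  -- all intersections with initial segments finite implies countable
  have hfin : ∀ β, {ξ | ξ ≤ β ∧ f ξ = n}.Finite := by
    intro β
    have : {ξ | ξ ≤ β ∧ f ξ = n} ⊆ {ξ | ξ ≤ β ∧ f ξ ≠ (e β ξ : ℤ)} ∪ {ξ | ξ ≤ β ∧ e β ξ = n.toNat} := by
      rintro ξ ⟨h2, h3⟩
      by_cases h : f ξ = (e β ξ : ℤ)
      · right
        refine ⟨h2, ?_⟩
        rw [← h3, h]
        simp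
      · left
        exact ⟨h2, h⟩
    exact ((hf β).union (h1 β _)).subset this
  -- the set S = f⁻¹ n has all proper initial segments finite so it is countable
  apply hn
  have hinj : Function.Injective (fun x : f ⁻¹' {n} => ((hfin x.1).toFinset.card)) := by
    rintro ⟨x, hx⟩ ⟨y, hy⟩ hxy
    simp only at hxy
    have hx' : f x = n := hx
    have hy' : f y = n := hy
    by_contra hne
    have hne' : x ≠ y := fun h => hne (Subtype.ext h)
    rcases lt_or_gt_of_ne hne' with h | h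
    · have hsub : (hfin x).toFinset ⊂ (hfin y).toFinset := by
        rw [Finset.ssubset_iff_of_subset]
        · refine ⟨y, by simp [hy'], by simp [h]⟩
        · intro z hz
          simp only [Finite.mem_toFinset, mem_ofPred_eq] at hz ⊢
          exact ⟨hz.1.trans h.le, hz.2⟩
      exact (Finset.card_lt_card hsub).ne hxy
    · have hsub : (hfin y).toFinset ⊂ (hfin x).toFinset := by
        rw [Finset.ssubset_iff_of_subset]
        · refine ⟨x, by simp [hx'], by simp [h]⟩
        · intro z hz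
          simp only [Finite.mem_toFinset, mem_ofPred_eq] at hz ⊢
          exact ⟨hz.1.trans h.le, hz.2⟩
      exact (Finset.card_lt_card hsub).ne' hxy
  have : Countable (f ⁻¹' {n}) := hinj.countable
  exact this

/-- the index set and the coherent sequence -/
theorem exists_data : ∃ (W : Type) (_ : LinearOrder W) (_ : WellFoundedLT W) (e : W → W → ℤ),
    Nonempty W ∧ (∀ b : W, ∃ c, b < c) ∧
    (∀ β, ∀ α ≤ β, {ξ | ξ ≤ α ∧ e β ξ ≠ e α ξ}.Finite) ∧
    ¬ ∃ f : W → ℤ, ∀ β, {ξ | ξ ≤ β ∧ f ξ ≠ e β ξ}.Finite := by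
  classical
  let W : Type := (Cardinal.aleph 1).ord.ToType
  have hW : Cardinal.mk W = Cardinal.aleph 1 := by simp [W]
  haveI hunc : Uncountable W := by
    rw [← Cardinal.aleph0_lt_mk_iff, hW]
    exact Cardinal.aleph0_lt_aleph_one
  have hIio : ∀ b : W, (Iio b).Countable := by
    intro b
    have h : Cardinal.mk (Iio b) < Cardinal.aleph 1 := Cardinal.mk_Iio_toType_ord_lt b
    rw [← Cardinal.le_aleph0_iff_set_countable]
    have h2 : Cardinal.mk (Iio b) < Order.succ Cardinal.aleph0 := lt_of_lt_of_eq h Cardinal.succ_aleph0.symm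
    exact Order.lt_succ_iff.mp h2
  have hc : ∀ b : W, (Iic b).Countable := by
    intro b
    rw [← Iio_insert]
    exact (hIio b).insert b
  obtain ⟨e, he1, he2⟩ := exists_coherent hc
  refine ⟨W, inferInstance, inferInstance, fun β ξ => (e β ξ : ℤ), ?_, ?_, ?_, ?_⟩
  · by_contra h
    rw [not_nonempty_iff] at h
    exact not_countable (α := W) inferInstance
  · intro b
    by_contra hcon
    push Not at hcon
    have : (univ : Set W) ⊆ Iic b := fun c _ => hcon c
    exact (not_countable_univ_iff.mpr hunc) ((hc b).mono this)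
  · intro β α hα
    refine (he2 β α hα).subset ?_
    rintro ξ ⟨h1, h2⟩
    exact ⟨h1, fun h => h2 (by simp [h])⟩
  · exact not_trivial e he1

end Pool.Agent.Helper173.Sob
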