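import Mathlib
import Pool.Agent.Helper173.SobInj

set_option autoImplicit false

namespace Pool.Agent.Helper173.Sob

open Set Submodule

variable {W : Type} [LinearOrder W] [WellFoundedLT W] {e : W → W → ℤ}

noncomputable instance instModM0 : Module (RR e) (M0 W) :=
  Module.compHom (M0 W) (RR e).subtype

noncomputable instance instSMulM0 : SMul (RR e) (M0 W) := (instModM0).toSMul

theorem el_smul (a b : W) (x : QQ W) (hx : x ∈ HH e a b) (f : M0 W) :
    el a b x hx • f = Pi.single a (x * f b) := rfl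

theorem ee_smul (a : W) (f : M0 W) : (ee a : RR e) • f = Pi.single a (f a) := by
  rw [ee, el_smul, one_mul]

variable (e) in
/-- the submodule of level `β` -/
def JJ (β : W) : Submodule (RR e) (M0 W) where
  carrier := {f | ∀ c, f c ∈ subU (ZMod 2) (VS e β c)}
  add_mem' := fun hf hg c => add_mem (hf c) (hg c)
  zero_mem' := fun c => zero_mem _
  smul_mem' := by
    rintro ⟨r, hr⟩ f hf
    have key : ∀ r : Module.End (QQ W) (M0 W), r ∈ RR e → ∀ f : M0 W,
        (∀ c, f c ∈ subU (ZMod 2) (VS e β c)) → ∀ c, (r f) c ∈ subU (ZMod 2) (VS e β c) := by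
      intro r hr
      unfold RR at hr
      induction hr using Subring.closure_induction with
      | mem T hT =>
        obtain ⟨a, b, x, hx, rfl⟩ := hT
        intro f hf c
        rw [EE_apply]
        by_cases hc : c = a
        · subst hc
          rw [Pi.single_eq_same]
          exact mul_mem_subU (fun _ hu _ hv => US_VS hu hv) hx (hf b)
        · rw [Pi.single_eq_of_ne hc]
          exact zero_mem _
      | zero => intro f hf c; exact zero_mem _
      | one => intro f hf c; exact hf c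
      | add x y _ _ hx hy => intro f hf c; exact add_mem (hx f hf c) (hy f hf c)
      | neg x _ hx => intro f hf c; exact neg_mem (hx f hf c)
      | mul x y _ _ hx hy => intro f hf c; exact hx _ (hy f hf) c
    exact key r hr f hf

theorem mem_JJ {β : W} {f : M0 W} : f ∈ JJ e β ↔ ∀ c, f c ∈ subU (ZMod 2) (VS e β c) := Iff.rfl

theorem single_mem_JJ {β d : W} {x : QQ W} :
    (Pi.single d x : M0 W) ∈ JJ e β ↔ x ∈ subU (ZMod 2) (VS e β d) := by
  rw [mem_JJ]
  constructor
  · intro h
    have := h d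
    rwa [Pi.single_eq_same] at this
  · intro h c
    by_cases hc : c = d
    · subst hc
      rwa [Pi.single_eq_same]
    · rw [Pi.single_eq_of_ne hc]
      exact zero_mem _

variable (e) in
/-- the modules -/
abbrev NN (β : W) : Type := M0 W ⧸ JJ e β

theorem mul_mem_iff {V : Set (Gam W)} (hV : IsUpperSet V) {x y : QQ W} (hx : x ≠ 0) :
    x * y ∈ subU (ZMod 2) V ↔ y ∈ subU (ZMod 2) {γ | γ + x.order ∈ V} := by
  by_cases hy : y = 0
  · rw [hy, mul_zero]
    exact ⟨fun _ => zero_mem _, fun _ => zero_mem _⟩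
  have hU : IsUpperSet {γ : Gam W | γ + x.order ∈ V} := fun a b hab ha =>
    hV (add_le_add_left hab _) ha
  rw [mem_subU_iff_order hV (mul_ne_zero hx hy), mem_subU_iff_order hU hy,
    HahnSeries.order_mul hx hy, add_comm]
  rfl

/-- separation -/
theorem NN_sep {β : W} (v : NN e β) (h : ∀ d, (ee d : RR e) • v = 0) : v = 0 := by
  obtain ⟨f, rfl⟩ := (JJ e β).mkQ_surjective v
  rw [mkQ_apply, Quotient.mk_eq_zero, mem_JJ]
  intro d
  have h1 := h d
  rw [← map_smul, ee_smul, mkQ_apply, Quotient.mk_eq_zero, single_mem_JJ] at h1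
  exact h1

theorem NN_condH (β : W) : CondH (e := e) (NN e β) := by
  classical
  intro c I g hg h1 h0
  let ι : Type := {p : W × QQ W // p.2 ≠ 0 ∧ ∃ hx : p.2 ∈ HH e p.1 c, el p.1 c p.2 hx ∈ I}
  have hne : ∀ i : ι, i.1.2 ≠ 0 := fun i => i.2.1
  have hmem : ∀ i : ι, i.1.2 ∈ HH e i.1.1 c := fun i => i.2.2.1
  have hmemI : ∀ i : ι, el i.1.1 c i.1.2 (hmem i) ∈ I := fun i => i.2.2.2
  have hrep : ∀ v : NN e β, ∃ f : M0 W, (JJ e β).mkQ f = v := (JJ e β).mkQ_surjective
  choose rep hrepe using hrep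
  let t : ι → QQ W := fun i => rep (g (el i.1.1 c i.1.2 (hmem i))) i.1.1
  let q : ι → QQ W := fun i => t i / i.1.2
  let B : ι → Set (Gam W) := fun i => {γ | γ + i.1.2.order ∈ VS e β i.1.1}
  have hBup : ∀ i, IsUpperSet (B i) := fun i a b hab ha =>
    VS_upper e β i.1.1 (add_le_add_left hab _) ha
  -- the basic comparison
  have hcmp : ∀ i j : ι, (∃ w ∈ HH e j.1.1 i.1.1, w * i.1.2 = j.1.2) →
      q j - q i ∈ subU (ZMod 2) (B j) := by
    intro i j ⟨w, hw, hwx⟩
    have h2 : el j.1.1 c j.1.2 (hmem j) = el j.1.1 i.1.1 w hw * el i.1.1 c i.1.2 (hmem i) := by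
      rw [el_mul]
      exact el_congr _ _ _ hwx.symm
    have h3 : g (el j.1.1 c j.1.2 (hmem j)) =
        el j.1.1 i.1.1 w hw • g (el i.1.1 c i.1.2 (hmem i)) := by
      rw [h2, hg.smul _ _ (hmemI i)]
    have h4 : t j - w * t i ∈ subU (ZMod 2) (VS e β j.1.1) := by
      have h5 : rep (g (el j.1.1 c j.1.2 (hmem j))) -
          el j.1.1 i.1.1 w hw • rep (g (el i.1.1 c i.1.2 (hmem i))) ∈ JJ e β := by
        rw [← Quotient.mk_eq_zero, ← mkQ_apply, map_sub, map_smul, hrepe, hrepe, h3, sub_self]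
      have h6 := mem_JJ.mp h5 j.1.1
      rw [el_smul, Pi.sub_apply, Pi.single_eq_same] at h6
      exact h6
    have h7 : j.1.2 * (q j - q i) = t j - w * t i := by
      simp only [q]
      rw [mul_sub, mul_div_cancel₀ _ (hne j)]
      congr 1
      rw [← hwx, mul_assoc, mul_div_cancel₀ _ (hne i)]
    rw [← h7] at h4
    exact (mul_mem_iff (VS_upper e β _) (hne j)).mp h4
  obtain ⟨z, hz⟩ := spherical B hBup q (fun i j hij => by
    rcases compare (e := e) i.1.1 j.1.1 i.1.2 j.1.2 (hne i) (hne j) with h | h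
    · have := neg_mem (hcmp i j h)
      rwa [neg_sub] at this
    · exact subU_mono hij (hcmp j i h))
  refine ⟨(JJ e β).mkQ (Pi.single c z), redH _ hg h1 h0 _ ?_ ?_⟩
  · rw [← map_smul, ee_smul, Pi.single_eq_same]
  · intro d x hx hI
    by_cases hx0 : x = 0
    · have : el d c x hx = 0 := by rw [el_congr _ _ _ hx0, el_zero]
      rw [this, hg.zero, zero_smul]
    · let i : ι := ⟨(d, x), hx0, hx, hI⟩
      have hgi : g (el d c x hx) = (JJ e β).mkQ (Pi.single d (t i)) := by
        have h2 : g (el d c x hx) = (ee d : RR e) • g (el d c x hx) := by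
          rw [← hg.smul _ _ hI, ee_mul_el]
        rw [h2]
        conv_lhs => rw [← hrepe (g (el d c x hx))]
        rw [← map_smul, ee_smul]
      rw [hgi, ← map_smul, el_smul, Pi.single_eq_same, ← sub_eq_zero, ← map_sub, mkQ_apply,
        Quotient.mk_eq_zero, ← Pi.single_sub, single_mem_JJ]
      have h3 : t i - x * z = x * (-(z - q i)) := by
        simp only [q]
        rw [neg_sub, mul_sub, mul_div_cancel₀ _ (hne i)]
      rw [h3, mul_mem_iff (VS_upper e β _) hx0]
      exact neg_mem (hz i)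

theorem NN_condK (β : W) : CondK (e := e) (NN e β) := by
  classical
  intro I g hg hee
  have hrep : ∀ v : NN e β, ∃ f : M0 W, (JJ e β).mkQ f = v := (JJ e β).mkQ_surjective
  choose rep hrepe using hrep
  let n0 : M0 W := fun a => rep (g (ee a)) a
  refine ⟨(JJ e β).mkQ n0, fun x hx => ?_⟩
  have hn : ∀ b, (ee b : RR e) • (JJ e β).mkQ n0 = g (ee b) := by
    intro b
    have h2 : g (ee b) = (ee b : RR e) • g (ee b) := by
      rw [← hg.smul _ _ (hee b), ee_mul_self]
    rw [h2]
    conv_rhs => rw [← hrepe (g (ee b))]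
    rw [← map_smul, ← map_smul, ee_smul, ee_smul]
  rw [← sub_eq_zero]
  apply NN_sep
  intro d
  rw [smul_sub, sub_eq_zero, ← hg.smul _ _ hx, ← mul_smul]
  obtain ⟨D, hD⟩ := row_fin x d
  have hDI : ∀ b ∈ D, ee d * x * ee b ∈ I := fun b _ => I.smul_mem _ (hee b)
  rw [hD, hg.sum D _ hDI, Finset.sum_smul]
  refine Finset.sum_congr rfl fun b _ => ?_
  rw [hg.smul _ _ (hee b), mul_smul (ee d * x) (ee b), hn]

theorem NN_inj (β : W) : Inj (RR e) (NN e β) := inj_of _ (NN_condH β) (NN_condK β)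

theorem NN_divis (β : W) : Divis (e := e) (NN e β) := by
  intro d c x hx hx0 w hw
  obtain ⟨f, rfl⟩ := (JJ e β).mkQ_surjective w
  refine ⟨(JJ e β).mkQ (Pi.single c (f d / x)), ?_⟩
  rw [← map_smul, el_smul, Pi.single_eq_same, mul_div_cancel₀ _ hx0, ← ee_smul (e := e) d f,
    map_smul, hw]

/-- the positive generator at `β` -/
noncomputable def o1 (β : W) : Gam W := toLex (Finsupp.single β 1)

theorem o1_self (β : W) : ofLex (o1 β) β = 1 := by
  simp [o1]

theorem o1_ne {β ξ : W} (h : ξ ≠ β) : ofLex (o1 β) ξ = 0 := by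
  simp [o1, Finsupp.single_eq_of_ne h]

theorem neg_o1_notMem (β : W) : - o1 β ∉ VS e β β := by
  intro h
  change trunc β (E e β) ≤ tr (- o1 β) (E e β) at h
  rw [trunc_E] at h
  apply absurd h
  rw [not_le]
  refine TT.lt_def.mpr ⟨β, fun j hj => ?_, ?_⟩
  · rw [tr_apply]
    have : ofLex (- o1 β) j = 0 := by
      change - (ofLex (o1 β) j) = 0
      rw [o1_ne hj.ne, neg_zero]
    rw [this]
    simp
  · rw [tr_apply, E_apply, if_pos le_rfl]
    have : ofLex (- o1 β) β = -1 := by
      change - (ofLex (o1 β) β) = -1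
      rw [o1_self]
    rw [this, ← WithBot.coe_add, WithBot.coe_lt_coe]
    omega

theorem zero_mem_VS (β : W) : (0 : Gam W) ∈ VS e β β := by
  change trunc β (E e β) ≤ tr 0 (E e β)
  rw [trunc_E, tr_zero]

theorem NN_nontrivial (β : W) : Nontrivial (NN e β) := by
  rw [Submodule.Quotient.nontrivial_iff]
  intro h
  have h1 : (Pi.single β (HahnSeries.single (- o1 β) (1 : ZMod 2)) : M0 W) ∈ JJ e β := by
    rw [h]
    exact mem_top
  rw [single_mem_JJ, single_mem_subU_iff] at h1
  exact neg_o1_notMem β h1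

theorem NN_indec (β : W) (P Q : Submodule (RR e) (NN e β)) (hPQ : IsCompl P Q) :
    P = ⊥ ∨ Q = ⊥ := by
  by_contra hcon
  push Not at hcon
  obtain ⟨hP, hQ⟩ := hcon
  have key : ∀ P : Submodule (RR e) (NN e β), P ≠ ⊥ → ∃ (d : W) (x : QQ W),
      (JJ e β).mkQ (Pi.single d x) ∈ P ∧ (JJ e β).mkQ (Pi.single d x) ≠ 0 := by
    intro P hP
    obtain ⟨p, hp, hp0⟩ := P.exists_mem_ne_zero_of_ne_bot hP
    by_contra hcon
    push Not at hcon
    apply hp0
    apply NN_sep
    intro d
    have h1 : (ee d : RR e) • p ∈ P := P.smul_mem _ hp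
    obtain ⟨f, rfl⟩ := (JJ e β).mkQ_surjective p
    rw [← map_smul, ee_smul] at h1 ⊢
    exact hcon d (f d) h1
  obtain ⟨d, x, hx, hx0⟩ := key P hP
  obtain ⟨d', y, hy, hy0⟩ := key Q hQ
  have hx1 : x ≠ 0 := by
    rintro rfl
    apply hx0
    rw [Pi.single_zero, map_zero]
  have hy1 : y ≠ 0 := by
    rintro rfl
    apply hy0
    rw [Pi.single_zero, map_zero]
  have hdis := hPQ.disjoint
  rw [disjoint_def] at hdis
  rcases compare (e := e) d d' x y hx1 hy1 with ⟨w, hw, h⟩ | ⟨w, hw, h⟩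
  · apply hy0
    apply hdis _ _ hy
    have h1 : el d' d w hw • (JJ e β).mkQ (Pi.single d x) ∈ P := P.smul_mem _ hx
    rw [← map_smul, el_smul, Pi.single_eq_same, h] at h1
    exact h1
  · apply hx0
    apply hdis _ hx
    have h1 : el d d' w hw • (JJ e β).mkQ (Pi.single d' y) ∈ Q := Q.smul_mem _ hy
    rw [← map_smul, el_smul, Pi.single_eq_same, h] at h1
    exact h1

end Pool.Agent.Helper173.Sob
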