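import Mathlib
import Pool.Agent.Helper173.SobMod

set_option autoImplicit false

namespace Pool.Agent.Helper173.Sob

open Set Submodule

section general

variable {R : Type} [Ring R] {F G N : Type} [AddCommGroup F] [Module R F] [AddCommGroup G]
  [Module R G] [AddCommGroup N] [Module R N]

theorem Inj.open_iff (hN : Inj R N) (f : F →ₗ[R] G) :
    (∃ g : F →ₗ[R] N, ∀ h : G →ₗ[R] N, h ∘ₗ f ≠ g) ↔
      ∃ y, f y = 0 ∧ ∃ g : F →ₗ[R] N, g y ≠ 0 := by
  constructor
  · rintro ⟨g, hg⟩
    by_contra hcon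
    push Not at hcon
    have hker : LinearMap.ker f ≤ LinearMap.ker g := fun y hy => hcon y hy g
    obtain ⟨h, hh⟩ := hN (F ⧸ LinearMap.ker f) G ((LinearMap.ker f).liftQ f le_rfl) (by
      rw [← LinearMap.ker_eq_bot]
      exact Submodule.ker_liftQ_eq_bot _ _ _ le_rfl) ((LinearMap.ker f).liftQ g hker)
    apply hg h
    ext x
    have := LinearMap.congr_fun hh (mkQ _ x)
    simpa using this
  · rintro ⟨y, hy, g, hg⟩
    refine ⟨g, fun h hh => hg ?_⟩
    rw [← hh, LinearMap.comp_apply, hy, map_zero]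

end general

variable {W : Type} [LinearOrder W] [WellFoundedLT W] {e : W → W → ℤ}

theorem exists_kappa {β β' : W} (h : β < β')
    (hcoh : {ξ | ξ ≤ β ∧ e β' ξ ≠ e β ξ}.Finite) :
    ∃ κ : ℕ → Gam W, (∀ n c γ, γ + κ n ∈ VS e β' c → γ ∈ VS e β c) ∧
      ∀ c γ, γ ∈ VS e β c → ∃ n0, ∀ n ≥ n0, γ + κ n ∈ VS e β' c := by
  classical
  obtain ⟨s, hs, hsmin⟩ := WellFounded.has_min (wellFounded_lt (α := W)) {x | β < x} ⟨β', h⟩
  have hβs : β < s := hs
  have hmin : ∀ x, x < s → x ≤ β := fun x hx => by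
    by_contra hcon
    exact hsmin x (not_le.mp hcon) hx
  have hsβ' : s ≤ β' := not_lt.mp (hsmin β' h)
  let k : ℕ → W → ℤ := fun n ξ => if ξ ≤ β then e β ξ - e β' ξ else if ξ = s then (n : ℤ) else 0
  have hk : ∀ n, (Function.support (k n)).Finite := by
    intro n
    refine (hcoh.union (Set.finite_singleton s)).subset ?_
    intro ξ hξ
    simp only [Function.mem_support, k] at hξ
    split_ifs at hξ with h1 h2
    · left
      exact ⟨h1, fun h2 => hξ (by rw [h2, sub_self])⟩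
    · right
      exact h2
    · exact absurd rfl hξ
  let κ : ℕ → Gam W := fun n => toLex (Finsupp.ofSupportFinite (k n) (hk n))
  have hκ : ∀ n ξ, ofLex (κ n) ξ = k n ξ := fun n ξ => rfl
  have hle : ∀ n γ ξ, ξ ≤ β → ofLex (tr (γ + κ n) (E e β')) ξ = ofLex (tr γ (E e β)) ξ := by
    intro n γ ξ hξ
    rw [tr_apply, tr_apply, E_apply, E_apply, if_pos (hξ.trans h.le), if_pos hξ]
    have : ofLex (γ + κ n) ξ = ofLex γ ξ + k n ξ := rfl
    rw [this, ← WithBot.coe_add, ← WithBot.coe_add, WithBot.coe_inj]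
    simp only [k, if_pos hξ]
    ring
  have hcutE : ∀ c ξ, ξ ≤ β → ofLex (trunc β' (E e c)) ξ = ofLex (trunc β (E e c)) ξ := by
    intro c ξ hξ
    rw [trunc_apply, trunc_apply, if_pos hξ, if_pos (hξ.trans h.le)]
  have hbot1 : ∀ c ξ, ¬ ξ ≤ β → ofLex (trunc β (E e c)) ξ = ⊥ := by
    intro c ξ hξ
    rw [trunc_apply, if_neg hξ]
  have hbot2 : ∀ γ ξ, ¬ ξ ≤ β → ofLex (tr γ (E e β)) ξ = ⊥ := by
    intro γ ξ hξ
    rw [tr_apply, E_apply, if_neg hξ, WithBot.bot_add]
  refine ⟨κ, ?_, ?_⟩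
  · intro n c γ hγ
    have h1 := trunc_mono (b := β) hγ
    rw [trunc_trunc h.le] at h1
    have h2 : trunc β (tr (γ + κ n) (E e β')) = tr γ (E e β) := by
      apply TT.ext'
      intro ξ
      rw [trunc_apply]
      split_ifs with hξ
      · exact hle n γ ξ hξ
      · exact (hbot2 γ ξ hξ).symm
    rw [h2] at h1
    exact h1
  · intro c γ hγ
    have hγ' : trunc β (E e c) ≤ tr γ (E e β) := hγ
    rcases hγ'.lt_or_eq with hlt | heq
    · obtain ⟨i, hi, hlti⟩ := TT.lt_def.mp hlt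
      have hib : i ≤ β := by
        by_contra hib
        rw [hbot1 c i hib, hbot2 γ i hib] at hlti
        exact lt_irrefl _ hlti
      refine ⟨0, fun n _ => le_of_lt (TT.lt_def.mpr ⟨i, fun j hj => ?_, ?_⟩)⟩
      · rw [hle n γ j (hj.le.trans hib), hcutE c j (hj.le.trans hib), hi j hj]
      · rw [hle n γ i hib, hcutE c i hib]
        exact hlti
    · refine ⟨(e c s - e β' s - ofLex γ s + 1).toNat, fun n hn =>
        le_of_lt (TT.lt_def.mpr ⟨s, fun j hj => ?_, ?_⟩)⟩
      · rw [hle n γ j (hmin j hj), hcutE c j (hmin j hj), heq]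
      · rw [tr_apply, trunc_apply, if_pos hsβ', E_apply, E_apply, if_pos hsβ']
        have h1 : ofLex (γ + κ n) s = ofLex γ s + n := by
          have : ofLex (γ + κ n) s = ofLex γ s + k n s := rfl
          rw [this]
          simp only [k, if_neg (not_le.mpr hβs), if_true]
        rw [h1, ← WithBot.coe_add]
        split_ifs
        · rw [WithBot.coe_lt_coe]
          have := Int.self_le_toNat (e c s - e β' s - ofLex γ s + 1)
          have h2 : ((e c s - e β' s - ofLex γ s + 1).toNat : ℤ) ≤ n := by exact_mod_cast hn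
          omega
        · exact WithBot.bot_lt_coe _

/-- restriction to a finite set of coordinates -/
noncomputable def cut (D : Finset W) (f : M0 W) : M0 W := by
  classical exact fun c => if c ∈ D then f c else 0

theorem cut_apply (D : Finset W) (f : M0 W) (c : W) [Decidable (c ∈ D)] :
    cut D f c = if c ∈ D then f c else 0 := by
  unfold cut
  congr

theorem cut_add (D : Finset W) (f g : M0 W) : cut D (f + g) = cut D f + cut D g := by
  classical
  funext c
  rw [Pi.add_apply, cut_apply, cut_apply, cut_apply]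
  split_ifs
  · rfl
  · rw [add_zero]

theorem comm_fin (r : RR e) : ∃ D₀ : Finset W, ∀ D, D₀ ⊆ D → ∀ f : M0 W,
    cut D (r • f) = r • cut D f := by
  classical
  obtain ⟨r, hr⟩ := r
  have key : ∀ r : Module.End (QQ W) (M0 W), r ∈ RR e → ∃ D₀ : Finset W, ∀ D, D₀ ⊆ D →
      ∀ f : M0 W, cut D (r f) = r (cut D f) := by
    intro r hr
    unfold RR at hr
    induction hr using Subring.closure_induction with
    | mem T hT =>
      obtain ⟨a, b, x, hx, rfl⟩ := hT
      refine ⟨{a, b}, fun D hD f => ?_⟩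
      have ha : a ∈ D := hD (by simp)
      have hb : b ∈ D := hD (by simp)
      rw [EE_apply, EE_apply, cut_apply, if_pos hb]
      funext c
      rw [cut_apply]
      by_cases hc : c = a
      · subst hc
        rw [if_pos ha]
      · rw [Pi.single_eq_of_ne hc]
        split_ifs <;> rfl
    | zero =>
      refine ⟨∅, fun D _ f => ?_⟩
      rw [LinearMap.zero_apply, LinearMap.zero_apply]
      funext c
      rw [cut_apply]
      split_ifs <;> rfl
    | one => exact ⟨∅, fun D _ f => rfl⟩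
    | add x y _ _ hx hy =>
      obtain ⟨D1, h1⟩ := hx
      obtain ⟨D2, h2⟩ := hy
      refine ⟨D1 ∪ D2, fun D hD f => ?_⟩
      rw [LinearMap.add_apply, LinearMap.add_apply, cut_add,
        h1 D (Finset.union_subset_left hD), h2 D (Finset.union_subset_right hD)]
    | neg x _ hx =>
      obtain ⟨D1, h1⟩ := hx
      refine ⟨D1, fun D hD f => ?_⟩
      rw [LinearMap.neg_apply, LinearMap.neg_apply, ← h1 D hD]
      funext c
      rw [Pi.neg_apply, cut_apply, cut_apply]
      split_ifs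
      · rfl
      · rw [neg_zero]
    | mul x y _ _ hx hy =>
      obtain ⟨D1, h1⟩ := hx
      obtain ⟨D2, h2⟩ := hy
      refine ⟨D1 ∪ D2, fun D hD f => ?_⟩
      rw [Module.End.mul_apply, Module.End.mul_apply, h1 D (Finset.union_subset_left hD),
        h2 D (Finset.union_subset_right hD)]
  exact key r hr

theorem smul_smulQ (r : RR e) (q : QQ W) (f : M0 W) : q • (r • f) = r • (q • f) :=
  (r.1.map_smul q f).symm

theorem spec_lt {β β' : W} (h : β < β')
    (hcoh : {ξ | ξ ≤ β ∧ e β' ξ ≠ e β ξ}.Finite)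
    {F : Type} [AddCommGroup F] [Module (RR e) F] [Module.FinitePresentation (RR e) F] (y : F)
    (hk : ∀ g : F →ₗ[RR e] NN e β', g y = 0) (g : F →ₗ[RR e] NN e β) : g y = 0 := by
  classical
  obtain ⟨κ, hκ1, hκ2⟩ := exists_kappa h hcoh
  let X : Type := Finset W × ℕ → NN e β'
  let Y : Finset W × (Finset W → ℕ) → Submodule (RR e) (Finset W × ℕ → NN e β') := fun i =>
    { carrier := {x | ∀ D n, i.1 ⊆ D → i.2 D ≤ n → x (D, n) = 0}
      add_mem' := by
        intro a b ha hb D n hD hn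
        rw [Pi.add_apply, ha D n hD hn, hb D n hD hn, add_zero]
      zero_mem' := by
        intro D n _ _
        rfl
      smul_mem' := by
        intro r a ha D n hD hn
        rw [Pi.smul_apply, ha D n hD hn, smul_zero] }
  have hYmem : ∀ i x, x ∈ Y i ↔ ∀ D n, i.1 ⊆ D → i.2 D ≤ n → x (D, n) = 0 := fun i x => Iff.rfl
  have hYdir : Directed (· ≤ ·) Y := by
    intro i j
    refine ⟨(i.1 ∪ j.1, fun D => max (i.2 D) (j.2 D)), ?_, ?_⟩
    · intro x hx D n hD hn
      exact hx D n (Finset.union_subset_left hD) ((le_max_left _ _).trans hn)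
    · intro x hx D n hD hn
      exact hx D n (Finset.union_subset_right hD) ((le_max_right _ _).trans hn)
  -- maps to the factors kill y
  have hfac : ∀ i, ∀ g : F →ₗ[RR e] (Finset W × ℕ → NN e β') ⧸ Y i, g y = 0 := by
    intro i g
    obtain ⟨x, hx⟩ := (Y i).mkQ_surjective (g y)
    rw [← hx, mkQ_apply, Quotient.mk_eq_zero, hYmem]
    intro D n hD hn
    have hker : Y i ≤ LinearMap.ker (LinearMap.proj (R := RR e) (φ := fun _ : Finset W × ℕ => NN e β') (D, n)) := by
      intro x hx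
      exact hx D n hD hn
    have h1 := hk ((Y i).liftQ _ hker ∘ₗ g)
    rw [LinearMap.comp_apply, ← hx, mkQ_apply, liftQ_apply] at h1
    exact h1
  have hlim := kills_lim Y hYdir y hfac
  -- the embedding
  let Φ0 : M0 W → (Finset W × ℕ → NN e β') := fun f p =>
    (JJ e β').mkQ ((HahnSeries.single (κ p.2) (1 : ZMod 2) : QQ W) • cut p.1 f)
  have hΦ0 : ∀ f p, Φ0 f p =
    (JJ e β').mkQ ((HahnSeries.single (κ p.2) (1 : ZMod 2) : QQ W) • cut p.1 f) := fun f p => rfl
  let Φ : M0 W →ₗ[RR e] (Finset W × ℕ → NN e β') ⧸ (⨆ i, Y i) :=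
    { toFun := fun f => (⨆ i, Y i).mkQ (Φ0 f)
      map_add' := by
        intro f g
        rw [← map_add]
        congr 1
        funext p
        rw [Pi.add_apply, hΦ0, hΦ0, hΦ0, cut_add, smul_add, map_add]
      map_smul' := by
        intro r f
        rw [RingHom.id_apply, ← map_smul, ← sub_eq_zero, ← map_sub, mkQ_apply,
          Quotient.mk_eq_zero, mem_iSup_of_directed Y hYdir]
        obtain ⟨D₀, hD₀⟩ := comm_fin r
        refine ⟨(D₀, fun _ => 0), ?_⟩
        rw [hYmem]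
        intro D n hD _
        rw [Pi.sub_apply, Pi.smul_apply, hΦ0, hΦ0, hD₀ D hD, smul_smulQ, map_smul, sub_self] }
  have hΦ : ∀ f, Φ f = (⨆ i, Y i).mkQ (Φ0 f) := fun f => rfl
  have hcoef : ∀ (n : ℕ) (c : W) (x : QQ W),
      (HahnSeries.single (κ n) (1 : ZMod 2) : QQ W) * x ∈ subU (ZMod 2) (VS e β' c) ↔
        x ∈ subU (ZMod 2) {γ | γ + κ n ∈ VS e β' c} := by
    intro n c x
    have h1 : (HahnSeries.single (κ n) (1 : ZMod 2) : QQ W) ≠ 0 := by simp
    rw [mul_mem_iff (VS_upper e β' c) h1, HahnSeries.order_single one_ne_zero]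
  have hker : JJ e β ≤ LinearMap.ker Φ := by
    intro f hf
    rw [LinearMap.mem_ker, hΦ, mkQ_apply, Quotient.mk_eq_zero, mem_iSup_of_directed Y hYdir]
    have hn : ∀ c, ∃ n0, ∀ n ≥ n0, f c ∈ subU (ZMod 2) {γ | γ + κ n ∈ VS e β' c} := by
      intro c
      by_cases hfc : f c = 0
      · exact ⟨0, fun n _ => by rw [hfc]; exact zero_mem _⟩
      · have h1 := (mem_subU_iff_order (VS_upper e β c) hfc).mp (mem_JJ.mp hf c)
        obtain ⟨n0, hn0⟩ := hκ2 c _ h1
        refine ⟨n0, fun n hn => ?_⟩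
        have hU : IsUpperSet {γ : Gam W | γ + κ n ∈ VS e β' c} := fun a b hab ha =>
          VS_upper e β' c (add_le_add_left hab _) ha
        exact (mem_subU_iff_order hU hfc).mpr (hn0 n hn)
    choose n0 hn0 using hn
    refine ⟨(∅, fun D => D.sup n0), ?_⟩
    rw [hYmem]
    intro D n _ hn
    rw [hΦ0, mkQ_apply, Quotient.mk_eq_zero, mem_JJ]
    intro c
    rw [Pi.smul_apply, smul_eq_mul, hcoef, cut_apply]
    split_ifs with hc
    · exact hn0 c n ((Finset.le_sup hc).trans hn)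
    · exact zero_mem _
  have hinj : ∀ f, Φ f = 0 → f ∈ JJ e β := by
    intro f hf
    rw [hΦ, mkQ_apply, Quotient.mk_eq_zero, mem_iSup_of_directed Y hYdir] at hf
    obtain ⟨i, hi⟩ := hf
    rw [mem_JJ]
    intro c
    have h1 := hi (i.1 ∪ {c}) (i.2 (i.1 ∪ {c})) Finset.subset_union_left le_rfl
    rw [hΦ0, mkQ_apply, Quotient.mk_eq_zero, mem_JJ] at h1
    have h2 := h1 c
    rw [Pi.smul_apply, smul_eq_mul, hcoef, cut_apply,
      if_pos (Finset.mem_union_right _ (Finset.mem_singleton_self c))] at h2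
    intro γ hγ
    exact hκ1 _ c γ (h2 γ hγ)
  have h1 := hlim ((JJ e β).liftQ Φ hker ∘ₗ g)
  rw [LinearMap.comp_apply] at h1
  obtain ⟨f, hf⟩ := (JJ e β).mkQ_surjective (g y)
  rw [← hf, mkQ_apply, liftQ_apply] at h1
  rw [← hf, mkQ_apply, Quotient.mk_eq_zero]
  exact hinj f h1

theorem spec_le {β β' : W} (h : β ≤ β')
    (hcoh : {ξ | ξ ≤ β ∧ e β' ξ ≠ e β ξ}.Finite)
    {F G : Type} [AddCommGroup F] [Module (RR e) F] [AddCommGroup G] [Module (RR e) G]
    [Module.FinitePresentation (RR e) F] (f : F →ₗ[RR e] G)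
    (hf : ∃ g : F →ₗ[RR e] NN e β, ∀ h : G →ₗ[RR e] NN e β, h ∘ₗ f ≠ g) :
    ∃ g : F →ₗ[RR e] NN e β', ∀ h : G →ₗ[RR e] NN e β', h ∘ₗ f ≠ g := by
  rcases h.lt_or_eq with h | h
  · rw [(NN_inj β).open_iff] at hf
    rw [(NN_inj β').open_iff]
    obtain ⟨y, hy, g, hg⟩ := hf
    refine ⟨y, hy, ?_⟩
    by_contra hcon
    push Not at hcon
    exact hg (spec_lt h hcoh y hcon g)
  · subst h
    exact hf

end Pool.Agent.Helper173.Sob
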