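import Mathlib
import Pool.Agent.Helper173.SobSpec
import Pool.Agent.Helper173.SobSet

set_option autoImplicit false

namespace Pool.Agent.Helper173.Sob

open Set Submodule

theorem fp_quot {R : Type} [Ring R] (S : Set R) (hS : S.Finite) :
    Module.FinitePresentation R (R ⧸ span R S) :=
  Module.finitePresentation_of_surjective (mkQ _) (mkQ_surjective _) (by
    rw [ker_mkQ]
    exact fg_span hS)

variable {W : Type} [LinearOrder W] [WellFoundedLT W] {e : W → W → ℤ}

/-- membership in a basic open set -/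
def OO {R : Type} [Ring R] {F G : Type} [AddCommGroup F] [Module R F] [AddCommGroup G]
    [Module R G] (f : F →ₗ[R] G) (N : Type) [AddCommGroup N] [Module R N] : Prop :=
  ∃ g : F →ₗ[R] N, ∀ h : G →ₗ[R] N, h ∘ₗ f ≠ g

section X

/-- the monomials -/
noncomputable def XX (γ : Gam W) : QQ W := HahnSeries.single γ 1

theorem XX_mul (γ δ : Gam W) : XX γ * XX δ = XX (γ + δ) := by
  unfold XX
  rw [HahnSeries.single_mul_single, one_mul]

theorem XX_ne (γ : Gam W) : XX γ ≠ 0 := by
  unfold XX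
  simp

theorem XX_order (γ : Gam W) : (XX γ).order = γ := HahnSeries.order_single one_ne_zero

theorem XX_mem {a b : W} {γ : Gam W} (h : γ ∈ US e a b) : XX γ ∈ HH e a b :=
  single_mem_subU h 1

theorem XX_mem_iff {a b : W} {γ : Gam W} : XX γ ∈ HH e a b ↔ γ ∈ US e a b :=
  single_mem_subU_iff

theorem XX_mul_el {a b c : W} {γ δ : Gam W} (h1 : XX γ ∈ HH e a b) (h2 : XX δ ∈ HH e b c)
    (h3 : XX (γ + δ) ∈ HH e a c) :
    el a b (XX γ) h1 * el b c (XX δ) h2 = el a c (XX (γ + δ)) h3 := by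
  rw [el_mul]
  exact el_congr _ _ _ (XX_mul γ δ)

end X

/-- Step 1 -/
theorem divis_of_closed (N : Type) [AddCommGroup N] [Module (RR e) N]
    (hN : ∀ (F G : Type) [AddCommGroup F] [Module (RR e) F] [AddCommGroup G] [Module (RR e) G]
      [Module.FinitePresentation (RR e) F] [Module.FinitePresentation (RR e) G]
      (f : F →ₗ[RR e] G), OO f N → ∃ β, OO f (NN e β)) : Divis (e := e) N := by
  intro d c x hx hx0 w hw
  have hmem : ∀ (M : Type) [AddCommGroup M] [Module (RR e) M] (m : M), (ee d : RR e) • m = m →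
      span (RR e) {(1 - ee d : RR e)} ≤ LinearMap.ker (LinearMap.toSpanSingleton (RR e) M m) := by
    intro M _ _ m hm
    rw [span_le]
    rintro z hz
    rw [Set.mem_singleton_iff] at hz
    rw [hz, SetLike.mem_coe, LinearMap.mem_ker, LinearMap.toSpanSingleton_apply, sub_smul,
      one_smul, hm, sub_self]
  have hfp : Module.FinitePresentation (RR e) (RR e ⧸ span (RR e) {(1 - ee d : RR e)}) :=
    fp_quot _ (Set.finite_singleton _)
  have hel : (ee d : RR e) • el d c x hx = el d c x hx := ee_mul_el _ _ _ _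
  let f : (RR e ⧸ span (RR e) {(1 - ee d : RR e)}) →ₗ[RR e] RR e :=
    (span (RR e) {(1 - ee d : RR e)}).liftQ _ (hmem (RR e) (el d c x hx) hel)
  let g : (RR e ⧸ span (RR e) {(1 - ee d : RR e)}) →ₗ[RR e] N :=
    (span (RR e) {(1 - ee d : RR e)}).liftQ _ (hmem N w hw)
  have hf1 : f (mkQ _ 1) = el d c x hx := by
    simp only [f, mkQ_apply, liftQ_apply, LinearMap.toSpanSingleton_apply, one_smul]
  have hg1 : g (mkQ _ 1) = w := by
    simp only [g, mkQ_apply, liftQ_apply, LinearMap.toSpanSingleton_apply, one_smul]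
  have hext : ∀ (M : Type) [AddCommGroup M] [Module (RR e) M]
      (g1 g2 : (RR e ⧸ span (RR e) {(1 - ee d : RR e)}) →ₗ[RR e] M),
      g1 (mkQ _ 1) = g2 (mkQ _ 1) → g1 = g2 := by
    intro M _ _ g1 g2 h12
    ext
    exact h12
  have hval : ∀ (M : Type) [AddCommGroup M] [Module (RR e) M] (h : RR e →ₗ[RR e] M),
      (h ∘ₗ f) (mkQ _ 1) = el d c x hx • h 1 := by
    intro M _ _ h
    rw [LinearMap.comp_apply, hf1, ← map_smul, smul_eq_mul, mul_one]
  by_contra hcon
  push Not at hcon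
  obtain ⟨β, g', hg'⟩ := hN _ _ f ⟨g, fun h hh => hcon (h 1) (by rw [← hval, hh, hg1])⟩
  have hw' : (ee d : RR e) • g' (mkQ _ 1) = g' (mkQ _ 1) := by
    rw [← map_smul, ← map_smul]
    congr 1
    rw [← sub_eq_zero, ← map_sub, mkQ_apply, Quotient.mk_eq_zero, smul_eq_mul, mul_one,
      ← neg_mem_iff, neg_sub]
    exact mem_span_singleton_self _
  obtain ⟨n, hn⟩ := NN_divis β d c x hx hx0 _ hw'
  apply hg' (LinearMap.toSpanSingleton (RR e) _ n)
  apply hext
  rw [hval, LinearMap.toSpanSingleton_apply, one_smul, hn]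

theorem o1_mem_US (β : W) : o1 β ∈ US e β β := by
  apply US_upper e β β _ (zero_mem_US e β)
  apply le_of_lt
  refine Gam.lt_def.mpr ⟨β, fun j hj => ?_, ?_⟩
  · rw [o1_ne hj.ne]
    rfl
  · rw [o1_self]
    exact zero_lt_one

/-- Step 2 -/
theorem exists_u (N : Type) [AddCommGroup N] [Module (RR e) N]
    (hN : ∀ (F G : Type) [AddCommGroup F] [Module (RR e) F] [AddCommGroup G] [Module (RR e) G]
      [Module.FinitePresentation (RR e) F] [Module.FinitePresentation (RR e) G]
      (f : F →ₗ[RR e] G) (β : W), OO f (NN e β) → OO f N) (β : W) :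
    ∃ u : N, u ≠ 0 ∧ (ee β : RR e) • u = u ∧
      (el β β (XX (o1 β)) (XX_mem (o1_mem_US β)) : RR e) • u = 0 := by
  let S : Set (RR e) := {1 - ee β, el β β (XX (o1 β)) (XX_mem (o1_mem_US β))}
  have hS : S.Finite := by simp [S]
  have hfp : Module.FinitePresentation (RR e) (RR e ⧸ span (RR e) S) := fp_quot S hS
  let u0 : NN e β := (JJ e β).mkQ (Pi.single β (XX (- o1 β)))
  have hu0 : u0 ≠ 0 := by
    simp only [u0]
    rw [mkQ_apply, ne_eq, Quotient.mk_eq_zero, single_mem_JJ]
    intro h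
    exact neg_o1_notMem β (single_mem_subU_iff.mp h)
  have hker : span (RR e) S ≤ LinearMap.ker (LinearMap.toSpanSingleton (RR e) _ u0) := by
    rw [span_le]
    rintro z (hz | hz)
    · rw [hz, SetLike.mem_coe, LinearMap.mem_ker, LinearMap.toSpanSingleton_apply]
      simp only [u0]
      rw [sub_smul, one_smul, ← map_smul, ee_smul, Pi.single_eq_same, sub_self]
    · rw [Set.mem_singleton_iff] at hz
      rw [hz, SetLike.mem_coe, LinearMap.mem_ker, LinearMap.toSpanSingleton_apply]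
      simp only [u0]
      rw [← map_smul, el_smul, Pi.single_eq_same, XX_mul, add_neg_cancel, mkQ_apply,
        Quotient.mk_eq_zero, single_mem_JJ]
      exact single_mem_subU (zero_mem_VS β) 1
  have hO : OO (0 : (RR e ⧸ span (RR e) S) →ₗ[RR e] PUnit) (NN e β) := by
    refine ⟨(span (RR e) S).liftQ _ hker, fun h hh => hu0 ?_⟩
    have := LinearMap.congr_fun hh (mkQ _ 1)
    rw [mkQ_apply, liftQ_apply, LinearMap.toSpanSingleton_apply, one_smul, LinearMap.comp_zero,
      LinearMap.zero_apply] at this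
    exact this.symm
  obtain ⟨g, hg⟩ := hN _ _ _ β hO
  have hrel : ∀ s ∈ S, s • g (mkQ _ 1) = 0 := by
    intro s hs
    rw [← map_smul, ← map_smul, smul_eq_mul, mul_one, mkQ_apply,
      (Quotient.mk_eq_zero _).mpr (subset_span hs), map_zero]
  refine ⟨g (mkQ _ 1), ?_, ?_, ?_⟩
  · intro h0
    apply hg 0
    ext
    rw [LinearMap.zero_comp]
    exact h0.symm
  · have := hrel (1 - ee β) (Set.mem_insert _ _)
    rw [sub_smul, one_smul, sub_eq_zero] at this
    exact this.symm
  · exact hrel _ (Set.mem_insert_of_mem _ rfl)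

section positions

variable {N : Type} [AddCommGroup N] [Module (RR e) N]

variable (e) in
/-- positions where the element is killed -/
def Zp {N : Type} [AddCommGroup N] [Module (RR e) N] (c : W) (u : N) (p : TT W) : Prop :=
  ∃ d γ, p = tr (-γ) (E e d) ∧ ∃ h : XX γ ∈ HH e d c, el d c (XX γ) h • u = 0

variable (e) in
/-- positions where the element is not killed -/
def Wp {N : Type} [AddCommGroup N] [Module (RR e) N] (c : W) (u : N) (p : TT W) : Prop :=
  ∃ d γ, p = tr (-γ) (E e d) ∧ ∃ h : XX γ ∈ HH e d c, el d c (XX γ) h • u ≠ 0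

theorem Zp_lt_Wp {c : W} {u : N} {p q : TT W} (hp : Zp e c u p) (hq : Wp e c u q) : p < q := by
  obtain ⟨d, γ, rfl, h, h0⟩ := hp
  obtain ⟨d', γ', rfl, h', h0'⟩ := hq
  by_contra hcon
  replace hcon := not_lt.mp hcon
  apply h0'
  have h1 : γ' - γ ∈ US e d' d := by
    change E e d' ≤ tr (γ' - γ) (E e d)
    have h2 := tr_mono (γ := γ') hcon
    rw [← tr_add, ← tr_add, add_neg_cancel, tr_zero, ← sub_eq_add_neg] at h2
    exact h2
  have h3 : XX (γ' - γ + γ) ∈ HH e d' c := by rwa [sub_add_cancel]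
  have h4 : el d' c (XX γ') h' = el d' d (XX (γ' - γ)) (XX_mem h1) * el d c (XX γ) h := by
    rw [XX_mul_el (XX_mem h1) h h3]
    exact el_congr _ _ _ (by rw [sub_add_cancel])
  rw [h4, mul_smul, h0, smul_zero]

/-- Steps 3-5 -/
theorem exists_level (hN : Inj (RR e) N)
    (hind : ∀ P Q : Submodule (RR e) N, IsCompl P Q → P = ⊥ ∨ Q = ⊥)
    {c : W} {u0 : N} (hu0 : u0 ≠ 0) (hcu : (ee c : RR e) • u0 = u0)
    {β : W} {u : N} (hu : u ≠ 0) (hβu : (ee β : RR e) • u = u)
    (hXu : (el β β (XX (o1 β)) (XX_mem (o1_mem_US β)) : RR e) • u = 0) :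
    ∃ κ : Gam W, Zp e c u0 (tr (κ - o1 β) (E e β)) ∧ ∃ q, Wp e c u0 q ∧ q ≤ tr κ (E e β) := by
  -- a common multiple
  have hPQ : span (RR e) {u0} ⊓ span (RR e) {u} ≠ ⊥ := by
    intro hbot
    rcases hN.uniform hind _ _ hbot with h | h
    · rw [span_singleton_eq_bot] at h
      exact hu0 h
    · rw [span_singleton_eq_bot] at h
      exact hu h
  obtain ⟨v, hv, hv0⟩ := Submodule.exists_mem_ne_zero_of_ne_bot hPQ
  obtain ⟨hv1, hv2⟩ := hv
  rw [SetLike.mem_coe, mem_span_singleton] at hv1 hv2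
  obtain ⟨r, hr⟩ := hv1
  obtain ⟨r', hr'⟩ := hv2
  -- homogeneous part
  have hd : ∃ d, (ee d : RR e) • v ≠ 0 := by
    by_contra hcon
    push Not at hcon
    apply hv0
    obtain ⟨D, hD⟩ := col_fin r c
    rw [← hr, ← hcu, ← mul_smul, hD, Finset.sum_smul]
    apply Finset.sum_eq_zero
    intro d _
    rw [mul_smul, mul_smul, hcu, hr, hcon]
  obtain ⟨d, hd⟩ := hd
  obtain ⟨y, hy, hye⟩ := homog r d c
  obtain ⟨y', hy', hye'⟩ := homog r' d β
  have h1 : el d c y hy • u0 = (ee d : RR e) • v := by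
    rw [← hye, mul_smul, mul_smul, hcu, hr]
  have h2 : el d β y' hy' • u = (ee d : RR e) • v := by
    rw [← hye', mul_smul, mul_smul, hβu, hr']
  have hy0 : y ≠ 0 := by
    intro h
    apply hd
    rw [← h1, el_congr _ _ _ h, el_zero, zero_smul]
  have hy0' : y' ≠ 0 := by
    intro h
    apply hd
    rw [← h2, el_congr _ _ _ h, el_zero, zero_smul]
  -- normalisation
  have ha : y.order ∈ US e d c := (mem_subU_iff_order (US_upper e d c) hy0).mp hy
  have hb : y'.order ∈ US e d β := (mem_subU_iff_order (US_upper e d β) hy0').mp hy'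
  generalize hae : y.order = a at ha
  generalize hbe : y'.order = b at hb
  have hε0 : XX a / y ≠ 0 := div_ne_zero (XX_ne a) hy0
  have hε : XX a / y ∈ HH e d d := by
    rw [mem_subU_iff_order (US_upper e d d) hε0, order_div' (XX_ne a) hy0, XX_order, hae, sub_self]
    exact zero_mem_US e d
  have hε0' : y / XX a ≠ 0 := div_ne_zero hy0 (XX_ne a)
  have hε' : y / XX a ∈ HH e d d := by
    rw [mem_subU_iff_order (US_upper e d d) hε0', order_div' hy0 (XX_ne a), XX_order, hae, sub_self]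
    exact zero_mem_US e d
  have hη0 : XX a / y * y' / XX b ≠ 0 := div_ne_zero (mul_ne_zero hε0 hy0') (XX_ne b)
  have hη : XX a / y * y' / XX b ∈ HH e β β := by
    rw [mem_subU_iff_order (US_upper e β β) hη0, order_div' (mul_ne_zero hε0 hy0') (XX_ne b),
      HahnSeries.order_mul hε0 hy0', order_div' (XX_ne a) hy0, XX_order, XX_order, hae, hbe,
      sub_self, zero_add, sub_self]
    exact zero_mem_US e β
  obtain ⟨u', hu'⟩ : ∃ u', u' = el β β (XX a / y * y' / XX b) hη • u := ⟨_, rfl⟩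
  have h3 : el d c (XX a) (XX_mem ha) • u0 = el d β (XX b) (XX_mem hb) • u' := by
    have h4 : el d c (XX a) (XX_mem ha) = el d d (XX a / y) hε * el d c y hy := by
      rw [el_mul]
      exact el_congr _ _ _ (by rw [div_mul_cancel₀ _ hy0])
    have h5 : el d β (XX b) (XX_mem hb) * el β β (XX a / y * y' / XX b) hη =
        el d d (XX a / y) hε * el d β y' hy' := by
      rw [el_mul, el_mul]
      exact el_congr _ _ _ (by rw [mul_div_cancel₀ _ (XX_ne b)])
    rw [h4, hu', ← mul_smul, h5, mul_smul, mul_smul, h1, h2]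
  have h4 : el d c (XX a) (XX_mem ha) • u0 ≠ 0 := by
    intro h5
    apply hd
    have h6 : el d c y hy = el d d (y / XX a) hε' * el d c (XX a) (XX_mem ha) := by
      rw [el_mul]
      exact el_congr _ _ _ (by rw [div_mul_cancel₀ _ (XX_ne a)])
    rw [← h1, h6, mul_smul, h5, smul_zero]
  have h5 : (el β β (XX (o1 β)) (XX_mem (o1_mem_US β)) : RR e) • u' = 0 := by
    have h6 : (el β β (XX (o1 β)) (XX_mem (o1_mem_US β)) : RR e) * el β β (XX a / y * y' / XX b) hη =
        el β β (XX a / y * y' / XX b) hη * el β β (XX (o1 β)) (XX_mem (o1_mem_US β)) := by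
      rw [el_mul, el_mul]
      exact el_congr _ _ _ (mul_comm _ _)
    rw [hu', ← mul_smul, h6, mul_smul, hXu, smul_zero]
  refine ⟨b - a, ?_, tr (-a) (E e d), ⟨d, a, rfl, XX_mem ha, h4⟩, ?_⟩
  · have h6 : o1 β - b ∈ US e β d := by
      rcases le_total (E e β) (tr (o1 β - b) (E e d)) with h | h
      · exact h
      · exfalso
        have h7 : b - o1 β ∈ US e d β := by
          change E e d ≤ tr (b - o1 β) (E e β)
          have h8 := tr_mono (γ := b - o1 β) h
          rw [← tr_add, sub_add_sub_cancel, sub_self, tr_zero] at h8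
          exact h8
        apply h4
        rw [h3]
        have h9 : XX (b - o1 β + o1 β) ∈ HH e d β := by
          rw [sub_add_cancel]
          exact XX_mem hb
        have h8 : el d β (XX b) (XX_mem hb) = el d β (XX (b - o1 β)) (XX_mem h7) *
            el β β (XX (o1 β)) (XX_mem (o1_mem_US β)) := by
          rw [XX_mul_el (XX_mem h7) _ h9]
          exact el_congr _ _ _ (by rw [sub_add_cancel])
        rw [h8, mul_smul, h5, smul_zero]
    refine ⟨β, o1 β - b + a, ?_, XX_mem (US_add h6 ha), ?_⟩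
    · congr 1
      abel
    · rw [← XX_mul_el (XX_mem h6) (XX_mem ha), mul_smul, h3, ← mul_smul]
      have h9 : XX (o1 β - b + b) ∈ HH e β β := by
        rw [sub_add_cancel]
        exact XX_mem (o1_mem_US β)
      have h8 : el β d (XX (o1 β - b)) (XX_mem h6) * el d β (XX b) (XX_mem hb) =
          el β β (XX (o1 β)) (XX_mem (o1_mem_US β)) := by
        rw [XX_mul_el (XX_mem h6) (XX_mem hb) h9]
        exact el_congr _ _ _ (by rw [sub_add_cancel])
      rw [h8, h5]
  · have h6 : E e d ≤ tr b (E e β) := hb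
    have h7 := tr_mono (γ := -a) h6
    rw [← tr_add, neg_add_eq_sub] at h7
    exact h7

end positions

/-- Step 6 -/
theorem level_agree {β β' : W} (h : β < β') {κ κ' : Gam W}
    (h1 : tr (κ - o1 β) (E e β) < tr κ' (E e β')) (h2 : tr (κ' - o1 β') (E e β') < tr κ (E e β)) :
    ∀ ξ ≤ β, e β ξ + ofLex (κ - o1 β) ξ = e β' ξ + ofLex (κ' - o1 β') ξ := by
  have hv1 : ∀ (γ : Gam W) ξ, ξ ≤ β → ofLex (tr γ (E e β)) ξ = ((e β ξ + ofLex γ ξ : ℤ) : WithBot ℤ) := by
    intro γ ξ hξ
    rw [tr_apply, E_apply, if_pos hξ, WithBot.coe_add]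
  have hv2 : ∀ (γ : Gam W) ξ, ξ ≤ β' → ofLex (tr γ (E e β')) ξ = ((e β' ξ + ofLex γ ξ : ℤ) : WithBot ℤ) := by
    intro γ ξ hξ
    rw [tr_apply, E_apply, if_pos hξ, WithBot.coe_add]
  have hs : ∀ (γ δ : Gam W) ξ, ofLex (γ - δ) ξ = ofLex γ ξ - ofLex δ ξ := fun _ _ _ => rfl
  obtain ⟨i, hi, hlt⟩ := TT.lt_def.mp h2
  obtain ⟨i', hi', hlt'⟩ := TT.lt_def.mp h1
  have hib : i ≤ β := by
    by_contra hcon
    rw [tr_apply (γ := κ), E_apply, if_neg hcon, WithBot.bot_add] at hlt
    exact not_lt_bot hlt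
  have hA : ∀ j < i, e β' j + ofLex κ' j = e β j + ofLex κ j := by
    intro j hj
    have := hi j hj
    have hjβ : j < β := lt_of_lt_of_le hj hib
    rw [hv1 _ _ hjβ.le, hv2 _ _ (hjβ.trans h).le, WithBot.coe_inj, hs, o1_ne (hjβ.trans h).ne] at this
    omega
  have hB : e β' i + ofLex κ' i < e β i + ofLex κ i := by
    have := hlt
    rw [hv1 _ _ hib, hv2 _ _ (hib.trans h.le), WithBot.coe_lt_coe, hs,
      o1_ne (hib.trans_lt h).ne] at this
    omega
  have hii' : i ≤ i' := by
    by_contra hcon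
    rw [not_le] at hcon
    have hi'β : i' < β := lt_of_lt_of_le hcon hib
    rw [hv1 _ _ hi'β.le, hv2 _ _ (hi'β.trans h).le, WithBot.coe_lt_coe, hs, o1_ne hi'β.ne] at hlt'
    have := hA i' hcon
    omega
  have hiβ : i = β := by
    by_contra hcon
    have hiβ : i < β := lt_of_le_of_ne hib hcon
    rcases hii'.lt_or_eq with hlt1 | heq1
    · have := hi' i hlt1
      rw [hv1 _ _ hib, hv2 _ _ (hib.trans h.le), WithBot.coe_inj, hs, o1_ne hcon] at this
      omega
    · rw [← heq1, hv1 _ _ hib, hv2 _ _ (hib.trans h.le), WithBot.coe_lt_coe, hs, o1_ne hcon] at hlt'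
      omega
  subst hiβ
  have hC : e i i + ofLex κ i - 1 = e β' i + ofLex κ' i := by
    rcases hii'.lt_or_eq with hlt1 | heq1
    · have := hi' i hlt1
      rw [hv1 _ _ le_rfl, hv2 _ _ h.le, WithBot.coe_inj, hs, o1_self] at this
      omega
    · rw [← heq1, hv1 _ _ le_rfl, hv2 _ _ h.le, WithBot.coe_lt_coe, hs, o1_self] at hlt'
      omega
  intro ξ hξ
  rw [hs, hs, o1_ne (hξ.trans_lt h).ne]
  rcases hξ.lt_or_eq with hlt1 | heq1
  · rw [o1_ne hlt1.ne]
    have := hA ξ hlt1
    omega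
  · rw [heq1, o1_self]
    omega

/-- no module is generic -/
theorem no_generic [Nonempty W]
    (hnt : ¬ ∃ f : W → ℤ, ∀ β, {ξ | ξ ≤ β ∧ f ξ ≠ e β ξ}.Finite)
    (N : Type) [AddCommGroup N] [Module (RR e) N] (hPI : PInj (RR e) N)
    (hind : ∀ P Q : Submodule (RR e) N, IsCompl P Q → P = ⊥ ∨ Q = ⊥)
    (hN1 : ∀ (F G : Type) [AddCommGroup F] [Module (RR e) F] [AddCommGroup G] [Module (RR e) G]
      [Module.FinitePresentation (RR e) F] [Module.FinitePresentation (RR e) G]
      (f : F →ₗ[RR e] G), OO f N → ∃ β, OO f (NN e β))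
    (hN2 : ∀ (F G : Type) [AddCommGroup F] [Module (RR e) F] [AddCommGroup G] [Module (RR e) G]
      [Module.FinitePresentation (RR e) F] [Module.FinitePresentation (RR e) G]
      (f : F →ₗ[RR e] G) (β : W), OO f (NN e β) → OO f N) : False := by
  have hdiv : Divis (e := e) N := divis_of_closed N hN1
  have hinj : Inj (RR e) N := pinj_divis_inj N hPI hdiv
  choose u hu0 hu1 hu2 using exists_u N hN2
  obtain ⟨c⟩ := (inferInstance : Nonempty W)
  have hlev := fun β => exists_level hinj hind (hu0 c) (hu1 c) (hu0 β) (hu1 β) (hu2 β)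
  choose κ hκ1 q hq1 hq2 using hlev
  have hlt : ∀ β β', tr (κ β - o1 β) (E e β) < tr (κ β') (E e β') := fun β β' =>
    lt_of_lt_of_le (Zp_lt_Wp (hκ1 β) (hq1 β')) (hq2 β')
  apply hnt
  refine ⟨fun ξ => e ξ ξ + ofLex (κ ξ - o1 ξ) ξ, fun β => ?_⟩
  refine ((ofLex (κ β - o1 β)).hasFiniteSupport).subset ?_
  rintro ξ ⟨hξ, hne⟩
  rw [Function.mem_support]
  intro h0
  apply hne
  rcases hξ.lt_or_eq with hlt1 | heq1
  · have := level_agree hlt1 (hlt ξ β) (hlt β ξ) ξ le_rfl
    simp only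
    rw [this, h0, add_zero]
  · simp only
    rw [heq1]
    rw [heq1] at h0
    rw [h0, add_zero]

end Pool.Agent.Helper173.Sob
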